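import Pool.Agent.H95.KM.Lau

/-!
# The derivation `t d/dt` and the trace functional in degree zero
-/

set_option autoImplicit false

open Matrix
open scoped LaurentPolynomial

universe u v w

namespace Pool.Agent.H95.KM

open Pool.Agent.H71.FJ

variable {R : Type u} [Ring R] {S : Type v} [Ring S]

/-- The derivation `t d/dt`. -/
noncomputable def der (R : Type u) [Ring R] : R[T;T⁻¹] →+ R[T;T⁻¹] where
  toFun x := ∑ k ∈ x.coeff.support, AddMonoidAlgebra.single k (k • x.coeff k)
  map_zero' := by simp
  map_add' x y := by
    classical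
    have h : ∀ (x : R[T;T⁻¹]) (s : Finset ℤ), x.coeff.support ⊆ s →
        ∑ k ∈ x.coeff.support, AddMonoidAlgebra.single k (k • x.coeff k) =
        ∑ k ∈ s, (AddMonoidAlgebra.single k (k • x.coeff k) : R[T;T⁻¹]) := by
      intro x s hs
      apply Finset.sum_subset hs
      intro k _ hk
      rw [Finsupp.notMem_support_iff.1 hk, smul_zero, AddMonoidAlgebra.single_zero]
    rw [h (x + y) (x.coeff.support ∪ y.coeff.support) (by
        rw [AddMonoidAlgebra.coeff_add]
        exact Finsupp.support_add),
      h x (x.coeff.support ∪ y.coeff.support) Finset.subset_union_left,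
      h y (x.coeff.support ∪ y.coeff.support) Finset.subset_union_right,
      ← Finset.sum_add_distrib]
    apply Finset.sum_congr rfl
    intro k _
    rw [AddMonoidAlgebra.coeff_add, Finsupp.add_apply, smul_add, AddMonoidAlgebra.single_add]

theorem der_single (k : ℤ) (r : R) :
    der R (AddMonoidAlgebra.single k r) = AddMonoidAlgebra.single k (k • r) := by
  classical
  change ∑ l ∈ (AddMonoidAlgebra.single k r : R[T;T⁻¹]).coeff.support,
    AddMonoidAlgebra.single l (l • (AddMonoidAlgebra.single k r : R[T;T⁻¹]).coeff l) = _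
  rw [AddMonoidAlgebra.coeff_single]
  by_cases hr : r = 0
  · subst hr
    simp
  · rw [Finsupp.support_single _ hr, Finset.sum_singleton, Finsupp.single_eq_same]

theorem der_coeff (x : R[T;T⁻¹]) (k : ℤ) : (der R x).coeff k = k • x.coeff k := by
  induction x using AddMonoidAlgebra.induction_linear with
  | zero => simp
  | add x y hx hy =>
    rw [map_add, AddMonoidAlgebra.coeff_add, AddMonoidAlgebra.coeff_add, Finsupp.add_apply,
      Finsupp.add_apply, hx, hy, smul_add]
  | single l r =>
    classical
    rw [der_single, AddMonoidAlgebra.coeff_single, AddMonoidAlgebra.coeff_single,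
      Finsupp.single_apply, Finsupp.single_apply]
    split_ifs with h
    · rw [h]
    · rw [smul_zero]

theorem der_cst (r : R) : der R (cst R r) = 0 := by
  rw [cst_apply, der_single, zero_smul, AddMonoidAlgebra.single_zero]

theorem der_one : der R 1 = 0 := by
  have := der_cst (1 : R)
  rwa [map_one] at this

theorem der_mul (x y : R[T;T⁻¹]) : der R (x * y) = der R x * y + x * der R y := by
  induction x using AddMonoidAlgebra.induction_linear with
  | zero => simp
  | add x x' hx hx' =>
    rw [add_mul, map_add, hx, hx', map_add, add_mul, add_mul]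
    abel
  | single k r =>
    induction y using AddMonoidAlgebra.induction_linear with
    | zero => simp
    | add y y' hy hy' =>
      rw [mul_add, map_add, hy, hy', map_add, mul_add, mul_add]
      abel
    | single l s =>
      rw [AddMonoidAlgebra.single_mul_single, der_single, der_single, der_single,
        AddMonoidAlgebra.single_mul_single, AddMonoidAlgebra.single_mul_single,
        ← AddMonoidAlgebra.single_add, add_smul, smul_mul_assoc, mul_smul_comm]

theorem lau_der (f : R →+* S) (x : R[T;T⁻¹]) : lau f (der R x) = der S (lau f x) := by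
  induction x using AddMonoidAlgebra.induction_linear with
  | zero => simp
  | add x y hx hy => rw [map_add, map_add, hx, hy, map_add, map_add]
  | single k r => rw [der_single, lau_single, lau_single, der_single, map_zsmul]

section MatDer

variable {l m n : Type*}

theorem map_der_mul [Fintype m] (X : Matrix l m R[T;T⁻¹]) (Y : Matrix m n R[T;T⁻¹]) :
    (X * Y).map (der R) = X.map (der R) * Y + X * Y.map (der R) := by
  ext i j : 1
  simp only [Matrix.map_apply, Matrix.mul_apply, Matrix.add_apply, map_sum, der_mul,
    Finset.sum_add_distrib]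

theorem map_der_add (X Y : Matrix l m R[T;T⁻¹]) :
    (X + Y).map (der R) = X.map (der R) + Y.map (der R) := by
  ext i j : 1
  simp only [Matrix.map_apply, Matrix.add_apply, map_add]

theorem map_der_one [DecidableEq m] : (1 : Matrix m m R[T;T⁻¹]).map (der R) = 0 := by
  ext i j : 1
  by_cases h : i = j
  · subst h
    simp [der_one]
  · simp [h]

theorem map_lau_der (f : R →+* S) (X : Matrix l m R[T;T⁻¹]) :
    (X.map (lau f)).map (der S) = (X.map (der R)).map (lau f) := by
  ext i j : 1
  simp only [Matrix.map_apply, lau_der]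

end MatDer

section T0

variable {M : Type*} [AddCommGroup M] (τ : R →+ M) {m n : Type*} [Fintype m] [Fintype n]

/-- The trace functional `X ↦ ∑ τ(coefficient of t⁰ of X i i)`. -/
noncomputable def T0 (X : Matrix n n R[T;T⁻¹]) : M := ∑ i, τ ((X i i).coeff 0)

theorem T0_add (X Y : Matrix n n R[T;T⁻¹]) : T0 τ (X + Y) = T0 τ X + T0 τ Y := by
  simp only [T0, Matrix.add_apply, AddMonoidAlgebra.coeff_add, Finsupp.add_apply, map_add,
    Finset.sum_add_distrib]

theorem T0_zero : T0 τ (0 : Matrix n n R[T;T⁻¹]) = 0 := by
  simp [T0]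

theorem T0_neg (X : Matrix n n R[T;T⁻¹]) : T0 τ (-X) = - T0 τ X := by
  rw [eq_neg_iff_add_eq_zero, ← T0_add, neg_add_cancel, T0_zero]

theorem T0_sub (X Y : Matrix n n R[T;T⁻¹]) : T0 τ (X - Y) = T0 τ X - T0 τ Y := by
  rw [sub_eq_add_neg, T0_add, T0_neg, sub_eq_add_neg]

/-- the coefficient of `t⁰` followed by a trace function is a trace function -/
theorem tau_coeff_mul_comm (hτ : ∀ x y, τ (x * y) = τ (y * x)) (x y : R[T;T⁻¹]) :
    τ ((x * y).coeff 0) = τ ((y * x).coeff 0) := by
  induction x using AddMonoidAlgebra.induction_linear with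
  | zero => simp
  | add x x' hx hx' =>
    rw [add_mul, mul_add, AddMonoidAlgebra.coeff_add, AddMonoidAlgebra.coeff_add,
      Finsupp.add_apply, Finsupp.add_apply, map_add, map_add, hx, hx']
  | single k r =>
    induction y using AddMonoidAlgebra.induction_linear with
    | zero => simp
    | add y y' hy hy' =>
      rw [add_mul, mul_add, AddMonoidAlgebra.coeff_add, AddMonoidAlgebra.coeff_add,
        Finsupp.add_apply, Finsupp.add_apply, map_add, map_add, hy, hy']
    | single l s =>
      classical
      rw [AddMonoidAlgebra.single_mul_single, AddMonoidAlgebra.single_mul_single,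
        AddMonoidAlgebra.coeff_single, AddMonoidAlgebra.coeff_single, Finsupp.single_apply,
        Finsupp.single_apply, add_comm l k]
      split_ifs
      · exact hτ _ _
      · rfl

theorem T0_mul (X : Matrix m n R[T;T⁻¹]) (Y : Matrix n m R[T;T⁻¹]) :
    T0 τ (X * Y) = ∑ i, ∑ j, τ ((X i j * Y j i).coeff 0) := by
  simp only [T0, Matrix.mul_apply, AddMonoidAlgebra.coeff_sum, Finsupp.finsetSum_apply, map_sum]

theorem T0_mul_comm (hτ : ∀ x y, τ (x * y) = τ (y * x)) (X : Matrix m n R[T;T⁻¹])
    (Y : Matrix n m R[T;T⁻¹]) : T0 τ (X * Y) = T0 τ (Y * X) := by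
  rw [T0_mul, T0_mul, Finset.sum_comm]
  apply Finset.sum_congr rfl
  intro j _
  apply Finset.sum_congr rfl
  intro i _
  exact tau_coeff_mul_comm τ hτ _ _

theorem T0_map_lau (τ' : S →+ M) (f : R →+* S) (X : Matrix n n R[T;T⁻¹]) :
    T0 τ' (X.map (lau f)) = T0 (τ'.comp f.toAddMonoidHom) X := by
  simp only [T0, Matrix.map_apply, lau_coeff]
  rfl

theorem T0_fromBlocks (A : Matrix m m R[T;T⁻¹]) (B : Matrix m n R[T;T⁻¹])
    (C : Matrix n m R[T;T⁻¹]) (D : Matrix n n R[T;T⁻¹]) :
    T0 τ (fromBlocks A B C D) = T0 τ A + T0 τ D := by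
  simp only [T0, Fintype.sum_sum_type, fromBlocks_apply₁₁, fromBlocks_apply₂₂]

end T0

end Pool.Agent.H95.KM
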