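import Pool.Agent.H95.KM.ThetaDefs
import Pool.Agent.H95.KM.Der

/-!
# Project KM, module DetOne: local and rational trivializations for one cyclic group

Definitions in `Pool/Agent/H95/KM/ThetaDefs.lean`, `Pool/Agent/H95/KM/FouDefs.lean`,
`Pool/Agent/H95/KM/SqDefs.lean`.

`oneChi fL χ = |C|⁻¹ ∑_c χ(c)⁻¹ c ∈ L[C]`, `vL k = ∑_χ t^(k χ) oneChi χ ∈ L[C][t, t⁻¹]`.

* `fou fL C (oneChi fL χ) = Pi.single χ 1` (`fou_eChi`), and `fou fL C` is bijective
  (`fou_injective`, `exists_fou`; `|C| ≠ 0` in `L`).  So the `oneChi χ` are orthogonal idempotents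
  with sum `1`; `vL k * vL k' = vL (k + k')`, `vL 0 = 1`,
  `der (vL k) = ∑_χ single (k χ) (k χ • oneChi χ)`, hence
  `der (vL (-k)) * vL k = cst (- ∑_χ k χ • oneChi χ)`.  `cmp χ (lau fou (vL k)) = single (k χ) 1`.
* `loc_rep` (a general fact about squares): if `(x, y, H)` represents `g` in `Q` and `v ∈ GL_m(𝓜)`
  with `π(v) = g` then `v⁻¹ x = φ(xB)`, `y v = φ(yB)` for matrices `xB`, `yB` over `Γ`, and
  `xB yB = 1`, `yB xB = H`: `π(v⁻¹ x) = g⁻¹ g r(u) = r(u)`, `π(y v) = r(v') g⁻¹ g = r(v')`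
  (`exists_map_of_pi`), and `φ` is injective.
* `det_one`.  Let `(x, y, H)` represent `uN n` in `(sqC id N C).lauSq`.
  Rational part: `F = lau (fou fL C) : L[C][t,t⁻¹] → ((C →* Oˣ) → L)[t,t⁻¹]` is bijective; let
  `xA`, `yA` be the matrices with `F(xA) = image of x`, `F(yA) = image of y` under
  `((C →* Oˣ) → O)[t,t⁻¹] → ((C →* Oˣ) → L)[t,t⁻¹]`.  Then `xA yA = 1`.
  Local part: given `m`, `Om`, `f`, `j` as in `exists_loc`.  There is a morphism of squares
  `sqC id N C → sqC f N C` with `a = MonoidAlgebra.mapRingHom C f`, `b G = f ∘ G`, and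
  `c` induced by the map `O / N → Om / N` (`Ideal.quotientMap`); take Laurent polynomials
  (`lau` of the components) and the image of `(x, y, H)` (`IsRep.map` in
  `Pool/Agent/H95/KM/SqProp.lean`, add this import if you use it, or prove it directly): it
  represents `mapU (lau c) (uN n)`.  Its component at `χ` is
  `∑_{m'} single (n χ m') (c (kappa m')) = single (n χ m) 1` by the last property of `Om`.
  So it is `π(v)` for the `1 × 1` unit `v` over `((C →* Oˣ) → Om)[t,t⁻¹]` with components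
  `single (n χ m) 1`.  `loc_rep` gives `xB`, `yB`.  Finally
  `xB.map (lau (mapRingHom C j)) = vL (-n · m) • xA` because after applying the injective `F` both
  sides are the image of `v⁻¹ x` over `((C →* Oˣ) → L)[t,t⁻¹]` (`fou_mapRing`, `j ∘ f = fL`);
  similarly for `yB`.
-/

set_option autoImplicit false

open Matrix
open scoped LaurentPolynomial

universe u v w

namespace Pool.Agent.H95.KM

open Pool.Agent.H71.FJ

/-- The idempotent `1_χ = |C|⁻¹ ∑_c χ(c)⁻¹ c` of `L[C]`. -/
noncomputable def oneChi {O : Type} [CommRing O] {L : Type} [Field L] (fL : O →+* L)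
    {C : Type v} [Group C] [Fintype C] (χ : C →* Oˣ) : MonoidAlgebra L C :=
  ∑ c : C, MonoidAlgebra.single c ((Fintype.card C : L)⁻¹ * fL (((χ c)⁻¹ : Oˣ) : O))

/-- The unit `∑_χ t^(k χ) 1_χ` of `L[C][t, t⁻¹]`. -/
noncomputable def vL {O : Type} [CommRing O] {L : Type} [Field L] (fL : O →+* L)
    {C : Type v} [Group C] [Fintype C] [Fintype (C →* Oˣ)] (k : (C →* Oˣ) → ℤ) :
    (MonoidAlgebra L C)[T;T⁻¹] :=
  ∑ χ, AddMonoidAlgebra.single (k χ) (oneChi fL χ)

section DetOneAux

variable {X : Type v} [Fintype X] [DecidableEq X]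

/-- The Laurent polynomial with components `t^(k χ)`. -/
noncomputable def detOneW (R : Type*) [CommRing R] (k : X → ℤ) : (X → R)[T;T⁻¹] :=
  ∑ χ, AddMonoidAlgebra.single (k χ) (Pi.single χ 1)

theorem detOne_cmp_W {R : Type*} [CommRing R] (k : X → ℤ) (χ : X) :
    cmp χ (detOneW R k) = AddMonoidAlgebra.single (k χ) 1 := by
  unfold detOneW
  rw [map_sum, Finset.sum_eq_single χ]
  · rw [cmp, lau_single, Pi.evalRingHom_apply, Pi.single_eq_same]
  · intro ψ _ hψ
    rw [cmp, lau_single, Pi.evalRingHom_apply, Pi.single_eq_of_ne (Ne.symm hψ),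
      AddMonoidAlgebra.single_zero]
  · intro h
    exact absurd (Finset.mem_univ _) h

theorem detOne_W_mul {R : Type*} [CommRing R] (k k' : X → ℤ) :
    detOneW R k * detOneW R k' = detOneW R (k + k') := by
  apply cmp_ext
  intro χ
  rw [map_mul, detOne_cmp_W, detOne_cmp_W, detOne_cmp_W, AddMonoidAlgebra.single_mul_single, one_mul]
  rfl

theorem detOne_W_zero {R : Type*} [CommRing R] : detOneW R (0 : X → ℤ) = 1 := by
  apply cmp_ext
  intro χ
  rw [detOne_cmp_W, map_one]
  rfl

omit [Fintype X] [DecidableEq X] in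
theorem detOne_cmp_lau {R : Type*} [CommRing R] {R' : Type*} [CommRing R'] (f : R →+* R') (χ : X)
    (z : (X → R)[T;T⁻¹]) : cmp χ (lau (f.compLeft X) z) = lau f (cmp χ z) := by
  apply ext_coeff
  intro k
  rw [cmp_coeff, lau_coeff, lau_coeff, cmp_coeff]
  rfl

theorem detOne_lau_W {R : Type*} [CommRing R] {R' : Type*} [CommRing R'] (f : R →+* R') (k : X → ℤ) :
    lau (f.compLeft X) (detOneW R k) = detOneW R' k := by
  apply cmp_ext
  intro χ
  rw [detOne_cmp_lau, detOne_cmp_W, detOne_cmp_W, lau_single, map_one]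

end DetOneAux

section

variable {O : Type} [CommRing O] [IsDomain O] [CharZero O] {N : ℕ} [NeZero N]
  [HasEnoughRootsOfUnity O N] [Finite (Amod O N)] {L : Type} [Field L] [CharZero L]
  (fL : O →+* L) {C : Type v} [Group C] [Fintype C] [Fintype (C →* Oˣ)]
  (hC : ∀ a b : C, a * b = b * a) (hN : Nat.card C ∣ N)

omit [CharZero O] [Fintype (C →* Oˣ)] in
theorem detOne_fou_oneChi [DecidableEq (C →* Oˣ)] (χ : C →* Oˣ) :
    fou fL C (oneChi fL χ) = Pi.single χ 1 := by
  have h1 : oneChi fL χ = MonoidAlgebra.single 1 ((Fintype.card C : L)⁻¹) * eChi fL χ := by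
    unfold oneChi eChi
    rw [Finset.mul_sum]
    apply Finset.sum_congr rfl
    intro c _
    rw [MonoidAlgebra.single_mul_single, one_mul]
  have hcard : (Fintype.card C : L) ≠ 0 := by
    exact_mod_cast Fintype.card_ne_zero
  rw [h1, map_mul, fou_eChi]
  funext ψ
  rw [Pi.mul_apply, fou_single, map_one, Units.val_one, map_one, mul_one]
  by_cases h : ψ = χ
  · subst h
    rw [Pi.single_eq_same, Pi.single_eq_same, inv_mul_cancel₀ hcard]
  · rw [Pi.single_eq_of_ne h, Pi.single_eq_of_ne h, mul_zero]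

omit [CharZero O] in
theorem detOne_fou_vL [DecidableEq (C →* Oˣ)] (k : (C →* Oˣ) → ℤ) :
    lau (fou fL C) (vL fL k) = detOneW L k := by
  unfold vL detOneW
  rw [map_sum]
  apply Finset.sum_congr rfl
  intro χ _
  rw [lau_single, detOne_fou_oneChi]

include hC hN

omit [CharZero O] [Fintype (C →* Oˣ)] [Finite (Amod O N)] in
theorem detOne_inj : Function.Injective (fou fL C) := by
  apply fou_injective fL N hC hN
  intro r hr
  rcases mul_eq_zero.1 hr with h | h
  · exact absurd h (by exact_mod_cast Nat.card_pos.ne')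
  · exact h

omit [CharZero O] [Finite (Amod O N)] in
theorem vL_mul (k k' : (C →* Oˣ) → ℤ) : vL fL k * vL fL k' = vL fL (k + k') := by
  classical
  apply lau_injective (detOne_inj fL hC hN)
  rw [map_mul, detOne_fou_vL, detOne_fou_vL, detOne_fou_vL, detOne_W_mul]

omit [CharZero O] [Finite (Amod O N)] in
theorem vL_zero : vL fL (0 : (C →* Oˣ) → ℤ) = 1 := by
  classical
  apply lau_injective (detOne_inj fL hC hN)
  rw [map_one, detOne_fou_vL, detOne_W_zero]

omit [CharZero O] [Finite (Amod O N)] in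
theorem der_vL (k : (C →* Oˣ) → ℤ) :
    der _ (vL fL (-k)) * vL fL k = cst _ (- ∑ χ, k χ • oneChi fL χ) := by
  classical
  apply lau_injective (detOne_inj fL hC hN)
  rw [map_mul, lau_der, detOne_fou_vL, detOne_fou_vL]
  apply cmp_ext
  intro χ
  rw [map_mul, cmp, lau_der]
  have e1 : lau (Pi.evalRingHom (fun _ : (C →* Oˣ) => L) χ) (detOneW L (-k)) =
      AddMonoidAlgebra.single ((-k) χ) 1 := detOne_cmp_W (-k) χ
  have e2 : lau (Pi.evalRingHom (fun _ : (C →* Oˣ) => L) χ) (detOneW L k) =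
      AddMonoidAlgebra.single (k χ) 1 := detOne_cmp_W k χ
  rw [e1, e2, der_single, AddMonoidAlgebra.single_mul_single, mul_one, cst_apply, lau_single,
    lau_single, map_neg, map_sum, Pi.evalRingHom_apply, Pi.neg_apply, Pi.neg_apply, Finset.sum_apply]
  have e3 : ∑ ψ, (fou fL C) (k ψ • oneChi fL ψ) χ = k χ • (1 : L) := by
    rw [Finset.sum_eq_single χ]
    · rw [map_zsmul, detOne_fou_oneChi, Pi.smul_apply, Pi.single_eq_same]
    · intro ψ _ hψ
      rw [map_zsmul, detOne_fou_oneChi, Pi.smul_apply, Pi.single_eq_of_ne (Ne.symm hψ), smul_zero]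
    · intro h
      exact absurd (Finset.mem_univ _) h
  rw [e3, neg_add_cancel, neg_smul]

end

namespace Sq

variable {Γ : Type u} {𝓜 : Type v} {B : Type w} [Ring Γ] [Ring 𝓜] [Ring B] {Q : Sq Γ 𝓜 B}

theorem loc_rep {m n : Type} [Fintype m] [DecidableEq m] [Fintype n] [DecidableEq n]
    {g : (Matrix m m B)ˣ} {x : Matrix m n 𝓜} {y : Matrix n m 𝓜} {H : Matrix n n Γ}
    (h : Q.IsRep g x y H) (v v' : Matrix m m 𝓜) (hvv' : v * v' = 1) (hv'v : v' * v = 1)
    (hv : v.map Q.π = (g : Matrix m m B)) :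
    ∃ (xB : Matrix m n Γ) (yB : Matrix n m Γ), xB.map Q.φ = v' * x ∧ yB.map Q.φ = y * v ∧
      xB * yB = 1 ∧ yB * xB = H := by
  obtain ⟨h1, h2, ⟨u, hu⟩, ⟨w, hw⟩⟩ := h
  have e1 : v'.map Q.π * (g : Matrix m m B) = 1 := by
    rw [← hv, ← Matrix.map_mul, hv'v, Matrix.map_one _ (map_zero Q.π) (map_one Q.π)]
  obtain ⟨xB, hxB⟩ := exists_map_of_pi (Q := Q) (v' * x) ⟨u, by
    rw [Matrix.map_mul, hu, ← Matrix.mul_assoc, e1, Matrix.one_mul]⟩
  obtain ⟨yB, hyB⟩ := exists_map_of_pi (Q := Q) (y * v) ⟨w, by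
    rw [Matrix.map_mul, hw, hv, Matrix.mul_assoc, Units.inv_mul, Matrix.mul_one]⟩
  refine ⟨xB, yB, hxB, hyB, ?_, ?_⟩
  · apply matrix_map_injective Q.inj
    rw [Matrix.map_mul, hxB, hyB, Matrix.mul_assoc, ← Matrix.mul_assoc x, h1, Matrix.one_mul, hv'v,
      Matrix.map_one _ (map_zero Q.φ) (map_one Q.φ)]
  · apply matrix_map_injective Q.inj
    rw [Matrix.map_mul, hxB, hyB, Matrix.mul_assoc, ← Matrix.mul_assoc v, hvv', Matrix.one_mul, h2]

end Sq

theorem detOne_fou_comp {O : Type} [CommRing O] {R : Type} [CommRing R] {R' : Type} [CommRing R']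
    (f : O →+* R) (g : R →+* R') (h : O →+* R') (hgf : g.comp f = h) (C : Type v) [Group C] :
    (fou h C).comp (MonoidAlgebra.mapRingHom C g) = (g.compLeft (C →* Oˣ)).comp (fou f C) := by
  subst hgf
  apply RingHom.ext
  intro x
  funext χ
  exact fou_mapRing f g x χ

theorem detOne_N_le {O : Type} [CommRing O] (N : ℕ) {R : Type} [CommRing R] (f : O →+* R) :
    Ideal.span {(N : O)} ≤ (Ideal.span {(N : R)}).comap f := by
  rw [Ideal.span_singleton_le_iff_mem, Ideal.mem_comap, map_natCast]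
  exact Ideal.mem_span_singleton_self _

/-- The morphism of squares given by a map of coefficient rings. -/
noncomputable def detOneHom {O : Type} [CommRing O] [IsDomain O] [CharZero O] (N : ℕ) [NeZero N]
    [HasEnoughRootsOfUnity O N] {Om : Type} [CommRing Om] [IsDomain Om] [CharZero Om] (f : O →+* Om)
    (C : Type v) [Group C] [Finite C] (hC : ∀ a b : C, a * b = b * a) (hN : Nat.card C ∣ N) :
    SqHom (sqC (RingHom.id O) N C hC hN).lauSq (sqC f N C hC hN).lauSq where
  a := lau (MonoidAlgebra.mapRingHom C f)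
  b := lau (f.compLeft (C →* Oˣ))
  c := lau ((Ideal.quotientMap (Ideal.span {(N : Om)}) f (detOne_N_le N f)).compLeft (C →* Oˣ))
  hφ := by
    intro x
    change lau (f.compLeft (C →* Oˣ)) (lau (fou (RingHom.id O) C) x) =
      lau (fou f C) (lau (MonoidAlgebra.mapRingHom C f) x)
    rw [← RingHom.comp_apply, ← lau_comp, ← RingHom.comp_apply, ← lau_comp,
      detOne_fou_comp (RingHom.id O) f f (RingHom.comp_id f) C]
  hπ := by
    intro x
    change lau ((Ideal.quotientMap (Ideal.span {(N : Om)}) f (detOne_N_le N f)).compLeft (C →* Oˣ))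
      (lau (sqC (RingHom.id O) N C hC hN).π x) = lau (sqC f N C hC hN).π (lau (f.compLeft (C →* Oˣ)) x)
    rw [← RingHom.comp_apply, ← lau_comp, ← RingHom.comp_apply, ← lau_comp]
    congr 2

open Classical in
theorem det_one {O : Type} [CommRing O] [IsDomain O] [CharZero O] (N : ℕ) [NeZero N]
    [HasEnoughRootsOfUnity O N] [Finite (Amod O N)] {L : Type} [Field L] [CharZero L]
    (fL : O →+* L) (hfL : Function.Injective fL)
    (C : Type v) [Group C] [Fintype C] [Fintype (C →* Oˣ)] (hC : ∀ a b : C, a * b = b * a)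
    (hN : Nat.card C ∣ N) (n : (C →* Oˣ) → Pr O N → ℤ) {ν : Type} [Fintype ν] [DecidableEq ν]
    {x : Matrix Unit ν ((C →* Oˣ) → O)[T;T⁻¹]} {y : Matrix ν Unit ((C →* Oˣ) → O)[T;T⁻¹]}
    {H : Matrix ν ν (MonoidAlgebra O C)[T;T⁻¹]}
    (h : (sqC (RingHom.id O) N C hC hN).lauSq.IsRep (uN n) x y H) :
    ∃ (xA : Matrix Unit ν (MonoidAlgebra L C)[T;T⁻¹])
      (yA : Matrix ν Unit (MonoidAlgebra L C)[T;T⁻¹]), xA * yA = 1 ∧
      ∀ (m : Pr O N) (Om : Type) [CommRing Om] [IsDomain Om] [CharZero Om] (f : O →+* Om)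
        (j : Om →+* L), j.comp f = fL → Function.Injective j →
        (∀ (m' : Pr O N) (r : O), Ideal.Quotient.mk (Ideal.span {(N : O)}) r = kappa O N m' →
          Ideal.Quotient.mk (Ideal.span {(N : Om)}) (f r) = if m' = m then 1 else 0) →
        ∃ (xB : Matrix Unit ν (MonoidAlgebra Om C)[T;T⁻¹])
          (yB : Matrix ν Unit (MonoidAlgebra Om C)[T;T⁻¹]), xB * yB = 1 ∧
          yB * xB = H.map (lau (MonoidAlgebra.mapRingHom C f)) ∧
          (∀ i k, (xB.map (lau (MonoidAlgebra.mapRingHom C j))) i k =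
            vL fL (fun χ => - n χ m) * xA i k) ∧
          (∀ k i, (yB.map (lau (MonoidAlgebra.mapRingHom C j))) k i =
            yA k i * vL fL (fun χ => n χ m)) := by
  have hinj : Function.Injective (lau (fou fL C)) := lau_injective (detOne_inj fL hC hN)
  have hsurj : Function.Surjective (lau (fou fL C)) := by
    apply lau_surjective
    intro F
    obtain ⟨z, hz⟩ := exists_fou fL (C := C) (fun χ => (Nat.card C : L)⁻¹ * F χ)
    refine ⟨z, ?_⟩
    rw [hz]
    funext χ
    have hcard : (Nat.card C : L) ≠ 0 := by exact_mod_cast Nat.card_pos.ne'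
    rw [mul_inv_cancel_left₀ hcard]
  obtain ⟨xA, hxA⟩ := exists_matrix_lift (lau (fou fL C)) (x.map (lau (fL.compLeft (C →* Oˣ))))
    (fun i j => hsurj _)
  obtain ⟨yA, hyA⟩ := exists_matrix_lift (lau (fou fL C)) (y.map (lau (fL.compLeft (C →* Oˣ))))
    (fun i j => hsurj _)
  refine ⟨xA, yA, ?_, ?_⟩
  · apply matrix_map_injective hinj
    rw [Matrix.map_mul, hxA, hyA, ← Matrix.map_mul, h.1,
      Matrix.map_one _ (map_zero _) (map_one _), Matrix.map_one _ (map_zero _) (map_one _)]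
  intro m Om _ _ _ f j hjf hj hκ
  have h' := Sq.IsRep.map (detOneHom N f C hC hN) h
  set k : (C →* Oˣ) → ℤ := fun χ => n χ m with hk
  have hk0 : k + -k = 0 := add_neg_cancel k
  have hk1 : -k + k = 0 := neg_add_cancel k
  have hvv' : (Matrix.of fun _ _ : Unit => detOneW Om k) * (Matrix.of fun _ _ : Unit => detOneW Om (-k)) = 1 := by
    ext i l : 1
    simp [Matrix.mul_apply, detOne_W_mul, detOne_W_zero, Matrix.one_apply, Subsingleton.elim i l]
  have hv'v : (Matrix.of fun _ _ : Unit => detOneW Om (-k)) * (Matrix.of fun _ _ : Unit => detOneW Om k) = 1 := by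
    ext i l : 1
    simp [Matrix.mul_apply, detOne_W_mul, detOne_W_zero, Matrix.one_apply, Subsingleton.elim i l]
  have hv : (Matrix.of fun _ _ : Unit => detOneW Om k).map (sqC f N C hC hN).lauSq.π =
      ((mapU (detOneHom N f C hC hN).c (uN n) : (Matrix Unit Unit _)ˣ) : Matrix Unit Unit _) := by
    ext i l : 1
    change lau (sqC f N C hC hN).π (detOneW Om k) =
      lau ((Ideal.quotientMap (Ideal.span {(N : Om)}) f (detOne_N_le N f)).compLeft (C →* Oˣ)) (un n)
    apply cmp_ext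
    intro χ
    rw [detOne_cmp_lau, cmp_un]
    have e1 : cmp χ (lau (sqC f N C hC hN).π (detOneW Om k)) =
        lau (Ideal.Quotient.mk (Ideal.span {(N : Om)})) (cmp χ (detOneW Om k)) := by
      apply ext_coeff
      intro l
      rw [cmp_coeff, lau_coeff, lau_coeff, cmp_coeff]
      rfl
    rw [e1, detOne_cmp_W, lau_single, map_one]
    unfold unComp
    rw [map_sum, Finset.sum_eq_single m]
    · rw [lau_single]
      obtain ⟨r, hr⟩ := Ideal.Quotient.mk_surjective (kappa O N m)
      rw [← hr, Ideal.quotientMap_mk, hκ m r hr, if_pos rfl]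
    · intro m' _ hm'
      rw [lau_single]
      obtain ⟨r, hr⟩ := Ideal.Quotient.mk_surjective (kappa O N m')
      rw [← hr, Ideal.quotientMap_mk, hκ m' r hr, if_neg hm', AddMonoidAlgebra.single_zero]
    · intro hm
      exact absurd (Finset.mem_univ _) hm
  obtain ⟨xB, yB, hxB, hyB, hxy, hyx⟩ := Sq.loc_rep h' _ _ hvv' hv'v hv
  have hcomp : ∀ z : (MonoidAlgebra Om C)[T;T⁻¹], lau (fou fL C) (lau (MonoidAlgebra.mapRingHom C j) z) =
      lau (j.compLeft (C →* Oˣ)) (lau (fou f C) z) := by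
    intro z
    rw [← RingHom.comp_apply, ← lau_comp, ← RingHom.comp_apply, ← lau_comp,
      detOne_fou_comp f j fL hjf C]
  have hfl : ∀ z : ((C →* Oˣ) → O)[T;T⁻¹], lau (j.compLeft (C →* Oˣ)) (lau (f.compLeft (C →* Oˣ)) z) =
      lau (fL.compLeft (C →* Oˣ)) z := by
    intro z
    rw [← RingHom.comp_apply, ← lau_comp]
    congr 2
    rw [← hjf]
    rfl
  refine ⟨xB, yB, hxy, hyx, ?_, ?_⟩
  · intro i l
    apply hinj
    rw [Matrix.map_apply, hcomp, map_mul, show (fun χ => - n χ m) = -k from rfl, detOne_fou_vL]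
    have e1 : lau (fou f C) (xB i l) = detOneW Om (-k) * lau (f.compLeft (C →* Oˣ)) (x i l) := by
      have t := congrFun (congrFun hxB i) l
      rw [Matrix.mul_apply, Finset.univ_unique, Finset.sum_singleton] at t
      exact t
    have e2 : lau (fou fL C) (xA i l) = lau (fL.compLeft (C →* Oˣ)) (x i l) :=
      congrFun (congrFun hxA i) l
    rw [e1, e2, map_mul, detOne_lau_W, hfl]
  · intro l i
    apply hinj
    rw [Matrix.map_apply, hcomp, map_mul, detOne_fou_vL]
    have e1 : lau (fou f C) (yB l i) = lau (f.compLeft (C →* Oˣ)) (y l i) * detOneW Om k := by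
      have t := congrFun (congrFun hyB l) i
      rw [Matrix.mul_apply, Finset.univ_unique, Finset.sum_singleton] at t
      exact t
    have e2 : lau (fou fL C) (yA l i) = lau (fL.compLeft (C →* Oˣ)) (y l i) :=
      congrFun (congrFun hyA l) i
    rw [e1, e2, map_mul, detOne_lau_W, hfl]

end Pool.Agent.H95.KM
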