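import Pool.Agent.H95.KM.Words
import Pool.Agent.H71.FJ.Cyc

/-!
# Project KM, module PropOne: `p`-adic vanishing of traces of idempotents

`clsFun f : MonoidAlgebra A G →+ A` is the functional `∑ a_g g ↦ ∑ a_g f(g)`
(`Pool/Agent/H71/FJ/Cyc.lean`, with `clsFun_single`, `clsFun_comm`).

PROOF of `trace_zero`.  By `hA` it suffices to show that `(p : A) ^ N` divides the left hand side for
every `N`; let `N = K + 1` (`N = 0` is trivial).  Work in the ring `Mat_n(A[G])`, `n = e.n`, with the
trace function `τ X = clsFun (cj A c) (trace X)` (`τ (X Y) = τ (Y X)`: `clsFun_comm` and the usual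
computation, see `K0.tr` in `Pool/Agent/H71/FJ/K0.lean`).
Let `S ⊂ G` be a finite set containing the supports of the entries of `e.mat`, and
`x g = E_g · g` for `g ∈ S`, i.e. `x g i j = MonoidAlgebra.single g ((e.mat i j).coeff g)`, so
`∑_{g ∈ S} x g = e.mat`.  For a word `ω : Fin (p ^ K) → S` the product of the `x (ω i)` is
`E_ω · h_ω` with `E_ω ∈ Mat_n(A)` (the product of the `E_{ω i}`) and `h_ω ∈ G` the product of the
`ω i`; its `q`-th power is `(E_ω)^q · h_ω^q`, with `τ`-value `tr((E_ω)^q)` if `h_ω ^ q ~ c` and `0`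
otherwise.
Choose `m ≥ K` such that, with `q = p ^ (m - K)`, no `h_ω ^ q` is conjugate to `c`: if `h ^ q ~ c`
with `q = p ^ M` then `orderOf (h ^ q) = orderOf c > 0` is divisible by `p`, so `h` has finite
order and `orderOf h = q * orderOf c` (`orderOf_pow' / orderOf h = gcd * ..`: if `p` divides
`orderOf h / gcd (orderOf h) (p ^ M)` then `gcd (orderOf h) (p ^ M) = p ^ M`), hence
`p ^ M ∣ orderOf h`, `p ^ M ≤ orderOf h`; so any `M` with `p ^ M > orderOf h_ω` for all the finitely
many `ω` works.
As `e.mat = e.mat ^ (p ^ m)` the lemma `words` gives `τ (e.mat) ∈ p ^ (K + 1) A`.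
-/

set_option autoImplicit false

open Matrix

universe u v

namespace Pool.Agent.H95.KM

open Pool.Agent.H71.FJ

open Classical in
/-- The indicator function of the conjugacy class of `c`. -/
noncomputable def cj (B : Type u) [CommRing B] {G : Type v} [Group G] (c h : G) : B :=
  if IsConj c h then 1 else 0

theorem cj_comm (B : Type u) [CommRing B] {G : Type v} [Group G] (c x y : G) :
    cj B c (x * y) = cj B c (y * x) := by
  have h : IsConj (x * y) (y * x) := isConj_iff.2 ⟨x⁻¹, by group⟩
  unfold cj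
  by_cases h1 : IsConj c (x * y)
  · rw [if_pos h1, if_pos (h1.trans h)]
  · rw [if_neg h1, if_neg (fun h2 => h1 (h2.trans h.symm))]

/-- The matrix `E · g` over the group ring. -/
private noncomputable def po_sg {A : Type u} [CommRing A] {G : Type v} [Group G] {n : ℕ} (g : G)
    (E : Matrix (Fin n) (Fin n) A) : Matrix (Fin n) (Fin n) (MonoidAlgebra A G) :=
  E.map (MonoidAlgebra.single g)

private theorem po_sg_mul {A : Type u} [CommRing A] {G : Type v} [Group G] {n : ℕ} (g h : G)
    (E F : Matrix (Fin n) (Fin n) A) : po_sg g E * po_sg h F = po_sg (g * h) (E * F) := by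
  refine Matrix.ext fun i j => ?_
  rw [Matrix.mul_apply]
  simp only [po_sg, Matrix.map_apply, MonoidAlgebra.single_mul_single]
  rw [Matrix.mul_apply]
  exact (map_sum (MonoidAlgebra.singleAddHom (g * h) : A →+ MonoidAlgebra A G)
    (fun k => E i k * F k j) Finset.univ).symm

private theorem po_sg_one {A : Type u} [CommRing A] {G : Type v} [Group G] {n : ℕ} :
    po_sg (1 : G) (1 : Matrix (Fin n) (Fin n) A) = 1 := by
  refine Matrix.ext fun i j => ?_
  by_cases hij : i = j
  · subst hij
    simp only [po_sg, Matrix.map_apply, Matrix.one_apply_eq]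
    rfl
  · simp only [po_sg, Matrix.map_apply, Matrix.one_apply_ne hij]
    exact MonoidAlgebra.single_zero _

private theorem po_list {A : Type u} [CommRing A] {G : Type v} [Group G] {n : ℕ} {S : Type*}
    (g : S → G) (E : S → Matrix (Fin n) (Fin n) A) (l : List S) :
    (l.map (fun s => po_sg (g s) (E s))).prod = po_sg (l.map g).prod (l.map E).prod := by
  induction l with
  | nil => simp only [List.map_nil, List.prod_nil]; exact po_sg_one.symm
  | cons a l ih =>
    simp only [List.map_cons, List.prod_cons]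
    rw [ih, po_sg_mul]

private theorem po_pow {A : Type u} [CommRing A] {G : Type v} [Group G] {n : ℕ} (g : G)
    (E : Matrix (Fin n) (Fin n) A) (q : ℕ) : po_sg g E ^ q = po_sg (g ^ q) (E ^ q) := by
  induction q with
  | zero => rw [pow_zero, pow_zero, pow_zero]; exact po_sg_one.symm
  | succ q ih => rw [pow_succ, ih, po_sg_mul, ← pow_succ, ← pow_succ]

private theorem po_trace {A : Type u} [CommRing A] {G : Type v} [Group G] {n : ℕ} (c g : G)
    (E : Matrix (Fin n) (Fin n) A) (h : ¬ IsConj c g) :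
    clsFun (cj A c) (trace (po_sg g E)) = 0 := by
  have h1 : trace (po_sg g E) = MonoidAlgebra.single g (trace E) := by
    simp only [trace, diag, po_sg, Matrix.map_apply]
    exact (map_sum (MonoidAlgebra.singleAddHom g : A →+ MonoidAlgebra A G)
      (fun k => E k k) Finset.univ).symm
  rw [h1, clsFun_single, cj, if_neg h, mul_zero]

/-- If `h ^ (p ^ M)` is conjugate to a `p`-singular element `c` of finite order then
`p ^ M ≤ orderOf h`. -/
private theorem po_order {G : Type v} [Group G] (p : ℕ) [hp : Fact p.Prime] (c h : G)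
    (hc : 0 < orderOf c) (hpc : p ∣ orderOf c) (M : ℕ) (hh : IsConj c (h ^ (p ^ M))) :
    p ^ M ≤ orderOf h := by
  have hd : orderOf (h ^ (p ^ M)) = orderOf c := by
    obtain ⟨g, hg⟩ := isConj_iff.1 hh
    rw [← hg]
    exact (orderOf_injective (MulAut.conj g).toMonoidHom (MulAut.conj g).injective c).symm ▸ rfl
  have hpM : p ^ M ≠ 0 := pow_ne_zero _ hp.out.ne_zero
  have h1 : orderOf h / Nat.gcd (orderOf h) (p ^ M) = orderOf c := by
    rw [← orderOf_pow' h hpM, hd]
  have ha : 0 < orderOf h := by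
    rcases Nat.eq_zero_or_pos (orderOf h) with h0 | h0
    · rw [h0] at h1
      simp at h1
      omega
    · exact h0
  have hga : Nat.gcd (orderOf h) (p ^ M) ∣ orderOf h := Nat.gcd_dvd_left _ _
  have hgp : Nat.gcd (orderOf h) (p ^ M) ∣ p ^ M := Nat.gcd_dvd_right _ _
  obtain ⟨j, hj, hgj⟩ := (Nat.dvd_prime_pow hp.out).1 hgp
  have hjM : j = M := by
    by_contra hne
    have hlt : j < M := lt_of_le_of_ne hj hne
    have h2 : p ^ (j + 1) ∣ orderOf h := by
      obtain ⟨k, hk⟩ := hpc
      rw [hk, hgj] at h1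
      rw [hgj] at hga
      have h3 := Nat.div_mul_cancel hga
      rw [h1] at h3
      exact ⟨k, by rw [← h3, pow_succ]; ring⟩
    have h3 : p ^ (j + 1) ∣ p ^ M := pow_dvd_pow p hlt
    have h4 : p ^ (j + 1) ∣ p ^ j := by
      rw [← hgj]
      exact Nat.dvd_gcd h2 h3
    have h5 := Nat.le_of_dvd (pow_pos hp.out.pos _) h4
    have h6 : p ^ j < p ^ (j + 1) := Nat.pow_lt_pow_right hp.out.one_lt (Nat.lt_succ_self j)
    omega
  rw [hjM] at hgj
  rw [hgj] at hga
  exact Nat.le_of_dvd ha hga

theorem trace_zero {A : Type u} [CommRing A] {G : Type v} [Group G] (p : ℕ) [Fact p.Prime]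
    (hA : ∀ a : A, (∀ N : ℕ, (p : A) ^ N ∣ a) → a = 0) (c : G) (hc : 0 < orderOf c)
    (hpc : p ∣ orderOf c) (e : IdemMat (MonoidAlgebra A G)) :
    clsFun (cj A c) (trace e.mat) = 0 := by
  classical
  apply hA
  intro N
  rcases N with _ | K
  · rw [pow_zero]
    exact one_dvd _
  set τ : Matrix (Fin e.n) (Fin e.n) (MonoidAlgebra A G) →+ A :=
    (clsFun (cj A c)).comp (traceAddMonoidHom (Fin e.n) (MonoidAlgebra A G)) with hτdef
  have hτapp : ∀ X, τ X = clsFun (cj A c) (trace X) := fun _ => rfl
  have hτ : ∀ a b, τ (a * b) = τ (b * a) := by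
    intro a b
    rw [hτapp, hτapp]
    simp only [trace, diag, mul_apply, map_sum]
    rw [Finset.sum_comm]
    refine Finset.sum_congr rfl fun i _ => Finset.sum_congr rfl fun j _ => ?_
    exact clsFun_comm _ (cj_comm A c) _ _
  set S : Finset G := Finset.univ.biUnion (fun i : Fin e.n => Finset.univ.biUnion
    (fun j : Fin e.n => (e.mat i j).coeff.support)) with hS
  set E : S → Matrix (Fin e.n) (Fin e.n) A :=
    fun s => Matrix.of fun i j => (e.mat i j).coeff s.1 with hE
  set x : S → Matrix (Fin e.n) (Fin e.n) (MonoidAlgebra A G) := fun s => po_sg s.1 (E s) with hx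
  have hsum : ∑ s, x s = e.mat := by
    refine Matrix.ext fun i j => ?_
    rw [Matrix.sum_apply]
    have h1 : ∀ s : S, x s i j = MonoidAlgebra.single s.1 ((e.mat i j).coeff s.1) := fun s => rfl
    simp only [h1]
    rw [Finset.sum_coe_sort S (fun g => MonoidAlgebra.single g ((e.mat i j).coeff g))]
    have hsub : (e.mat i j).coeff.support ⊆ S := by
      intro g hg
      rw [hS, Finset.mem_biUnion]
      exact ⟨i, Finset.mem_univ _, Finset.mem_biUnion.2 ⟨j, Finset.mem_univ _, hg⟩⟩
    ext g
    simp only [MonoidAlgebra.coeff_sum, MonoidAlgebra.coeff_single, Finsupp.finsetSum_apply,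
      Finsupp.single_apply]
    rw [Finset.sum_ite_eq' S g]
    split_ifs with hg
    · rfl
    · have : g ∉ (e.mat i j).coeff.support := fun hh => hg (hsub hh)
      exact (Finsupp.notMem_support_iff.1 this).symm
  have hidem : ∀ q : ℕ, 0 < q → e.mat ^ q = e.mat := by
    intro q hq
    obtain ⟨r, rfl⟩ : ∃ r, q = r + 1 := ⟨q - 1, by omega⟩
    clear hq
    induction r with
    | zero => rw [zero_add, pow_one]
    | succ r ih => rw [pow_succ, ih, e.idem]
  set hh : (Fin (p ^ K) → S) → G := fun ω => ((List.ofFn ω).map (fun s => s.1)).prod with hhh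
  set M : ℕ := ∑ ω : Fin (p ^ K) → S, orderOf (hh ω) with hM
  have hpp : p.Prime := Fact.out
  obtain ⟨y, hy⟩ := words τ hτ p x K (K + M) (Nat.le_add_right _ _)
  rw [hsum, hidem _ (pow_pos hpp.pos _), Nat.add_sub_cancel_left] at hy
  have hz : ∑ ω : Fin (p ^ K) → S, τ ((List.ofFn (fun i => x (ω i))).prod ^ (p ^ M)) = 0 := by
    refine Finset.sum_eq_zero fun ω _ => ?_
    have h1 : List.ofFn (fun i => x (ω i)) = (List.ofFn ω).map x := by
      rw [List.map_ofFn]
      rfl
    rw [h1, hx, po_list (fun s : S => s.1) E, po_pow, hτapp]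
    apply po_trace
    intro hcon
    have h2 := po_order p c (hh ω) hc hpc M hcon
    have h3 : orderOf (hh ω) ≤ M := Finset.single_le_sum (f := fun ω => orderOf (hh ω))
      (fun _ _ => Nat.zero_le _) (Finset.mem_univ ω)
    have h4 : M < p ^ M := Nat.lt_pow_self hpp.one_lt
    omega
  rw [hz, zero_add] at hy
  refine ⟨y, ?_⟩
  rw [← hτapp, hy, nsmul_eq_mul, Nat.cast_pow]

end Pool.Agent.H95.KM
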