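import Pool.Agent.H95.KM.Detect
import Pool.Agent.H95.KM.DetOne
import Pool.Agent.H95.KM.Loc
import Pool.Agent.H95.KM.PropOne

/-!
# Project KM, module DetTwo: the relations forced by vanishing in `K₋₁(O[G])`

PROOF of `det_two`.  For `c = 1` there is nothing to prove (`p ∣ orderOf 1 = 1`, `p` prime), so fix
`c ≠ 1` (`s c` is chosen for each `c` separately, `choose`/`Classical`).  Let
`A = MonoidAlgebra L G`, `τ = clsFun (cj L c) : A →+ L`, a trace function (`clsFun_comm`, `cj_comm`)
with `τ 1 = 0`.
* For each `i` let `(x i, y i, H i)` represent `uN (n i)` in `(sqC id N (C i)).lauSq`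
  (`Sq.exists_isRep_repH` : index `ν = Unit ⊕ Unit`), so
  `Θ(n i) = Km1.mk (K0.cls (H i)) - Km1.mk [1] = Km1.mk (K0.cls (H i))` (`Sq.DD_eq`, `Sq.dl_eq`,
  `[1]` is a constant: `mk_cls_pos` or `mk_cst`).
* Let `ψ i : O[C i] → O[G]` be the inclusion (`MonoidAlgebra.mapDomainRingHom O (C i).subtype`) and
  `H = blockDiagonal (fun i => (H i).map (lau (ψ i)))` (index `ν × ι`), idempotent, with
  `Km1.mk (K0.cls H) = ∑ i, ind O (C i).subtype (Θ(n i)) = 0` (`K0_blockDiagonal` below).
* `detect` (with `R = O[G]`, `f = MonoidAlgebra.mapRingHom G fL`) gives `s₀ ∈ L` such that for all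
  `Q, g, j, x, y`: `T0 τ ((∂x * y).map (lau j)) + s₀ = - τ (j (trace q))` for some idempotent `q`
  over `Q`.
* `det_one` for each `i` gives `xA i, yA i` over `L[C i][t,t⁻¹]`.  Push them to `L[G][t,t⁻¹]` and let
  `XA = blockDiagonal`, `YA = blockDiagonal`; `XA * YA = 1`.
* Let `m, p, c` be as in the statement, `Om, f, j` from `exists_loc`.  `det_one` gives `xB i, yB i`;
  push to `Om[G]` and take block diagonals: `XB * YB = 1`, `YB * XB = H.map (lau ..)`.  Apply the
  above with `Q = Om[G]`, `g = mapRingHom G f`, `j = mapRingHom G j`: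
  `T0 τ ((∂XB * YB).map (lau ..)) = - s₀ - τ (j (trace q)) = - s₀`, because
  `τ (mapRingHom G j a) = j (clsFun (cj Om c) a)` and `clsFun (cj Om c) (trace q) = 0` by
  `trace_zero` (the third property of `Om`; `p ∣ orderOf c`).
* The image of `XB` over `L[G][t,t⁻¹]` is `V' * XA`, that of `YB` is `YA * V`, where `V`, `V'` are the
  block diagonal matrices of the images of `vL (n i · m)`, `vL (- n i · m)`, `V V' = V' V = 1`
  (`vL_mul`, `vL_zero`).  By `T0_change`, `map_lau_der`:
  `T0 τ (∂(V' XA) * (YA V)) = T0 τ (∂V' * V) + T0 τ (∂XA * YA)` and, by `der_vL`,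
  `T0 τ (∂V' * V) = - ∑ i, ∑ χ, n i χ m • τ (image of oneChi χ)
   = - ∑ i, ∑ χ, n i χ m * (|C i|⁻¹ ∑_{d ∈ C i, c ~ d} fL (χ d)⁻¹)`.
* So the left hand side of the claim is `T0 τ (∂XA * YA) + s₀ =: s c`, independent of `m`.
-/

set_option autoImplicit false

open Matrix
open scoped LaurentPolynomial

universe u v w

namespace Pool.Agent.H95.KM

open Pool.Agent.H71.FJ

theorem blockDiagonal_idem {R : Type u} [Ring R] {ν ι : Type} [Fintype ν] [DecidableEq ν]
    [Fintype ι] [DecidableEq ι] (H : ι → Matrix ν ν R) (hH : ∀ i, H i * H i = H i) :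
    blockDiagonal H * blockDiagonal H = blockDiagonal H := by
  rw [← blockDiagonal_mul]
  simp only [hH]

private theorem detTwo_cls_empty {R : Type u} [Ring R] {κ : Type} [Fintype κ] [DecidableEq κ]
    [IsEmpty κ] (e : Matrix κ κ R) (he : e * e = e) : K0.cls e he = 0 := by
  have h := K0.cls_fromBlocks he he
  have h2 : K0.cls (fromBlocks e 0 0 e) (K0.fromBlocks_idem he he) = K0.cls e he := by
    apply K0.cls_congr
    exact ⟨0, 0, Matrix.ext fun i => i.elim (fun a => isEmptyElim a) (fun a => isEmptyElim a),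
      Matrix.ext fun i => isEmptyElim i⟩
  rw [h2] at h
  simpa using h

/-- Splitting off the first block. -/
private def detTwo_sig (ν : Type) (n : ℕ) : ν ⊕ (ν × Fin n) ≃ ν × Fin (n + 1) where
  toFun := Sum.elim (fun v => (v, 0)) (fun p => (p.1, p.2.succ))
  invFun p := Fin.cases (Sum.inl p.1) (fun j => Sum.inr (p.1, j)) p.2
  left_inv := by
    rintro (v | ⟨v, j⟩)
    · rfl
    · rfl
  right_inv := by
    rintro ⟨v, j⟩
    refine Fin.cases ?_ (fun j => ?_) j
    · rfl
    · rfl

private theorem detTwo_block {R : Type u} [Ring R] {ν : Type} [Fintype ν] [DecidableEq ν] :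
    ∀ (n : ℕ) (H : Fin n → Matrix ν ν R) (hH : ∀ i, H i * H i = H i),
      K0.cls (blockDiagonal H) (blockDiagonal_idem H hH) = ∑ i, K0.cls (H i) (hH i)
  | 0, H, hH => by
    rw [detTwo_cls_empty]
    rfl
  | n + 1, H, hH => by
    rw [Fin.sum_univ_succ, ← detTwo_block n (fun j => H j.succ) (fun j => hH j.succ),
      ← K0.cls_fromBlocks]
    symm
    have h : (blockDiagonal H).submatrix (detTwo_sig ν n) (detTwo_sig ν n) =
        fromBlocks (H 0) 0 0 (blockDiagonal fun j : Fin n => H j.succ) := by
      ext i j : 1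
      rcases i with i | ⟨i, a⟩ <;> rcases j with j | ⟨j, b⟩
      · simp [detTwo_sig, blockDiagonal_apply]
      · simp [detTwo_sig, blockDiagonal_apply, (Fin.succ_ne_zero b).symm]
      · simp [detTwo_sig, blockDiagonal_apply]
      · simp [detTwo_sig, blockDiagonal_apply]
    apply K0.cls_congr
    rw [← h]
    exact K0.matEquiv_submatrix _ (blockDiagonal_idem H hH) _

/-- The class of a block diagonal matrix (by induction on the index set, `K0.cls_fromBlocks`,
`K0.matEquiv_submatrix`). -/
theorem K0_blockDiagonal {R : Type u} [Ring R] {ν ι : Type} [Fintype ν] [DecidableEq ν]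
    [Fintype ι] [DecidableEq ι] (H : ι → Matrix ν ν R) (hH : ∀ i, H i * H i = H i) :
    K0.cls (blockDiagonal H) (blockDiagonal_idem H hH) = ∑ i, K0.cls (H i) (hH i) := by
  let e := Fintype.equivFin ι
  have h1 := detTwo_block (Fintype.card ι) (fun j => H (e.symm j)) (fun j => hH (e.symm j))
  rw [Equiv.sum_comp e.symm (fun i => K0.cls (H i) (hH i))] at h1
  rw [← h1]
  symm
  apply K0.cls_congr
  have h2 : (blockDiagonal H).submatrix ((Equiv.refl ν).prodCongr e.symm)
      ((Equiv.refl ν).prodCongr e.symm) = blockDiagonal fun j => H (e.symm j) := by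
    ext ⟨i, a⟩ ⟨j, b⟩ : 1
    simp [blockDiagonal_apply]
  rw [← h2]
  exact K0.matEquiv_submatrix _ (blockDiagonal_idem H hH) _

section maps

variable {R : Type} [CommRing R] {S : Type} [CommRing S] {G : Type v} [Group G]

private theorem detTwo_comm {C : Type w} [Group C] (f : R →+* S) (φ : C →* G) :
    (MonoidAlgebra.mapRingHom G f).comp (MonoidAlgebra.mapDomainRingHom R φ) =
      (MonoidAlgebra.mapDomainRingHom S φ).comp (MonoidAlgebra.mapRingHom C f) := by
  apply RingHom.ext
  intro x
  induction x using MonoidAlgebra.induction_linear with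
  | zero => simp
  | add a b ha hb => rw [map_add, map_add, ha, hb]
  | single c r =>
    change MonoidAlgebra.mapRingHom G f (MonoidAlgebra.mapDomain φ (MonoidAlgebra.single c r)) =
      MonoidAlgebra.mapDomain φ (MonoidAlgebra.mapRingHom C f (MonoidAlgebra.single c r))
    rw [MonoidAlgebra.mapDomain_single, MonoidAlgebra.mapRingHom_single,
      MonoidAlgebra.mapRingHom_single, MonoidAlgebra.mapDomain_single]

private theorem detTwo_mapRing_comp {T : Type} [CommRing T] (g : S →+* T) (f : R →+* S) :
    (MonoidAlgebra.mapRingHom G g).comp (MonoidAlgebra.mapRingHom G f) =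
      MonoidAlgebra.mapRingHom G (g.comp f) := by
  apply RingHom.ext
  intro x
  induction x using MonoidAlgebra.induction_linear with
  | zero => simp
  | add a b ha hb => rw [map_add, map_add, ha, hb]
  | single c r =>
    rw [RingHom.comp_apply, MonoidAlgebra.mapRingHom_single, MonoidAlgebra.mapRingHom_single,
      MonoidAlgebra.mapRingHom_single]
    rfl

private theorem detTwo_cls_map (j : R →+* S) (c : G) (a : MonoidAlgebra R G) :
    clsFun (cj S c) (MonoidAlgebra.mapRingHom G j a) = j (clsFun (cj R c) a) := by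
  induction a using MonoidAlgebra.induction_linear with
  | zero => simp
  | add a b ha hb => rw [map_add, map_add, map_add, map_add, ha, hb]
  | single d r =>
    rw [MonoidAlgebra.mapRingHom_single, clsFun_single, clsFun_single, map_mul]
    congr 1
    unfold cj
    split_ifs
    · rw [map_one]
    · rw [map_zero]

end maps

section one

variable {O : Type} [CommRing O] {L : Type} [Field L] (fL : O →+* L)

open Classical in
private theorem detTwo_oneChi {G : Type v} [Group G] {C : Type w} [Group C] [Fintype C] (φ : C →* G)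
    (c : G) (χ : C →* Oˣ) :
    clsFun (cj L c) (MonoidAlgebra.mapDomainRingHom L φ (oneChi fL χ)) =
      (Fintype.card C : L)⁻¹ * ∑ d : C, if IsConj c (φ d) then fL (((χ d)⁻¹ : Oˣ) : O) else 0 := by
  have h : MonoidAlgebra.mapDomainRingHom L φ (oneChi fL χ) = ∑ d : C, MonoidAlgebra.single (φ d)
      ((Fintype.card C : L)⁻¹ * fL (((χ d)⁻¹ : Oˣ) : O)) := by
    unfold oneChi
    rw [map_sum]
    refine Finset.sum_congr rfl fun d _ => ?_
    change MonoidAlgebra.mapDomain φ (MonoidAlgebra.single d _) = _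
    rw [MonoidAlgebra.mapDomain_single]
  rw [h, map_sum, Finset.mul_sum]
  refine Finset.sum_congr rfl fun d _ => ?_
  rw [clsFun_single]
  unfold cj
  split_ifs
  · rw [mul_one]
  · rw [mul_zero, mul_zero]

end one

/-- Trace functional of a product of diagonal matrices. -/
private theorem detTwo_T0_diag {R : Type u} [Ring R] {M : Type*} [AddCommGroup M] (τ : R →+ M)
    {κ : Type*} [Fintype κ] [DecidableEq κ] (a b : κ → R[T;T⁻¹]) :
    T0 τ ((diagonal a).map (der R) * diagonal b) = ∑ p, τ ((der R (a p) * b p).coeff 0) := by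
  rw [diagonal_map (map_zero _), diagonal_mul_diagonal]
  simp only [T0, diagonal_apply_eq]

private theorem detTwo_blockMap {R : Type u} [Ring R] {S : Type v} [Ring S] {m n ι : Type}
    [DecidableEq ι] (M : ι → Matrix m n R) (f : R →+* S) :
    (blockDiagonal M).map f = blockDiagonal fun i => (M i).map f :=
  blockDiagonal_map M f (map_zero f)

/-- Block diagonal matrices of the pushed matrices. -/
private noncomputable abbrev detTwo_push {R : Type} [CommRing R] {G : Type v} [Group G] {ι : Type}
    [DecidableEq ι] (C : ι → Subgroup G) {m n : Type}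
    (x : ∀ i, Matrix m n (MonoidAlgebra R (C i))[T;T⁻¹]) :
    Matrix (m × ι) (n × ι) (MonoidAlgebra R G)[T;T⁻¹] :=
  blockDiagonal fun i => (x i).map (lau (MonoidAlgebra.mapDomainRingHom R (C i).subtype))

private theorem detTwo_push_mul {R : Type} [CommRing R] {G : Type v} [Group G] {ι : Type}
    [Fintype ι] [DecidableEq ι] (C : ι → Subgroup G) {l m n : Type} [Fintype m]
    (x : ∀ i, Matrix l m (MonoidAlgebra R (C i))[T;T⁻¹])
    (y : ∀ i, Matrix m n (MonoidAlgebra R (C i))[T;T⁻¹]) :
    detTwo_push C x * detTwo_push C y = detTwo_push C fun i => x i * y i := by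
  unfold detTwo_push
  rw [← blockDiagonal_mul]
  simp only [Matrix.map_mul]

private theorem detTwo_push_one {R : Type} [CommRing R] {G : Type v} [Group G] {ι : Type}
    [DecidableEq ι] (C : ι → Subgroup G) {m : Type} [DecidableEq m] :
    detTwo_push (R := R) C (fun _ => (1 : Matrix m m _)) = 1 := by
  unfold detTwo_push
  simp only [Matrix.map_one _ (map_zero _) (map_one _)]
  exact blockDiagonal_one

private theorem detTwo_push_map {R : Type} [CommRing R] {S : Type} [CommRing S] {G : Type v}
    [Group G] {ι : Type} [DecidableEq ι] (C : ι → Subgroup G) {m n : Type} (f : R →+* S)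
    (x : ∀ i, Matrix m n (MonoidAlgebra R (C i))[T;T⁻¹]) :
    (detTwo_push C x).map (lau (MonoidAlgebra.mapRingHom G f)) =
      detTwo_push C fun i => (x i).map (lau (MonoidAlgebra.mapRingHom (C i) f)) := by
  unfold detTwo_push
  rw [detTwo_blockMap]
  congr 1
  funext i
  ext a b : 1
  simp only [Matrix.map_apply]
  have h := congrArg (fun g => g (x i a b)) (congrArg lau (detTwo_comm (G := G) f (C i).subtype))
  rw [lau_comp, lau_comp] at h
  exact h

private theorem detTwo_diag_mul {R : Type u} [Ring R] {m n ι : Type} [Fintype m] [Fintype ι]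
    [DecidableEq m] [DecidableEq ι] (a : ι → R) (x x' : ι → Matrix m n R)
    (h : ∀ i k l, x' i k l = a i * x i k l) :
    blockDiagonal x' = diagonal (fun p : m × ι => a p.2) * blockDiagonal x := by
  ext ⟨i, k⟩ ⟨j, l⟩ : 1
  rw [diagonal_mul, blockDiagonal_apply, blockDiagonal_apply]
  split_ifs with h1
  · exact h _ _ _
  · rw [mul_zero]

private theorem detTwo_mul_diag {R : Type u} [Ring R] {m n ι : Type} [Fintype n] [Fintype ι]
    [DecidableEq n] [DecidableEq ι] (a : ι → R) (x x' : ι → Matrix m n R)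
    (h : ∀ i k l, x' i k l = x i k l * a i) :
    blockDiagonal x' = blockDiagonal x * diagonal (fun p : n × ι => a p.2) := by
  ext ⟨i, k⟩ ⟨j, l⟩ : 1
  rw [mul_diagonal, blockDiagonal_apply, blockDiagonal_apply]
  split_ifs with h1
  · subst h1
    exact h _ _ _
  · rw [zero_mul]

open Classical in
theorem det_two {O : Type} [CommRing O] [IsDomain O] [IsNoetherianRing O] [CharZero O] (N : ℕ)
    [NeZero N] [HasEnoughRootsOfUnity O N] [Finite (Amod O N)] {L : Type} [Field L] [CharZero L]
    (fL : O →+* L) (hfL : Function.Injective fL) {G : Type v} [Group G]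
    {ι : Type} [Fintype ι] (C : ι → Subgroup G) [∀ i, Fintype (C i)]
    [∀ i, Fintype (C i →* Oˣ)] (hC : ∀ i, ∀ a b : C i, a * b = b * a)
    (hN : ∀ i, Nat.card (C i) ∣ N) (n : ∀ i, (C i →* Oˣ) → Pr O N → ℤ)
    (h : ∑ i, ind O (C i).subtype (Theta N (C i) (hC i) (hN i) (n i)) = 0) :
    ∃ s : G → L, ∀ (m : Pr O N) (p : ℕ), p.Prime → (p : Amod O N) ∈ m.asIdeal →
      ∀ c : G, 0 < orderOf c → p ∣ orderOf c →
      ∑ i, ∑ χ : C i →* Oˣ, (n i χ m : L) * ((Fintype.card (C i) : L)⁻¹ *
        ∑ d : C i, if IsConj c (d : G) then fL (((χ d)⁻¹ : Oˣ) : O) else 0) = s c := by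
  choose x y hrep using fun i => (sqC (RingHom.id O) N (C i) (hC i) (hN i)).lauSq.exists_isRep_repH
    (uN (n i))
  set H : ∀ i, Matrix (Unit ⊕ Unit) (Unit ⊕ Unit) (MonoidAlgebra O (C i))[T;T⁻¹] :=
    fun i => (sqC (RingHom.id O) N (C i) (hC i) (hN i)).lauSq.repH (uN (n i)) with hHdef
  have hHid : ∀ i, H i * H i = H i := fun i => (hrep i).idem
  -- the block diagonal idempotent matrix over `O[G]`
  have hpid : ∀ i, ((H i).map (lau (MonoidAlgebra.mapDomainRingHom O (C i).subtype))) *
      ((H i).map (lau (MonoidAlgebra.mapDomainRingHom O (C i).subtype))) =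
      (H i).map (lau (MonoidAlgebra.mapDomainRingHom O (C i).subtype)) := by
    intro i
    rw [← Matrix.map_mul, hHid i]
  have hTh : ∀ i, ind O (C i).subtype (Theta N (C i) (hC i) (hN i) (n i)) =
      Km1.mk (K0.cls _ (hpid i)) := by
    intro i
    have h1 : Theta N (C i) (hC i) (hN i) (n i) = Km1.mk (K0.cls (H i) (hHid i)) := by
      have h2 : Theta N (C i) (hC i) (hN i) (n i) =
          (sqC (RingHom.id O) N (C i) (hC i) (hN i)).DD.D (uN (n i)) := rfl
      rw [h2, Sq.DD_eq, Sq.dl_eq (hrep i), map_sub, mk_cls_pos (1 : Matrix Unit Unit _) one_idem,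
        sub_zero]
      intro a b
      rw [Subsingleton.elim a b, Matrix.one_apply_eq]
      have := isPos_cst (1 : MonoidAlgebra O (C i))
      rwa [map_one] at this
    rw [h1, ind, Km1.map_mk, K0.map_cls]
  have hzero : Km1.mk (K0.cls _ (blockDiagonal_idem _ hpid)) = 0 := by
    rw [K0_blockDiagonal _ hpid, map_sum, ← h]
    exact Finset.sum_congr rfl fun i _ => (hTh i).symm
  -- rational trivializations
  choose xA yA hxyA hloc using fun i => det_one N fL hfL (C i) (hC i) (hN i) (n i) (hrep i)
  have hXY : detTwo_push C xA * detTwo_push C yA = 1 := by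
    rw [detTwo_push_mul]
    simp only [hxyA]
    exact detTwo_push_one C
  -- the constants
  have key : ∀ c : G, ∃ s : L, ∀ (m : Pr O N) (p : ℕ), p.Prime → (p : Amod O N) ∈ m.asIdeal →
      0 < orderOf c → p ∣ orderOf c →
      ∑ i, ∑ χ : C i →* Oˣ, (n i χ m : L) * ((Fintype.card (C i) : L)⁻¹ *
        ∑ d : C i, if IsConj c (d : G) then fL (((χ d)⁻¹ : Oˣ) : O) else 0) = s := by
    intro c
    by_cases hc1 : c = 1
    · refine ⟨0, fun m p hp _ _ hpc => ?_⟩
      rw [hc1, orderOf_one] at hpc
      exact absurd (Nat.dvd_one.1 hpc) hp.one_lt.ne'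
    have hτ : ∀ a b : MonoidAlgebra L G, clsFun (cj L c) (a * b) = clsFun (cj L c) (b * a) :=
      clsFun_comm _ (cj_comm L c)
    have hτ1 : clsFun (cj L c) (1 : MonoidAlgebra L G) = 0 := by
      rw [MonoidAlgebra.one_def, clsFun_single]
      unfold cj
      rw [if_neg, mul_zero]
      intro h1
      exact hc1 (isConj_one_left.1 h1)
    obtain ⟨s0, hs0⟩ := detect (MonoidAlgebra.mapRingHom G fL) (clsFun (cj L c)) hτ hτ1 _
      (blockDiagonal_idem _ hpid) hzero
    refine ⟨T0 (clsFun (cj L c)) ((detTwo_push C xA).map (der _) * detTwo_push C yA) + s0,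
      fun m p hp hpm hc0 hpc => ?_⟩
    obtain ⟨Om, i1, i2, i3, f, j, hjf, hj, hkrull, hkap⟩ := exists_loc N fL hfL m
    choose xB yB hxyB hyxB hxBA hyBA using fun i => hloc i m Om f j hjf hj hkap
    have hXYB : detTwo_push C xB * detTwo_push C yB = 1 := by
      rw [detTwo_push_mul]
      simp only [hxyB]
      exact detTwo_push_one C
    have hYXB : detTwo_push C yB * detTwo_push C xB =
        (blockDiagonal fun i => (H i).map (lau (MonoidAlgebra.mapDomainRingHom O (C i).subtype))).map
          (lau (MonoidAlgebra.mapRingHom G f)) := by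
      rw [detTwo_push_mul]
      simp only [hyxB]
      exact (detTwo_push_map C f H).symm
    obtain ⟨q, hq⟩ := hs0 (MonoidAlgebra Om G) (MonoidAlgebra.mapRingHom G f)
      (MonoidAlgebra.mapRingHom G j) (by rw [detTwo_mapRing_comp, hjf]) _ _ _ hXYB hYXB
    have hfact : Fact p.Prime := ⟨hp⟩
    rw [detTwo_cls_map, trace_zero p (hkrull p hpm) c hc0 hpc q, map_zero, neg_zero, Matrix.map_mul,
      ← map_lau_der, detTwo_push_map, detTwo_push_map] at hq
    -- change of trivialization
    set v' : ι → (MonoidAlgebra L G)[T;T⁻¹] := fun i =>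
      lau (MonoidAlgebra.mapDomainRingHom L (C i).subtype) (vL fL (fun χ => - n i χ m)) with hv'
    set v : ι → (MonoidAlgebra L G)[T;T⁻¹] := fun i =>
      lau (MonoidAlgebra.mapDomainRingHom L (C i).subtype) (vL fL (fun χ => n i χ m)) with hv
    have hX : detTwo_push C (fun i => (xB i).map (lau (MonoidAlgebra.mapRingHom (C i) j))) =
        diagonal (fun p : Unit × ι => v' p.2) * detTwo_push C xA := by
      apply detTwo_diag_mul
      intro i k l
      have h1 := congrArg (lau (MonoidAlgebra.mapDomainRingHom L (C i).subtype)) (hxBA i k l)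
      rw [map_mul] at h1
      exact h1
    have hY : detTwo_push C (fun i => (yB i).map (lau (MonoidAlgebra.mapRingHom (C i) j))) =
        detTwo_push C yA * diagonal (fun p : Unit × ι => v p.2) := by
      apply detTwo_mul_diag
      intro i k l
      have h1 := congrArg (lau (MonoidAlgebra.mapDomainRingHom L (C i).subtype)) (hyBA i k l)
      rw [map_mul] at h1
      exact h1
    have hvv : diagonal (fun p : Unit × ι => v p.2) * diagonal (fun p : Unit × ι => v' p.2) = 1 := by
      rw [diagonal_mul_diagonal, ← diagonal_one]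
      congr 1
      funext p
      rw [hv, hv', ← map_mul, vL_mul fL (hC p.2) (hN p.2)]
      have h1 : ((fun χ => n p.2 χ m) + fun χ => - n p.2 χ m) = (0 : (C p.2 →* Oˣ) → ℤ) := by
        funext χ
        exact add_neg_cancel _
      rw [h1, vL_zero fL (hC p.2) (hN p.2), map_one]
    rw [hX, hY, T0_change _ hτ _ _ hvv _ _ hXY, detTwo_T0_diag] at hq
    have hterm : ∀ p : Unit × ι, clsFun (cj L c) ((der _ (v' p.2) * v p.2).coeff 0) =
        - ∑ χ : C p.2 →* Oˣ, (n p.2 χ m : L) * ((Fintype.card (C p.2) : L)⁻¹ *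
          ∑ d : C p.2, if IsConj c (d : G) then fL (((χ d)⁻¹ : Oˣ) : O) else 0) := by
      intro p
      have h1 : der _ (v' p.2) * v p.2 =
          lau (MonoidAlgebra.mapDomainRingHom L (C p.2).subtype)
            (cst _ (- ∑ χ, n p.2 χ m • oneChi fL χ)) := by
        rw [hv, hv', ← lau_der, ← map_mul]
        congr 1
        exact der_vL fL (hC p.2) (hN p.2) (fun χ => n p.2 χ m)
      rw [h1, lau_coeff, cst_apply, AddMonoidAlgebra.coeff_single, Finsupp.single_eq_same, map_neg,
        map_neg, map_sum, map_sum]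
      congr 1
      refine Finset.sum_congr rfl fun χ _ => ?_
      rw [map_zsmul, map_zsmul, detTwo_oneChi, zsmul_eq_mul]
      rfl
    simp only [hterm] at hq
    rw [Fintype.sum_prod_type, Fintype.sum_unique, Finset.sum_neg_distrib] at hq
    linear_combination -hq
  choose s hs using key
  exact ⟨s, fun m p hp hpm c hc0 hpc => hs c m p hp hpm hc0 hpc⟩

end Pool.Agent.H95.KM
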