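import Pool.Agent.H71.FJ.K0

/-!
# `K₋₁` of rings and the assembly map in degree `-1`

`Km1 R` is the group `K₋₁(R)`, i.e. the cokernel of `K₀(R[t]) ⊕ K₀(R[t⁻¹]) → K₀(R[t, t⁻¹])`.

For a family `𝓕` of subgroups of `G`, `ColimKm1 R G 𝓕` is the colimit of the groups `K₋₁(R[F])`
over the subgroups `F` in `𝓕`, the morphisms `F → F'` being the restrictions of the conjugations
`x ↦ g x g⁻¹` with `g F g⁻¹ ⊆ F'`, and `assembly R G 𝓕` is the natural map from it to `K₋₁(R[G])`.
-/

set_option autoImplicit false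

open Matrix
open scoped LaurentPolynomial

universe u v w

namespace Pool.Agent.H95.KM

open Pool.Agent.H71.FJ (K0 MatEquiv IdemMat conjHom)

section Laurent

variable (R : Type u) [Ring R] {S : Type v} [Ring S] {T : Type w} [Ring T]

/-- The inclusion of `R[t]` into `R[t, t⁻¹]`. -/
noncomputable def posHom : Polynomial R →+* R[T;T⁻¹] := Polynomial.toLaurent

/-- The homomorphism `R[X] → R[t, t⁻¹]`, `X ↦ t⁻¹`, with image `R[t⁻¹]`. -/
noncomputable def negHom : Polynomial R →+* R[T;T⁻¹] :=
  (AddMonoidAlgebra.mapDomainRingHom R (negAddMonoidHom : ℤ →+ ℤ)).comp Polynomial.toLaurent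

variable {R}

/-- The homomorphism `R[t, t⁻¹] → S[t, t⁻¹]` induced by `f : R → S`. -/
noncomputable def lau (f : R →+* S) : R[T;T⁻¹] →+* S[T;T⁻¹] := AddMonoidAlgebra.mapRingHom ℤ f

theorem lau_single (f : R →+* S) (k : ℤ) (r : R) :
    lau f (AddMonoidAlgebra.single k r) = AddMonoidAlgebra.single k (f r) :=
  AddMonoidAlgebra.mapRingHom_single f k r

theorem posHom_monomial (k : ℕ) (r : R) :
    posHom R (Polynomial.monomial k r) = AddMonoidAlgebra.single (k : ℤ) r := by
  rw [← Polynomial.C_mul_X_pow_eq_monomial]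
  change Polynomial.toLaurent (Polynomial.C r * Polynomial.X ^ k) = _
  rw [Polynomial.toLaurent_C_mul_X_pow, LaurentPolynomial.single_eq_C_mul_T]

theorem negHom_monomial (k : ℕ) (r : R) :
    negHom R (Polynomial.monomial k r) = AddMonoidAlgebra.single (-(k : ℤ)) r := by
  change AddMonoidAlgebra.mapDomainRingHom R (negAddMonoidHom : ℤ →+ ℤ)
    (posHom R (Polynomial.monomial k r)) = _
  rw [posHom_monomial]
  change AddMonoidAlgebra.mapDomain _ (AddMonoidAlgebra.single (k : ℤ) r) = _
  rw [AddMonoidAlgebra.mapDomain_single]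
  rfl

theorem lau_posHom (f : R →+* S) :
    (lau f).comp (posHom R) = (posHom S).comp (Polynomial.mapRingHom f) := by
  apply RingHom.ext
  intro p
  induction p using Polynomial.induction_on' with
  | add p q hp hq => rw [map_add, hp, hq, map_add]
  | monomial k r =>
    rw [RingHom.comp_apply, RingHom.comp_apply, posHom_monomial, lau_single,
      Polynomial.coe_mapRingHom, Polynomial.map_monomial, posHom_monomial]

theorem lau_negHom (f : R →+* S) :
    (lau f).comp (negHom R) = (negHom S).comp (Polynomial.mapRingHom f) := by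
  apply RingHom.ext
  intro p
  induction p using Polynomial.induction_on' with
  | add p q hp hq => rw [map_add, hp, hq, map_add]
  | monomial k r =>
    rw [RingHom.comp_apply, RingHom.comp_apply, negHom_monomial, lau_single,
      Polynomial.coe_mapRingHom, Polynomial.map_monomial, negHom_monomial]

theorem lau_id : lau (RingHom.id R) = RingHom.id _ := by
  apply RingHom.ext
  intro x
  induction x using AddMonoidAlgebra.induction_linear with
  | zero => simp
  | add x y hx hy => rw [map_add, hx, hy, map_add]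
  | single k r => rw [lau_single]; rfl

theorem lau_comp (g : S →+* T) (f : R →+* S) : lau (g.comp f) = (lau g).comp (lau f) := by
  apply RingHom.ext
  intro x
  induction x using AddMonoidAlgebra.induction_linear with
  | zero => simp
  | add x y hx hy => rw [map_add, hx, hy, map_add]
  | single k r => rw [RingHom.comp_apply, lau_single, lau_single, lau_single]; rfl

end Laurent

/-- The subgroup of `K₀(R[t, t⁻¹])` generated by the images of `K₀(R[t])` and `K₀(R[t⁻¹])`. -/
noncomputable def Km1Rel (R : Type u) [Ring R] : AddSubgroup (K0 R[T;T⁻¹]) :=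
  (K0.map (posHom R)).range ⊔ (K0.map (negHom R)).range

/-- The group `K₋₁(R)`. -/
def Km1 (R : Type u) [Ring R] : Type u := K0 R[T;T⁻¹] ⧸ Km1Rel R

noncomputable instance instKm1 (R : Type u) [Ring R] : AddCommGroup (Km1 R) :=
  QuotientAddGroup.Quotient.addCommGroup (Km1Rel R)

namespace Km1

variable {R : Type u} [Ring R] {S : Type v} [Ring S] {T : Type w} [Ring T]

/-- The class in `K₋₁(R)` of an element of `K₀(R[t, t⁻¹])`. -/
noncomputable def mk : K0 R[T;T⁻¹] →+ Km1 R := QuotientAddGroup.mk' (Km1Rel R)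

theorem mk_surjective : Function.Surjective (mk : K0 R[T;T⁻¹] →+ Km1 R) :=
  QuotientAddGroup.mk_surjective

theorem mk_eq_zero {x : K0 R[T;T⁻¹]} : mk x = 0 ↔ x ∈ Km1Rel R :=
  QuotientAddGroup.eq_zero_iff x

theorem mk_pos (x : K0 (Polynomial R)) : mk (K0.map (posHom R) x) = 0 :=
  mk_eq_zero.2 (AddSubgroup.mem_sup_left ⟨x, rfl⟩)

theorem mk_neg (x : K0 (Polynomial R)) : mk (K0.map (negHom R) x) = 0 :=
  mk_eq_zero.2 (AddSubgroup.mem_sup_right ⟨x, rfl⟩)

theorem hom_ext {M : Type*} [AddCommGroup M] {f g : Km1 R →+ M}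
    (h : ∀ x, f (mk x) = g (mk x)) : f = g := by
  apply QuotientAddGroup.addMonoidHom_ext
  ext x
  exact h x

/-- Homomorphisms out of `K₋₁(R)`. -/
noncomputable def lift {M : Type*} [AddCommGroup M] (F : K0 R[T;T⁻¹] →+ M)
    (h1 : ∀ x, F (K0.map (posHom R) x) = 0) (h2 : ∀ x, F (K0.map (negHom R) x) = 0) :
    Km1 R →+ M :=
  QuotientAddGroup.lift (Km1Rel R) F (by
    rw [Km1Rel, sup_le_iff]
    constructor
    · rintro _ ⟨x, rfl⟩
      exact h1 x
    · rintro _ ⟨x, rfl⟩
      exact h2 x)

theorem lift_mk {M : Type*} [AddCommGroup M] (F : K0 R[T;T⁻¹] →+ M)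
    (h1 : ∀ x, F (K0.map (posHom R) x) = 0) (h2 : ∀ x, F (K0.map (negHom R) x) = 0)
    (x : K0 R[T;T⁻¹]) : lift F h1 h2 (mk x) = F x := rfl

/-- The homomorphism `K₋₁(R) → K₋₁(S)` induced by a ring homomorphism `R → S`. -/
noncomputable def map (f : R →+* S) : Km1 R →+ Km1 S :=
  lift (mk.comp (K0.map (lau f)))
    (fun x => by
      rw [AddMonoidHom.comp_apply, K0.map_map, lau_posHom, ← K0.map_map, mk_pos])
    (fun x => by
      rw [AddMonoidHom.comp_apply, K0.map_map, lau_negHom, ← K0.map_map, mk_neg])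

theorem map_mk (f : R →+* S) (x : K0 R[T;T⁻¹]) : map f (mk x) = mk (K0.map (lau f) x) := rfl

theorem map_id : map (RingHom.id R) = AddMonoidHom.id (Km1 R) := by
  apply hom_ext
  intro x
  rw [map_mk, lau_id, K0.map_id]
  rfl

theorem map_comp (g : S →+* T) (f : R →+* S) : map (g.comp f) = (map g).comp (map f) := by
  apply hom_ext
  intro x
  rw [AddMonoidHom.comp_apply, map_mk, map_mk, map_mk, lau_comp, K0.map_map]

theorem map_map (g : S →+* T) (f : R →+* S) (x : Km1 R) : map g (map f x) = map (g.comp f) x := by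
  rw [map_comp]
  rfl

end Km1

/-- The subgroups in a family. -/
abbrev FamSub (G : Type v) [Group G] (𝓕 : Subgroup G → Prop) : Type v := {F : Subgroup G // 𝓕 F}

/-- The homomorphism `K₋₁(R[F]) → K₋₁(R[F'])` induced by a group homomorphism `F → F'`. -/
noncomputable def ind (R : Type u) [Ring R] {F F' : Type*} [Group F] [Group F'] (φ : F →* F') :
    Km1 (MonoidAlgebra R F) →+ Km1 (MonoidAlgebra R F') :=
  Km1.map (MonoidAlgebra.mapDomainRingHom R φ)

/-- `⨁_F K₋₁(R[F])` over the subgroups `F` in the family `𝓕`. -/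
abbrev SumKm1 (R : Type u) [Ring R] (G : Type v) [Group G] (𝓕 : Subgroup G → Prop) :
    Type (max u v) :=
  DirectSum (FamSub G 𝓕) (fun F => Km1 (MonoidAlgebra R F.1))

/-- The inclusion of the summand of `F`. -/
noncomputable def inc (R : Type u) [Ring R] (G : Type v) [Group G] (𝓕 : Subgroup G → Prop)
    (F : FamSub G 𝓕) : Km1 (MonoidAlgebra R F.1) →+ SumKm1 R G 𝓕 :=
  open scoped Classical in DirectSum.of (fun F : FamSub G 𝓕 => Km1 (MonoidAlgebra R F.1)) F

/-- The relation `c_g(x) - x` of the colimit. -/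
noncomputable def rel (R : Type u) [Ring R] (G : Type v) [Group G] (𝓕 : Subgroup G → Prop)
    (F F' : FamSub G 𝓕) (g : G) (h : ∀ x ∈ F.1, g * x * g⁻¹ ∈ F'.1)
    (x : Km1 (MonoidAlgebra R F.1)) : SumKm1 R G 𝓕 :=
  inc R G 𝓕 F' (ind R (conjHom g F.1 F'.1 h) x) - inc R G 𝓕 F x

/-- The relations of the colimit: `c_g(x) = x` for `x ∈ K₋₁(R[F])`, `g F g⁻¹ ⊆ F'`. -/
noncomputable def colimRel (R : Type u) [Ring R] (G : Type v) [Group G]
    (𝓕 : Subgroup G → Prop) : AddSubgroup (SumKm1 R G 𝓕) :=
  AddSubgroup.closure {z | ∃ F F' g h x, z = rel R G 𝓕 F F' g h x}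

/-- The colimit of `K₋₁(R[F])` over the subgroups `F` in the family `𝓕`. -/
def ColimKm1 (R : Type u) [Ring R] (G : Type v) [Group G] (𝓕 : Subgroup G → Prop) :
    Type (max u v) :=
  SumKm1 R G 𝓕 ⧸ colimRel R G 𝓕

noncomputable instance instColimKm1 (R : Type u) [Ring R] (G : Type v) [Group G]
    (𝓕 : Subgroup G → Prop) : AddCommGroup (ColimKm1 R G 𝓕) :=
  QuotientAddGroup.Quotient.addCommGroup (colimRel R G 𝓕)

/-- The assembly map on the direct sum, given by the inclusions `F → G`. -/
noncomputable def assemblySum (R : Type u) [Ring R] (G : Type v) [Group G]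
    (𝓕 : Subgroup G → Prop) : SumKm1 R G 𝓕 →+ Km1 (MonoidAlgebra R G) :=
  open scoped Classical in
  DirectSum.toAddMonoid fun F : FamSub G 𝓕 => ind R F.1.subtype

theorem assemblySum_inc (R : Type u) [Ring R] (G : Type v) [Group G]
    (𝓕 : Subgroup G → Prop) (F : FamSub G 𝓕) (x : Km1 (MonoidAlgebra R F.1)) :
    assemblySum R G 𝓕 (inc R G 𝓕 F x) = ind R F.1.subtype x := by
  classical
  rw [assemblySum, inc, DirectSum.toAddMonoid_of]

/-- Ring homomorphisms that are conjugate by a unit induce the same map on `K₀`. -/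
theorem K0_map_conj {R : Type u} [Ring R] {S : Type v} [Ring S] (f f' : R →+* S) (a b : S)
    (hba : b * a = 1) (h : ∀ r, f' r = a * f r * b) (x : K0 R) :
    K0.map f' x = K0.map f x := by
  suffices H : K0.map f' = K0.map f from congrArg (fun f : K0 R →+ K0 S => f x) H
  apply K0.hom_ext
  intro c
  rw [K0.map_mk', K0.map_mk']
  apply K0.mk_eq_of_equiv
  change MatEquiv (c.mat.map f') (c.mat.map f)
  set e := c.mat.map f with he
  have hee : e * e = e := by rw [he, ← Matrix.map_mul, c.idem]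
  have h1 : c.mat.map f' = (diagonal fun _ => a) * e * (diagonal fun _ => b) := by
    refine Matrix.ext fun i j => ?_
    rw [Matrix.mul_diagonal, Matrix.diagonal_mul]
    exact h _
  have h2 : (diagonal fun _ : Fin c.n => b) * (diagonal fun _ => a) = 1 := by
    rw [diagonal_mul_diagonal]
    simp only [hba]
    exact diagonal_one
  refine ⟨(diagonal fun _ => a) * e, e * (diagonal fun _ => b), ?_, ?_⟩
  · rw [h1, Matrix.mul_assoc, ← Matrix.mul_assoc e, hee, ← Matrix.mul_assoc]
  · rw [Matrix.mul_assoc, ← Matrix.mul_assoc (diagonal fun _ => b), h2, Matrix.one_mul, hee]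

theorem Km1_map_conj {R : Type u} [Ring R] {S : Type v} [Ring S] (f f' : R →+* S) (a b : S)
    (hba : b * a = 1) (h : ∀ r, f' r = a * f r * b) (x : Km1 R) :
    Km1.map f' x = Km1.map f x := by
  obtain ⟨y, rfl⟩ := Km1.mk_surjective x
  rw [Km1.map_mk, Km1.map_mk]
  congr 1
  apply K0_map_conj (lau f) (lau f') (AddMonoidAlgebra.single 0 a) (AddMonoidAlgebra.single 0 b)
  · rw [AddMonoidAlgebra.single_mul_single, hba]
    rfl
  · intro r
    induction r using AddMonoidAlgebra.induction_linear with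
    | zero => simp
    | add p q hp hq => rw [map_add, map_add, hp, hq, mul_add, add_mul]
    | single k s =>
      rw [lau_single, lau_single, AddMonoidAlgebra.single_mul_single,
        AddMonoidAlgebra.single_mul_single, zero_add, add_zero, h]

theorem ind_conj (R : Type u) [Ring R] {G : Type v} [Group G] (g : G) (F F' : Subgroup G)
    (h : ∀ x ∈ F, g * x * g⁻¹ ∈ F') (x : Km1 (MonoidAlgebra R F)) :
    ind R F'.subtype (ind R (conjHom g F F' h) x) = ind R F.subtype x := by
  rw [ind, ind, ind, Km1.map_map]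
  apply Km1_map_conj _ _ (MonoidAlgebra.single g 1) (MonoidAlgebra.single g⁻¹ 1)
  · exact Pool.Agent.H71.FJ.single_inv R g
  · intro r
    induction r using MonoidAlgebra.induction_linear with
    | zero => simp
    | add a b ha hb => rw [map_add, ha, hb, map_add, mul_add, add_mul]
    | single s t =>
      change MonoidAlgebra.mapDomain F'.subtype (MonoidAlgebra.mapDomain (conjHom g F F' h)
        (MonoidAlgebra.single s t)) = MonoidAlgebra.single g 1 *
          MonoidAlgebra.mapDomain F.subtype (MonoidAlgebra.single s t) *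
          MonoidAlgebra.single g⁻¹ 1
      rw [MonoidAlgebra.mapDomain_single, MonoidAlgebra.mapDomain_single,
        MonoidAlgebra.mapDomain_single, MonoidAlgebra.single_mul_single,
        MonoidAlgebra.single_mul_single, one_mul, mul_one]
      rfl

theorem colimRel_le (R : Type u) [Ring R] (G : Type v) [Group G] (𝓕 : Subgroup G → Prop) :
    colimRel R G 𝓕 ≤ (assemblySum R G 𝓕).ker := by
  rw [colimRel, AddSubgroup.closure_le]
  rintro z ⟨F, F', g, h, x, rfl⟩
  change assemblySum R G 𝓕 _ = 0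
  rw [rel, map_sub, assemblySum_inc, assemblySum_inc]
  exact sub_eq_zero.2 (ind_conj R g F.1 F'.1 h x)

/-- The assembly map in degree `-1` for the family `𝓕`. -/
noncomputable def assembly (R : Type u) [Ring R] (G : Type v) [Group G]
    (𝓕 : Subgroup G → Prop) : ColimKm1 R G 𝓕 →+ Km1 (MonoidAlgebra R G) :=
  QuotientAddGroup.lift (colimRel R G 𝓕) (assemblySum R G 𝓕) (colimRel_le R G 𝓕)

/-- The class in the colimit of an element of `K₋₁(R[F])`. -/
noncomputable def cl (R : Type u) [Ring R] (G : Type v) [Group G]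
    (𝓕 : Subgroup G → Prop) (F : FamSub G 𝓕) :
    Km1 (MonoidAlgebra R F.1) →+ ColimKm1 R G 𝓕 :=
  (QuotientAddGroup.mk' (colimRel R G 𝓕)).comp (inc R G 𝓕 F)

theorem assembly_cl (R : Type u) [Ring R] (G : Type v) [Group G]
    (𝓕 : Subgroup G → Prop) (F : FamSub G 𝓕) (x : Km1 (MonoidAlgebra R F.1)) :
    assembly R G 𝓕 (cl R G 𝓕 F x) = ind R F.1.subtype x :=
  assemblySum_inc R G 𝓕 F x

theorem cl_conj (R : Type u) [Ring R] (G : Type v) [Group G]
    (𝓕 : Subgroup G → Prop) (F F' : FamSub G 𝓕) (g : G) (h : ∀ x ∈ F.1, g * x * g⁻¹ ∈ F'.1)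
    (x : Km1 (MonoidAlgebra R F.1)) :
    cl R G 𝓕 F' (ind R (conjHom g F.1 F'.1 h) x) = cl R G 𝓕 F x := by
  refine (QuotientAddGroup.eq_iff_sub_mem).2 ?_
  exact AddSubgroup.subset_closure ⟨F, F', g, h, x, rfl⟩

end Pool.Agent.H95.KM
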