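import Pool.Agent.H95.KM.Fou

/-!
# Project KM, module LinAlg: the linear algebra of the functionals `Θ`

Orthogonality relations (`sum_chi`, `sum_dual`, `card_dual`) in `Pool/Agent/H95/KM/Fou.lean`.

PROOF of `linalg`.  `V` is a `ℚ`-vector space, so it suffices that every `ℚ`-linear `l : V → ℚ`
kills the sum (`Module.exists_dual_forall_apply_eq_zero_iff`-type statement or
`Module.forall_dual_apply_eq_zero_iff ℚ`).  Fix `l`.  For a good subgroup `D` (`D : Good`),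
`m ∈ P`, `χ : D →* Oˣ` put `ℓ D m χ = l (Θ D (Pi.single χ (Pi.single m 1))) ∈ ℚ ⊂ L` and for `d ∈ D`
`h D m d = ∑_χ fL (χ d) * ℓ D m χ ∈ L`.
(i) `h` is invariant: if `D, D'` are good, `g ∈ G`, `d ∈ D`, `d' ∈ D'`, `g d g⁻¹ = d'` then
    `h D m d = h D' m d'`.  It suffices to compare both with `E = ⟨d⟩` (`Subgroup.zpowers (d : G)`,
    good: finite cyclic, its order divides that of `D`), using the inclusion `E → D` (conjugation by
    `1`) and the conjugation `E → D'` by `g`.  So let `g E g⁻¹ ⊆ D'`, `h' = conjHom g E D'`.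
    Naturality: `Θ D' (fun χ' m' => (δ_{(ψ,m)}) (χ'.comp h') m') = Θ E δ_{(ψ,m)}` and the
    function on the left is `∑_{χ' : χ'.comp h' = ψ} δ_{(χ', m)}`; hence
    `ℓ E m ψ = ∑_{χ' : χ'.comp h' = ψ} ℓ D' m χ'` and
    `h E m d = ∑_ψ fL (ψ d) ∑_{χ' ∘ h' = ψ} ℓ D' m χ' = ∑_{χ'} fL (χ' (h' d)) ℓ D' m χ' = h D' m (h' d)`.
(ii) `h D m d = 0` if `pr m ∤ orderOf d`: reduce to `E = ⟨d⟩` by (i); `hvan` gives `ℓ E m ψ = 0`
    for all `ψ` (`Nat.card E = orderOf d`).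
(iii) `∑_m h D m d = 0`: `∑_m δ_{(χ,m)}` is a function independent of `m`, so `hconst` gives
    `∑_m ℓ D m χ = 0`.
(iv) inversion: `ℓ D m χ = |D|⁻¹ ∑_{d ∈ D} fL (χ d)⁻¹ * h D m d` (`sum_chi` for `χ⁻¹ χ'`).
Conclusion: `l (∑_i Θ (C i) (n i)) = ∑_i ∑_χ ∑_m n i χ m * ℓ (C i) m χ` (additivity of `Θ`)
`= ∑_m ∑_i ∑_{d ∈ C i} F i m d * h (C i) m d` with
`F i m d = |C i|⁻¹ ∑_χ n i χ m * fL (χ d)⁻¹`.  Group the pairs `(i, d)` by the conjugacy class of
`d` in `G` (finitely many classes occur; by (i) `h (C i) m d =: hh m γ` depends only on `m` and the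
class `γ` of `d`): `= ∑_γ ∑_m hh m γ * ∑_i ∑_{d ∈ C i, d ∈ γ} F i m d`.  For `c ∈ γ` the inner
sum is the left hand side of `hs`, so it is `s c` whenever `pr m ∣ orderOf c`, and otherwise
`hh m γ = 0` by (ii).  So the total is `∑_γ s c_γ * ∑_m hh m γ = 0` by (iii).
-/

set_option autoImplicit false

open Matrix

universe u v w

namespace Pool.Agent.H95.KM

open Pool.Agent.H71.FJ

/-- finite cyclic subgroups of order dividing `N` -/
abbrev Good (G : Type v) [Group G] (N : ℕ) : Type v :=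
  {D : Subgroup G // (Finite D ∧ IsCyclic D) ∧ Nat.card D ∣ N}

section aux

set_option linter.unusedSectionVars false

variable {O : Type} [CommRing O] [IsDomain O] {N : ℕ} [NeZero N] [HasEnoughRootsOfUnity O N]
  {L : Type} [Field L] [CharZero L] (fL : O →+* L) {G : Type v} [Group G] {P : Type} [Fintype P]
  {V : Type w} [AddCommGroup V] [Module ℚ V]

private theorem good_comm (D : Good G N) (a b : D.1) : a * b = b * a := by
  have := D.2.1.2
  exact IsCyclic.commGroup.mul_comm a b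

private theorem good_finite (D : Good G N) : Finite D.1 := D.2.1.1

private theorem good_dual (O : Type) [CommRing O] [IsDomain O] [HasEnoughRootsOfUnity O N]
    (D : Good G N) : Finite (D.1 →* Oˣ) := by
  have := good_finite D
  exact finite_dual N (good_comm D) D.2.2

open Classical in
/-- the functional at a character -/
private noncomputable def el (Θ : ∀ D : Good G N, ((D.1 →* Oˣ) → P → ℤ) →+ V) (l : V →ₗ[ℚ] ℚ)
    (D : Good G N) (m : P) (χ : D.1 →* Oˣ) : ℚ :=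
  l (Θ D (Pi.single χ (Pi.single m 1)))

/-- the Fourier transform of the functional -/
private noncomputable def hl (Θ : ∀ D : Good G N, ((D.1 →* Oˣ) → P → ℤ) →+ V) (l : V →ₗ[ℚ] ℚ)
    (D : Good G N) (m : P) (d : D.1) : L :=
  ∑ᶠ χ : D.1 →* Oˣ, fL ((χ d : Oˣ) : O) * (el Θ l D m χ : L)

private theorem el_nat (Θ : ∀ D : Good G N, ((D.1 →* Oˣ) → P → ℤ) →+ V) (l : V →ₗ[ℚ] ℚ)
    (hnat : ∀ (D D' : Good G N) (g : G) (h : ∀ x ∈ D.1, g * x * g⁻¹ ∈ D'.1)
      (n : (D.1 →* Oˣ) → P → ℤ), Θ D' (fun χ m => n (χ.comp (conjHom g D.1 D'.1 h)) m) = Θ D n)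
    (E D : Good G N) (g : G) (h : ∀ x ∈ E.1, g * x * g⁻¹ ∈ D.1) (m : P) (ψ : E.1 →* Oˣ)
    [Fintype (D.1 →* Oˣ)] :
    open Classical in
    el Θ l E m ψ = ∑ χ : D.1 →* Oˣ, if χ.comp (conjHom g E.1 D.1 h) = ψ then el Θ l D m χ else 0 := by
  classical
  have h1 : (fun (χ : D.1 →* Oˣ) (m' : P) =>
      (Pi.single ψ (Pi.single m 1) : (E.1 →* Oˣ) → P → ℤ) (χ.comp (conjHom g E.1 D.1 h)) m')
      = ∑ χ : D.1 →* Oˣ, if χ.comp (conjHom g E.1 D.1 h) = ψ then
        (Pi.single χ (Pi.single m 1) : (D.1 →* Oˣ) → P → ℤ) else 0 := by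
    funext χ m'
    rw [Finset.sum_apply, Finset.sum_apply, Finset.sum_eq_single χ]
    · by_cases hc : χ.comp (conjHom g E.1 D.1 h) = ψ
      · rw [if_pos hc, hc, Pi.single_eq_same, Pi.single_eq_same]
      · rw [if_neg hc, Pi.single_eq_of_ne hc]
        rfl
    · intro χ' _ hne
      by_cases hc : χ'.comp (conjHom g E.1 D.1 h) = ψ
      · rw [if_pos hc, Pi.single_eq_of_ne (Ne.symm hne)]
        rfl
      · rw [if_neg hc]
        rfl
    · intro hno
      exact absurd (Finset.mem_univ χ) hno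
  unfold el
  rw [← hnat E D g h, h1, map_sum, map_sum]
  refine Finset.sum_congr rfl fun χ _ => ?_
  split_ifs
  · rfl
  · rw [map_zero, map_zero]

private theorem hl_nat (Θ : ∀ D : Good G N, ((D.1 →* Oˣ) → P → ℤ) →+ V) (l : V →ₗ[ℚ] ℚ)
    (hnat : ∀ (D D' : Good G N) (g : G) (h : ∀ x ∈ D.1, g * x * g⁻¹ ∈ D'.1)
      (n : (D.1 →* Oˣ) → P → ℤ), Θ D' (fun χ m => n (χ.comp (conjHom g D.1 D'.1 h)) m) = Θ D n)
    (E D : Good G N) (g : G) (h : ∀ x ∈ E.1, g * x * g⁻¹ ∈ D.1) (m : P) (e : E.1) :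
    hl fL Θ l E m e = hl fL Θ l D m (conjHom g E.1 D.1 h e) := by
  classical
  have := good_dual O E
  have := good_dual O D
  let _ : Fintype (E.1 →* Oˣ) := Fintype.ofFinite _
  let _ : Fintype (D.1 →* Oˣ) := Fintype.ofFinite _
  unfold hl
  rw [finsum_eq_sum_of_fintype, finsum_eq_sum_of_fintype]
  have h1 : ∀ ψ : E.1 →* Oˣ, fL ((ψ e : Oˣ) : O) * (el Θ l E m ψ : L) =
      ∑ χ : D.1 →* Oˣ, if χ.comp (conjHom g E.1 D.1 h) = ψ then
        fL ((ψ e : Oˣ) : O) * (el Θ l D m χ : L) else 0 := by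
    intro ψ
    rw [el_nat Θ l hnat E D g h m ψ, Rat.cast_sum, Finset.mul_sum]
    refine Finset.sum_congr rfl fun χ _ => ?_
    split_ifs
    · rfl
    · rw [Rat.cast_zero, mul_zero]
  rw [Finset.sum_congr rfl fun ψ _ => h1 ψ, Finset.sum_comm]
  refine Finset.sum_congr rfl fun χ _ => ?_
  rw [Finset.sum_ite_eq Finset.univ (χ.comp (conjHom g E.1 D.1 h))
    (fun ψ => fL ((ψ e : Oˣ) : O) * (el Θ l D m χ : L)), if_pos (Finset.mem_univ _)]
  rfl

/-- the cyclic subgroup generated by an element of a good subgroup -/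
private def gen (D : Good G N) (d : D.1) : Good G N :=
  ⟨Subgroup.zpowers (d : G), by
    have := good_finite D
    have hle : Subgroup.zpowers (d : G) ≤ D.1 := by
      rw [Subgroup.zpowers_le]; exact d.2
    refine ⟨⟨?_, inferInstance⟩, ?_⟩
    · exact Finite.of_injective (Subgroup.inclusion hle) (Subgroup.inclusion_injective hle)
    · exact (Subgroup.card_dvd_of_le hle).trans D.2.2⟩

private theorem gen_card (D : Good G N) (d : D.1) : Nat.card (gen D d).1 = orderOf (d : G) :=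
  Nat.card_zpowers (d : G)

private theorem hl_conj (Θ : ∀ D : Good G N, ((D.1 →* Oˣ) → P → ℤ) →+ V) (l : V →ₗ[ℚ] ℚ)
    (hnat : ∀ (D D' : Good G N) (g : G) (h : ∀ x ∈ D.1, g * x * g⁻¹ ∈ D'.1)
      (n : (D.1 →* Oˣ) → P → ℤ), Θ D' (fun χ m => n (χ.comp (conjHom g D.1 D'.1 h)) m) = Θ D n)
    (D D' : Good G N) (m : P) (d : D.1) (d' : D'.1) (hc : IsConj (d : G) (d' : G)) :
    hl fL Θ l D m d = hl fL Θ l D' m d' := by
  obtain ⟨g, hg⟩ := isConj_iff.1 hc
  have key : ∀ (F : Good G N) (f : F.1) (x : G), x * d * x⁻¹ = f →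
      hl fL Θ l (gen D d) m ⟨d, Subgroup.mem_zpowers (d : G)⟩ = hl fL Θ l F m f := by
    intro F f x hx
    have h : ∀ y ∈ (gen D d).1, x * y * x⁻¹ ∈ F.1 := by
      intro y hy
      obtain ⟨k, rfl⟩ := Subgroup.mem_zpowers_iff.1 hy
      have h1 : x * (d : G) ^ k * x⁻¹ = (x * d * x⁻¹) ^ k := by
        rw [conj_zpow]
      rw [h1, hx]
      exact F.1.zpow_mem f.2 k
    rw [hl_nat fL Θ l hnat (gen D d) F x h m]
    congr 1
    apply Subtype.ext
    exact hx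
  rw [← key D d 1 (by simp), key D' d' g hg]

private theorem hl_van (Θ : ∀ D : Good G N, ((D.1 →* Oˣ) → P → ℤ) →+ V) (l : V →ₗ[ℚ] ℚ)
    (pr : P → ℕ)
    (hnat : ∀ (D D' : Good G N) (g : G) (h : ∀ x ∈ D.1, g * x * g⁻¹ ∈ D'.1)
      (n : (D.1 →* Oˣ) → P → ℤ), Θ D' (fun χ m => n (χ.comp (conjHom g D.1 D'.1 h)) m) = Θ D n)
    (hvan : ∀ (D : Good G N) (n : (D.1 →* Oˣ) → P → ℤ),
      (∀ χ m, n χ m ≠ 0 → ¬ pr m ∣ Nat.card D.1) → Θ D n = 0)
    (D : Good G N) (m : P) (d : D.1) (hm : ¬ pr m ∣ orderOf (d : G)) :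
    hl fL Θ l D m d = 0 := by
  classical
  rw [hl_conj fL Θ l hnat D (gen D d) m d ⟨d, Subgroup.mem_zpowers (d : G)⟩ (IsConj.refl _)]
  unfold hl
  have h1 : ∀ χ : (gen D d).1 →* Oˣ, el Θ l (gen D d) m χ = 0 := by
    intro χ
    unfold el
    rw [hvan, map_zero]
    intro χ' m' hne
    have hm' : m' = m := by
      by_contra hmm
      apply hne
      by_cases hχ : χ' = χ
      · rw [hχ, Pi.single_eq_same, Pi.single_eq_of_ne hmm]
      · rw [Pi.single_eq_of_ne hχ]; rfl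
    rw [hm', gen_card]
    exact hm
  simp only [h1, Rat.cast_zero, mul_zero, finsum_zero]

private theorem hl_sum (Θ : ∀ D : Good G N, ((D.1 →* Oˣ) → P → ℤ) →+ V) (l : V →ₗ[ℚ] ℚ)
    (hconst : ∀ (D : Good G N) (k : (D.1 →* Oˣ) → ℤ), Θ D (fun χ _ => k χ) = 0)
    (D : Good G N) (d : D.1) : ∑ m : P, hl fL Θ l D m d = 0 := by
  classical
  have := good_dual O D
  let _ : Fintype (D.1 →* Oˣ) := Fintype.ofFinite _
  unfold hl
  simp only [finsum_eq_sum_of_fintype]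
  rw [Finset.sum_comm]
  refine Finset.sum_eq_zero fun χ _ => ?_
  rw [← Finset.mul_sum, ← Rat.cast_sum]
  have h1 : ∑ m : P, el Θ l D m χ = 0 := by
    unfold el
    rw [← map_sum, ← map_sum]
    have h2 : ∑ m : P, (Pi.single χ (Pi.single m 1) : (D.1 →* Oˣ) → P → ℤ)
        = fun χ' _ => if χ' = χ then 1 else 0 := by
      funext χ' m'
      rw [Finset.sum_apply, Finset.sum_apply]
      by_cases hχ : χ' = χ
      · subst hχ
        simp [Pi.single_apply]
      · simp [hχ]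
    rw [h2, hconst, map_zero]
  rw [h1, Rat.cast_zero, mul_zero]

private theorem hl_inv (Θ : ∀ D : Good G N, ((D.1 →* Oˣ) → P → ℤ) →+ V) (l : V →ₗ[ℚ] ℚ)
    (D : Good G N) [Fintype D.1] (m : P) (χ : D.1 →* Oˣ) :
    (el Θ l D m χ : L) = (Fintype.card D.1 : L)⁻¹ *
      ∑ d : D.1, fL (((χ d)⁻¹ : Oˣ) : O) * hl fL Θ l D m d := by
  classical
  have := good_dual O D
  let _ : Fintype (D.1 →* Oˣ) := Fintype.ofFinite _
  unfold hl
  simp only [finsum_eq_sum_of_fintype, Finset.mul_sum]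
  rw [Finset.sum_comm]
  have h1 : ∀ χ' : D.1 →* Oˣ, ∑ d : D.1, (Fintype.card D.1 : L)⁻¹ *
      (fL (((χ d)⁻¹ : Oˣ) : O) * (fL ((χ' d : Oˣ) : O) * (el Θ l D m χ' : L))) =
      if χ = χ' then (el Θ l D m χ' : L) else 0 := by
    intro χ'
    have h2 : ∀ d : D.1, (Fintype.card D.1 : L)⁻¹ *
      (fL (((χ d)⁻¹ : Oˣ) : O) * (fL ((χ' d : Oˣ) : O) * (el Θ l D m χ' : L))) =
      (Fintype.card D.1 : L)⁻¹ * (el Θ l D m χ' : L) * fL ((((χ⁻¹ * χ') d : Oˣ)) : O) := by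
      intro d
      rw [MonoidHom.mul_apply, MonoidHom.inv_apply, Units.val_mul, map_mul]
      ring
    rw [Finset.sum_congr rfl fun d _ => h2 d, ← Finset.mul_sum, ← map_sum]
    by_cases hχ : χ = χ'
    · subst hχ
      have hone : χ⁻¹ * χ = 1 := inv_mul_cancel χ
      rw [if_pos rfl, hone]
      simp only [MonoidHom.one_apply, Units.val_one, Finset.sum_const, Finset.card_univ,
        nsmul_eq_mul, mul_one, map_natCast]
      have hcard : (Fintype.card D.1 : L) ≠ 0 := by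
        exact_mod_cast Fintype.card_ne_zero
      field_simp
    · rw [if_neg hχ, sum_chi, map_zero, mul_zero]
      intro h0
      apply hχ
      exact inv_mul_eq_one.1 h0
  rw [Finset.sum_congr rfl fun χ' _ => h1 χ', Finset.sum_ite_eq, if_pos (Finset.mem_univ _)]

private theorem l_expand (Θ : ∀ D : Good G N, ((D.1 →* Oˣ) → P → ℤ) →+ V) (l : V →ₗ[ℚ] ℚ)
    (D : Good G N) [Fintype (D.1 →* Oˣ)] (n : (D.1 →* Oˣ) → P → ℤ) :
    ((l (Θ D n) : ℚ) : L) = ∑ χ : D.1 →* Oˣ, ∑ m : P, (n χ m : L) * (el Θ l D m χ : L) := by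
  classical
  have h1 : n = ∑ χ : D.1 →* Oˣ, ∑ m : P,
      n χ m • (Pi.single χ (Pi.single m 1) : (D.1 →* Oˣ) → P → ℤ) := by
    funext χ m
    rw [Finset.sum_apply, Finset.sum_apply, Finset.sum_eq_single χ]
    · rw [Finset.sum_apply, Finset.sum_apply, Finset.sum_eq_single m]
      · simp
      · intro m' _ hm'
        rw [Pi.smul_apply, Pi.smul_apply, Pi.single_eq_same, Pi.single_eq_of_ne (Ne.symm hm'),
          smul_zero]
      · intro h; exact absurd (Finset.mem_univ m) h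
    · intro χ' _ hχ'
      rw [Finset.sum_apply, Finset.sum_apply]
      refine Finset.sum_eq_zero fun m' _ => ?_
      rw [Pi.smul_apply, Pi.smul_apply, Pi.single_eq_of_ne (Ne.symm hχ'), Pi.zero_apply, smul_zero]
    · intro h; exact absurd (Finset.mem_univ χ) h
  conv_lhs => rw [h1]
  simp only [map_sum, map_zsmul, Rat.cast_sum]
  refine Finset.sum_congr rfl fun χ _ => Finset.sum_congr rfl fun m _ => ?_
  rw [zsmul_eq_mul, Rat.cast_mul, Rat.cast_intCast]
  rfl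

end aux

open Classical in
theorem linalg {O : Type} [CommRing O] [IsDomain O] (N : ℕ) [NeZero N]
    [HasEnoughRootsOfUnity O N] {L : Type} [Field L] [CharZero L]
    (fL : O →+* L) (hfL : Function.Injective fL) {G : Type v} [Group G]
    {P : Type} [Fintype P] (pr : P → ℕ) {V : Type w} [AddCommGroup V] [Module ℚ V]
    (Θ : ∀ D : Good G N, ((D.1 →* Oˣ) → P → ℤ) →+ V)
    (hnat : ∀ (D D' : Good G N) (g : G) (h : ∀ x ∈ D.1, g * x * g⁻¹ ∈ D'.1)
      (n : (D.1 →* Oˣ) → P → ℤ), Θ D' (fun χ m => n (χ.comp (conjHom g D.1 D'.1 h)) m) = Θ D n)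
    (hconst : ∀ (D : Good G N) (k : (D.1 →* Oˣ) → ℤ), Θ D (fun χ _ => k χ) = 0)
    (hvan : ∀ (D : Good G N) (n : (D.1 →* Oˣ) → P → ℤ),
      (∀ χ m, n χ m ≠ 0 → ¬ pr m ∣ Nat.card D.1) → Θ D n = 0)
    {ι : Type} [Fintype ι] (C : ι → Good G N) [∀ i, Fintype (C i).1]
    [∀ i, Fintype ((C i).1 →* Oˣ)] (n : ∀ i, ((C i).1 →* Oˣ) → P → ℤ) (s : G → L)
    (hs : ∀ (m : P) (c : G), 0 < orderOf c → pr m ∣ orderOf c →
      ∑ i, ∑ χ : (C i).1 →* Oˣ, (n i χ m : L) * ((Fintype.card (C i).1 : L)⁻¹ *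
        ∑ d : (C i).1, if IsConj c (d : G) then fL (((χ d)⁻¹ : Oˣ) : O) else 0) = s c) :
    ∑ i, Θ (C i) (n i) = 0 := by
  rw [← Module.forall_dual_apply_eq_zero_iff ℚ]
  intro l
  have hcast : ((l (∑ i, Θ (C i) (n i)) : ℚ) : L) = 0 → l (∑ i, Θ (C i) (n i)) = 0 := by
    intro h
    exact_mod_cast h
  apply hcast
  -- the class function
  have hex : ∀ (m : P) (c : G), ∃ y : L, ∀ (D : Good G N) (d : D.1), IsConj c (d : G) →
      hl fL Θ l D m d = y := by
    intro m c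
    by_cases h : ∃ (D : Good G N) (d : D.1), IsConj c (d : G)
    · obtain ⟨D, d, hd⟩ := h
      exact ⟨hl fL Θ l D m d, fun D' d' hd' => hl_conj fL Θ l hnat D' D m d' d
        (hd'.symm.trans hd)⟩
    · exact ⟨0, fun D d hd => absurd ⟨D, d, hd⟩ h⟩
  choose hh hhh using hex
  -- the finite set of classes
  obtain ⟨Γ, hΓ⟩ : ∃ Γ : Finset (ConjClasses G), Γ = Finset.univ.biUnion fun i =>
      Finset.univ.image fun d : (C i).1 => ConjClasses.mk (d : G) := ⟨_, rfl⟩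
  have hmemΓ : ∀ (i : ι) (d : (C i).1), ConjClasses.mk (d : G) ∈ Γ := by
    intro i d
    rw [hΓ, Finset.mem_biUnion]
    exact ⟨i, Finset.mem_univ i, Finset.mem_image_of_mem _ (Finset.mem_univ d)⟩
  have hrep : ∀ γ : ConjClasses G, ∃ c : G, ConjClasses.mk c = γ := fun γ => γ.exists_rep
  choose rp hrp using hrep
  have hconj : ∀ (γ : ConjClasses G) (x : G), IsConj (rp γ) x ↔ γ = ConjClasses.mk x := by
    intro γ x
    rw [← ConjClasses.mk_eq_mk_iff_isConj, hrp]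
  have hmain : ((l (∑ i, Θ (C i) (n i)) : ℚ) : L) = ∑ γ ∈ Γ, ∑ m : P, hh m (rp γ) *
      ∑ i, ∑ χ : (C i).1 →* Oˣ, (n i χ m : L) * ((Fintype.card (C i).1 : L)⁻¹ *
        ∑ d : (C i).1, if IsConj (rp γ) (d : G) then fL (((χ d)⁻¹ : Oˣ) : O) else 0) := by
    rw [map_sum, Rat.cast_sum]
    have h1 : ∀ i, ((l (Θ (C i) (n i)) : ℚ) : L) = ∑ m : P, ∑ χ : (C i).1 →* Oˣ,
        ∑ γ ∈ Γ, hh m (rp γ) * ((n i χ m : L) * ((Fintype.card (C i).1 : L)⁻¹ *
        ∑ d : (C i).1, if IsConj (rp γ) (d : G) then fL (((χ d)⁻¹ : Oˣ) : O) else 0)) := by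
      intro i
      rw [l_expand (L := L) Θ l (C i) (n i), Finset.sum_comm]
      refine Finset.sum_congr rfl fun m _ => Finset.sum_congr rfl fun χ _ => ?_
      rw [hl_inv fL Θ l (C i) m χ]
      have h2 : ∑ d : (C i).1, fL (((χ d)⁻¹ : Oˣ) : O) * hl fL Θ l (C i) m d =
          ∑ γ ∈ Γ, hh m (rp γ) *
            ∑ d : (C i).1, if IsConj (rp γ) (d : G) then fL (((χ d)⁻¹ : Oˣ) : O) else 0 := by
        simp only [Finset.mul_sum]
        rw [Finset.sum_comm]
        refine Finset.sum_congr rfl fun d _ => ?_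
        rw [Finset.sum_eq_single (ConjClasses.mk (d : G))]
        · have h3 : IsConj (rp (ConjClasses.mk (d : G))) (d : G) := (hconj _ _).2 rfl
          rw [if_pos h3, hhh m _ (C i) d h3, mul_comm]
        · intro γ _ hγ
          rw [if_neg (fun h3 => hγ ((hconj _ _).1 h3)), mul_zero]
        · intro h3
          exact absurd (hmemΓ i d) h3
      rw [h2, Finset.mul_sum, Finset.mul_sum]
      refine Finset.sum_congr rfl fun γ _ => ?_
      ring
    rw [Finset.sum_congr rfl fun i _ => h1 i, Finset.sum_comm]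
    simp only [Finset.mul_sum]
    rw [Finset.sum_comm (s := Γ)]
    refine Finset.sum_congr rfl fun m _ => ?_
    rw [Finset.sum_comm (s := Γ)]
    refine Finset.sum_congr rfl fun i _ => ?_
    rw [Finset.sum_comm (s := Γ)]
  rw [hmain]
  refine Finset.sum_eq_zero fun γ hγ => ?_
  rw [hΓ, Finset.mem_biUnion] at hγ
  obtain ⟨i₀, -, hγ⟩ := hγ
  obtain ⟨d₀, -, hd₀⟩ := Finset.mem_image.1 hγ
  have hcd : IsConj (rp γ) (d₀ : G) := (hconj _ _).2 hd₀.symm
  have hord : orderOf (rp γ) = orderOf (d₀ : G) := by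
    obtain ⟨g, hg⟩ := isConj_iff.1 hcd
    have h4 : SemiconjBy g (rp γ) (d₀ : G) := by
      unfold SemiconjBy
      rw [← hg]; group
    exact h4.orderOf_eq
  have hpos : 0 < orderOf (rp γ) := by
    rw [hord, Subgroup.orderOf_coe]
    exact orderOf_pos d₀
  have hterm : ∀ m : P, hh m (rp γ) *
      ∑ i, ∑ χ : (C i).1 →* Oˣ, (n i χ m : L) * ((Fintype.card (C i).1 : L)⁻¹ *
        ∑ d : (C i).1, if IsConj (rp γ) (d : G) then fL (((χ d)⁻¹ : Oˣ) : O) else 0) =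
      s (rp γ) * hl fL Θ l (C i₀) m d₀ := by
    intro m
    by_cases hm : pr m ∣ orderOf (rp γ)
    · rw [hs m (rp γ) hpos hm, ← hhh m (rp γ) (C i₀) d₀ hcd, mul_comm]
    · have h0 : hl fL Θ l (C i₀) m d₀ = 0 := by
        apply hl_van fL Θ l pr hnat hvan
        rw [← hord]; exact hm
      rw [← hhh m (rp γ) (C i₀) d₀ hcd, h0, zero_mul, mul_zero]
  rw [Finset.sum_congr rfl fun m _ => hterm m, ← Finset.mul_sum, hl_sum fL Θ l hconst, mul_zero]

end Pool.Agent.H95.KM
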