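import Pool.Agent.H95.KM.LinDefs

/-!
# Project KM, module Kap: the homomorphism `K₀(B) → M`, `[e] ↦ Δ(t e + 1 - e)`

`StabHom`, `blk`, `rei`, `mapU` are in `Pool/Agent/H95/KM/SqDefs.lean`, `mono`, `tU` in
`Pool/Agent/H95/KM/LinDefs.lean`; `K0.lift` in `Pool/Agent/H71/FJ/K0.lean`.
`Δ : StabHom B[T;T⁻¹] M` kills constant units (`hc`).

PROOF of `D_tU_congr`.  Let `x y = e`, `y x = f` (`e : m × m`, `f : n × n`); replacing `x` by
`e x f` and `y` by `f y e` we may assume `e x = x = x f`, `f y = y = y e` (still `x y = e`,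
`y x = f`).  Put `w = [[1 - e, x], [y, 1 - f]]` (size `m ⊕ n`, over `B`).  `w w = 1`, and
`w · diag(e, 0) · w = diag(0, f)`.  Hence `w (t diag(e, 0) + 1 - diag(e, 0)) w
= t diag(0, f) + 1 - diag(0, f)`, i.e. `blk (tU e) 1` and `blk 1 (tU f)` differ by conjugation with
the constant unit `w`; so `Δ.D (tU e) = Δ.D (blk (tU e) 1) = 2 Δ.D w + .. = Δ.D (blk 1 (tU f))
= Δ.D (tU f)` by `map_mul`, `hc`, `map_blk`, `map_one`.
-/

set_option autoImplicit false

open Matrix
open scoped LaurentPolynomial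

universe u v w

namespace Pool.Agent.H95.KM

open Pool.Agent.H71.FJ

variable {B : Type u} [Ring B] {M : Type v} [AddCommGroup M] (Δ : StabHom B[T;T⁻¹] M)
  (hc : ∀ {m : Type} [Fintype m] [DecidableEq m] (g : (Matrix m m B)ˣ),
    Δ.D (mapU (cst B) g) = 0)

theorem mono_fromBlocks (k : ℤ) {l m n o : Type*} (P : Matrix l n B) (Q : Matrix l o B)
    (R : Matrix m n B) (S : Matrix m o B) :
    mono k (fromBlocks P Q R S) = fromBlocks (mono k P) (mono k Q) (mono k R) (mono k S) :=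
  fromBlocks_map _ _ _ _ _

theorem blk_tU_one {m n : Type} [Fintype m] [DecidableEq m] [Fintype n] [DecidableEq n]
    {e : Matrix m m B} {f : Matrix n n B} (he : e * e = e) (hf : f * f = f) :
    blk (tU 1 e he) (tU 1 f hf) =
      tU 1 (fromBlocks e 0 0 f) (K0.fromBlocks_idem he hf) := by
  apply Units.ext
  change fromBlocks (mono 1 e + mono 0 (1 - e)) 0 0 (mono 1 f + mono 0 (1 - f)) =
    mono 1 (fromBlocks e 0 0 f) + mono 0 (1 - fromBlocks e 0 0 f)
  have h : (1 : Matrix (m ⊕ n) (m ⊕ n) B) - fromBlocks e 0 0 f =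
      fromBlocks (1 - e) 0 0 (1 - f) := by
    rw [sub_eq_iff_eq_add, fromBlocks_add, ← fromBlocks_one]
    simp
  rw [h, mono_fromBlocks, mono_fromBlocks, fromBlocks_add]
  simp [mono_zero]

theorem zero_idem {m : Type} [Fintype m] : (0 : Matrix m m B) * 0 = 0 := mul_zero _

theorem tU_zero {m : Type} [Fintype m] [DecidableEq m] :
    tU 1 (0 : Matrix m m B) zero_idem = 1 := by
  apply Units.ext
  change mono 1 (0 : Matrix m m B) + mono 0 (1 - 0) = 1
  rw [mono_zero, sub_zero, mono_one, zero_add]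

theorem D_tU_blk {m n : Type} [Fintype m] [DecidableEq m] [Fintype n] [DecidableEq n]
    {e : Matrix m m B} {f : Matrix n n B} (he : e * e = e) (hf : f * f = f) :
    Δ.D (tU 1 (fromBlocks e 0 0 f) (K0.fromBlocks_idem he hf)) =
      Δ.D (tU 1 e he) + Δ.D (tU 1 f hf) := by
  rw [← blk_tU_one he hf, Δ.map_blk]

include hc in
/-- conjugation by a constant involution -/
theorem D_tU_conj {m : Type} [Fintype m] [DecidableEq m] {e f : Matrix m m B}
    (he : e * e = e) (hf : f * f = f) (w : Matrix m m B) (hw : w * w = 1)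
    (h : w * e * w = f) : Δ.D (tU 1 e he) = Δ.D (tU 1 f hf) := by
  let W : (Matrix m m B)ˣ := ⟨w, w, hw, hw⟩
  have h1 : mapU (cst B) W * tU 1 e he * mapU (cst B) W = tU 1 f hf := by
    apply Units.ext
    have h2 : w.map (cst B) = mono 0 w := rfl
    change w.map (cst B) * (mono 1 e + mono 0 (1 - e)) * w.map (cst B) =
      mono 1 f + mono 0 (1 - f)
    rw [h2, mul_add, add_mul, mono_mul, mono_mul, mono_mul, mono_mul, zero_add, add_zero, add_zero,
      add_zero, h, mul_sub, mul_one, sub_mul, hw, h]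
  rw [← h1, Δ.map_mul, Δ.map_mul, hc, zero_add, add_zero]

include hc in
theorem D_tU_congr {m n : Type} [Fintype m] [DecidableEq m] [Fintype n] [DecidableEq n]
    {e : Matrix m m B} {f : Matrix n n B} (he : e * e = e) (hf : f * f = f) (h : MatEquiv e f) :
    Δ.D (tU 1 e he) = Δ.D (tU 1 f hf) := by
  obtain ⟨x₀, y₀, h1, h2⟩ := h
  obtain ⟨x, hx⟩ : ∃ x, x = e * x₀ * f := ⟨_, rfl⟩
  obtain ⟨y, hy⟩ : ∃ y, y = f * y₀ * e := ⟨_, rfl⟩
  have hex : e * x = x := by rw [hx, ← Matrix.mul_assoc, ← Matrix.mul_assoc, he]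
  have hxf : x * f = x := by rw [hx, Matrix.mul_assoc, hf]
  have hfy : f * y = y := by rw [hy, ← Matrix.mul_assoc, ← Matrix.mul_assoc, hf]
  have hye : y * e = y := by rw [hy, Matrix.mul_assoc, he]
  have hxy : x * y = e := by
    calc x * y = e * x₀ * (f * f) * y₀ * e := by rw [hx, hy]; simp only [Matrix.mul_assoc]
      _ = e * (x₀ * y₀) * (x₀ * y₀) * e := by rw [hf, ← h2]; simp only [Matrix.mul_assoc]
      _ = e := by rw [h1, he, he, he]
  have hyx : y * x = f := by
    calc y * x = f * y₀ * (e * e) * x₀ * f := by rw [hx, hy]; simp only [Matrix.mul_assoc]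
      _ = f * (y₀ * x₀) * (y₀ * x₀) * f := by rw [he, ← h1]; simp only [Matrix.mul_assoc]
      _ = f := by rw [h2, hf, hf, hf]
  have key := D_tU_conj Δ hc (K0.fromBlocks_idem he (zero_idem (m := n)))
    (K0.fromBlocks_idem (zero_idem (m := m)) hf) (fromBlocks (1 - e) x y (1 - f))
    (by
      rw [fromBlocks_multiply, sub_idem he, sub_idem hf, hxy, hyx, ← fromBlocks_one,
        Matrix.sub_mul, Matrix.one_mul, hex, Matrix.mul_sub, Matrix.mul_one, hxf, Matrix.mul_sub,
        Matrix.mul_one, hye, Matrix.sub_mul, Matrix.one_mul, hfy]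
      simp)
    (by
      rw [fromBlocks_multiply, fromBlocks_multiply]
      have e1 : (1 - e) * e = 0 := by rw [sub_mul, one_mul, he, sub_self]
      have e2 : y * (1 - e) = 0 := by rw [Matrix.mul_sub, Matrix.mul_one, hye, sub_self]
      simp [e1, hye, e2, hyx])
  rw [D_tU_blk Δ he (zero_idem (m := n)), D_tU_blk Δ (zero_idem (m := m)) hf, tU_zero, tU_zero,
    Δ.map_one, Δ.map_one, add_zero, zero_add] at key
  exact key

include hc in
/-- There is a homomorphism `K₀(B) → M` with `[e] ↦ Δ(t e + 1 - e)`. -/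
theorem exists_kap : ∃ κ : K0 B →+ M, ∀ {m : Type} [Fintype m] [DecidableEq m]
    (e : Matrix m m B) (he : e * e = e), κ (K0.cls e he) = Δ.D (tU 1 e he) := by
  refine ⟨K0.lift (fun a => Δ.D (tU 1 a.mat a.idem))
    (fun a b h => D_tU_congr Δ hc a.idem b.idem h) (fun a b => ?_), ?_⟩
  · rw [← D_tU_blk Δ a.idem b.idem]
    exact D_tU_congr Δ hc (a.sum b).idem _
      (K0.matEquiv_submatrix _ (K0.fromBlocks_idem a.idem b.idem) _)
  · intro m _ _ e he
    rw [K0.cls, K0.lift_mk]
    exact D_tU_congr Δ hc _ he (K0.toFin_equiv e he)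

end Pool.Agent.H95.KM
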