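import Pool.Agent.H95.KM.SqDefs

/-!
# Project KM, module SqEx: exactness at `K₀(Γ)`

Definitions in `Pool/Agent/H95/KM/SqDefs.lean`; `exists_stab`, `matEquiv_stab_mono`,
`exists_sub_one` in `Pool/Agent/H95/KM/Stab.lean`.

Besides the square `Q` there is a ring `Gb` with a surjection `s : Γ → Gb` and a homomorphism
`ι : Gb → B` with `ι s = π φ` (think of `Gb = Γ / φ⁻¹(ker π)`).

PROOF of `exists_dl_of_matEquiv`.  `H` an idempotent matrix over `Γ` (index `n`); `x y = 1`,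
`y x = φ(H)` over `𝓜` (`x : m × n`, `y : n × m`), `u v = 1`, `v u = s(H)` over `Gb`.
Choose `u₀ : m × n`, `v₀ : n × m` over `Γ` with `s(u₀) = u`, `s(v₀) = v` and put `ũ = u₀ H`,
`ṽ = H v₀`.  `s(ũ) = u v u = u`, `s(ṽ) = v u v = v`.
Put `a = x φ(ṽ)`, `b = φ(ũ) y` (`m × m` over `𝓜`).  Then (with `r = π φ = ι s`)
`π(a) π(b) = π(x) r(ṽ) r(ũ) π(y) = π(x) ι(v u) π(y) = π(x) r(H) π(y) = π(x y x y) = 1` and
`π(b) π(a) = r(ũ) π(y x) r(ṽ) = r(ũ H ṽ) = ι(u (v u) v) = 1`.  So `g = π(a)` is a unit with inverse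
`π(b)`.  `(x, y, H)` represents `g`:
`π(x) = π(x y x) = π(x) r(H) = π(x) ι(v u) = π(x) r(ṽ) r(ũ) = g r(ũ)` and
`π(y) = r(H) π(y) = ι(v u) π(y) = r(ṽ) r(ũ) π(y) = r(ṽ) g⁻¹`.
Hence `dl g = [H] - [1_m]` by `Sq.dl_eq`.

PROOF of `exact`.  By `exists_sub_one` `z = [H] - [1_m]`.  The hypotheses give
`[φ(H)] = [1_m]` in `K₀(𝓜)` and `[s(H)] = [1_m]` in `K₀(Gb)`, so for some common `k`
`φ(H) ⊕ 1_k ≈ 1_m ⊕ 1_k` over `𝓜` and `s(H) ⊕ 1_k ≈ 1_m ⊕ 1_k` over `Gb`
(`exists_stab`, `matEquiv_stab_mono`; `fromBlocks 1 0 0 1 = 1`).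
Apply `exists_dl_of_matEquiv` to `H ⊕ 1_k`.
-/

set_option autoImplicit false

open Matrix
open scoped LaurentPolynomial

universe u v w t

namespace Pool.Agent.H95.KM

open Pool.Agent.H71.FJ

namespace Sq

variable {Γ : Type u} {𝓜 : Type v} {B : Type w} [Ring Γ] [Ring 𝓜] [Ring B] (Q : Sq Γ 𝓜 B)
  {Gb : Type t} [Ring Gb] (s : Γ →+* Gb) (ι : Gb →+* B)

theorem exists_dl_of_matEquiv (hs : Function.Surjective s) (hι : ι.comp s = Q.π.comp Q.φ)
    {m n : Type} [Fintype m] [DecidableEq m] [Fintype n] [DecidableEq n]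
    (H : Matrix n n Γ) (hH : H * H = H)
    (h1 : MatEquiv (H.map Q.φ) (1 : Matrix m m 𝓜))
    (h2 : MatEquiv (H.map s) (1 : Matrix m m Gb)) :
    ∃ g : (Matrix m m B)ˣ,
      Q.dl g = K0.cls H hH - K0.cls (1 : Matrix m m Γ) one_idem := by
  obtain ⟨y, x, hyx, hxy⟩ := h1
  obtain ⟨v, u, hvu, huv⟩ := h2
  obtain ⟨u₀, hu₀⟩ := exists_matrix_lift s u (fun i j => hs _)
  obtain ⟨v₀, hv₀⟩ := exists_matrix_lift s v (fun i j => hs _)
  set r : Γ →+* B := Q.π.comp Q.φ with hr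
  have hcomp : ∀ {a b : Type} (Z : Matrix a b Γ), (Z.map Q.φ).map Q.π = Z.map r := by
    intro a b Z; ext i j; rfl
  have hcomp' : ∀ {a b : Type} (Z : Matrix a b Γ), (Z.map s).map ι = Z.map r := by
    intro a b Z
    ext i j
    exact congrArg (fun f : Γ →+* B => f (Z i j)) hι
  -- products
  have hU : (u₀ * H).map s = u := by
    rw [Matrix.map_mul, hu₀, ← hvu, ← Matrix.mul_assoc, huv, Matrix.one_mul]
  have hV : (H * v₀).map s = v := by
    rw [Matrix.map_mul, hv₀, ← hvu, Matrix.mul_assoc, huv, Matrix.mul_one]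
  have hVU : (H * v₀).map r * (u₀ * H).map r = H.map r := by
    rw [← hcomp', ← hcomp', hU, hV, ← Matrix.map_mul, hvu, hcomp']
  have hUV : (u₀ * H).map r * (H * v₀).map r = 1 := by
    rw [← hcomp', ← hcomp', hU, hV, ← Matrix.map_mul, huv,
      Matrix.map_one _ (map_zero ι) (map_one ι)]
  have hyxr : y.map Q.π * x.map Q.π = H.map r := by
    rw [← Matrix.map_mul, hyx, hcomp]
  have hxyr : x.map Q.π * y.map Q.π = 1 := by
    rw [← Matrix.map_mul, hxy, Matrix.map_one _ (map_zero Q.π) (map_one Q.π)]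
  have hHH : H.map r * H.map r = H.map r := by rw [← Matrix.map_mul, hH]
  have hxH : x.map Q.π * H.map r = x.map Q.π := by
    rw [← hyxr, ← Matrix.mul_assoc, hxyr, Matrix.one_mul]
  have hHy : H.map r * y.map Q.π = y.map Q.π := by
    rw [← hyxr, Matrix.mul_assoc, hxyr, Matrix.mul_one]
  have hgg : x.map Q.π * (H * v₀).map r * ((u₀ * H).map r * y.map Q.π) = 1 := by
    rw [Matrix.mul_assoc, ← Matrix.mul_assoc ((H * v₀).map r), hVU, hHy, hxyr]
  have hgg' : (u₀ * H).map r * y.map Q.π * (x.map Q.π * (H * v₀).map r) = 1 := by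
    rw [Matrix.mul_assoc, ← Matrix.mul_assoc (y.map Q.π), hyxr, ← Matrix.map_mul,
      ← Matrix.mul_assoc, hH, hUV]
  let g : (Matrix m m B)ˣ := ⟨x.map Q.π * (H * v₀).map r, (u₀ * H).map r * y.map Q.π, hgg, hgg'⟩
  refine ⟨g, ?_⟩
  have hrep : Q.IsRep g x y H := by
    refine ⟨hxy, hyx, ⟨u₀ * H, ?_⟩, ⟨H * v₀, ?_⟩⟩
    · change x.map Q.π = x.map Q.π * (H * v₀).map r * (u₀ * H).map r
      rw [Matrix.mul_assoc, hVU, hxH]
    · change y.map Q.π = (H * v₀).map r * ((u₀ * H).map r * y.map Q.π)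
      rw [← Matrix.mul_assoc, hVU, hHy]
  rw [dl_eq hrep]

private theorem sqex_stab {R : Type*} [Ring R] {m n : Type} [Fintype m] [DecidableEq m]
    [Fintype n] [DecidableEq n] (E : Matrix n n R) (hE : E * E = E)
    (h : K0.cls E hE = K0.cls (1 : Matrix m m R) one_idem) :
    ∃ k : ℕ, ∀ l, k ≤ l → MatEquiv (fromBlocks E 0 0 (1 : Matrix (Fin l) (Fin l) R))
      (1 : Matrix (m ⊕ Fin l) (m ⊕ Fin l) R) := by
  obtain ⟨k, hk⟩ := exists_stab E (1 : Matrix m m R) hE one_idem h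
  refine ⟨k, fun l hl => ?_⟩
  have := matEquiv_stab_mono E (1 : Matrix m m R) hE one_idem hl hk
  rwa [fromBlocks_one] at this

theorem exact (hs : Function.Surjective s) (hι : ι.comp s = Q.π.comp Q.φ) (z : K0 Γ)
    (h1 : K0.map Q.φ z = 0) (h2 : K0.map s z = 0) :
    ∃ (m : ℕ) (g : (Matrix (Fin m) (Fin m) B)ˣ), z = Q.dl g := by
  obtain ⟨n, m, H, hH, rfl⟩ := exists_sub_one z
  rw [map_sub, sub_eq_zero, K0.map_cls, K0.map_cls] at h1 h2
  have h1' : K0.cls (H.map Q.φ) (K0.map_idem Q.φ hH) =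
      K0.cls (1 : Matrix (Fin m) (Fin m) 𝓜) one_idem := by
    rw [h1]
    congr 1
    exact Matrix.map_one _ (map_zero Q.φ) (map_one Q.φ)
  have h2' : K0.cls (H.map s) (K0.map_idem s hH) =
      K0.cls (1 : Matrix (Fin m) (Fin m) Gb) one_idem := by
    rw [h2]
    congr 1
    exact Matrix.map_one _ (map_zero s) (map_one s)
  obtain ⟨k1, hk1⟩ := sqex_stab _ _ h1'
  obtain ⟨k2, hk2⟩ := sqex_stab _ _ h2'
  set k := max k1 k2 with hk
  have e1 := hk1 k (le_max_left _ _)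
  have e2 := hk2 k (le_max_right _ _)
  have f1 : MatEquiv ((fromBlocks H 0 0 (1 : Matrix (Fin k) (Fin k) Γ)).map Q.φ)
      (1 : Matrix (Fin (m + k)) (Fin (m + k)) 𝓜) := by
    rw [fromBlocks_map, Matrix.map_one _ (map_zero Q.φ) (map_one Q.φ),
      Matrix.map_zero _ (map_zero Q.φ), Matrix.map_zero _ (map_zero Q.φ)]
    refine K0.matEquiv_trans (K0.fromBlocks_idem (K0.map_idem Q.φ hH) one_idem) one_idem e1 ?_
    have := K0.matEquiv_submatrix (1 : Matrix (Fin m ⊕ Fin k) (Fin m ⊕ Fin k) 𝓜) one_idem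
      finSumFinEquiv.symm
    rw [submatrix_one_equiv] at this
    exact K0.matEquiv_symm this
  have f2 : MatEquiv ((fromBlocks H 0 0 (1 : Matrix (Fin k) (Fin k) Γ)).map s)
      (1 : Matrix (Fin (m + k)) (Fin (m + k)) Gb) := by
    rw [fromBlocks_map, Matrix.map_one _ (map_zero s) (map_one s),
      Matrix.map_zero _ (map_zero s), Matrix.map_zero _ (map_zero s)]
    refine K0.matEquiv_trans (K0.fromBlocks_idem (K0.map_idem s hH) one_idem) one_idem e2 ?_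
    have := K0.matEquiv_submatrix (1 : Matrix (Fin m ⊕ Fin k) (Fin m ⊕ Fin k) Gb) one_idem
      finSumFinEquiv.symm
    rw [submatrix_one_equiv] at this
    exact K0.matEquiv_symm this
  obtain ⟨g, hg⟩ := Q.exists_dl_of_matEquiv s ι hs hι (fromBlocks H 0 0 1)
    (K0.fromBlocks_idem hH one_idem) f1 f2
  refine ⟨m + k, g, ?_⟩
  rw [hg, K0.cls_fromBlocks hH one_idem]
  have h3 : K0.cls (1 : Matrix (Fin (m + k)) (Fin (m + k)) Γ) one_idem =
      K0.cls (1 : Matrix (Fin m) (Fin m) Γ) one_idem +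
        K0.cls (1 : Matrix (Fin k) (Fin k) Γ) one_idem := by
    rw [← K0.cls_fromBlocks]
    apply K0.cls_congr
    rw [fromBlocks_one]
    have := K0.matEquiv_submatrix (1 : Matrix (Fin m ⊕ Fin k) (Fin m ⊕ Fin k) Γ) one_idem
      finSumFinEquiv.symm
    rwa [submatrix_one_equiv] at this
  rw [h3]
  abel

end Sq

end Pool.Agent.H95.KM
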