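import Pool.Agent.H95.KM.ThetaDefs

/-!
# Project KM, module Theta: properties of the classes `Θ(n)`

Definitions (`Theta`, `un`, `uN`, `unComp`, `cmp`, `cmp_ext`, `cmp_un`, `exists_cmp`, `kappa`,
`sqC`) in `Pool/Agent/H95/KM/ThetaDefs.lean`; `fou`, `fou_mapDomain`, `exists_fou` in
`Pool/Agent/H95/KM/FouDefs.lean`, `Pool/Agent/H95/KM/Fou.lean`; `Sq.DD`, `DD_lift`, `DD_base`,
`DD_map` in `Pool/Agent/H95/KM/SqLau.lean`.

* `Theta_add`: `uN n * uN n' = uN (n + n')` (`un_mul`), `StabHom.map_mul`.
* `Theta_zero`: `uN 0 = 1`, `StabHom.map_one`.  `Theta_neg` follows.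
* `Theta_map`: for `h : C →* C'` there is a morphism of squares `sqC id N C → sqC id N C'` with
  `a = mapDomainRingHom O h`, `b F χ' = F (χ'.comp h)`, `c F χ' = F (χ'.comp h)`
  (`hφ` is `fou_mapDomain`).  `mapU (lau c) (uN n) = uN (fun χ' m => n (χ'.comp h) m)` since the
  component at `χ'` of `lau c (un n)` is the component at `χ'.comp h` of `un n` (`lau_comp`,
  `cmp_ext`).  Then `DD_map`.
* `Theta_const`: `n χ m = k χ` does not depend on `m`.  By `exists_cmp` there are `U`, `U'` in
  `((C →* Oˣ) → O)[T;T⁻¹]` with components `single (k χ) 1` and `single (-k χ) 1`; they are inverse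
  to each other, and `lau π U = un n` because `∑_m single (k χ) (kappa m) = single (k χ) 1`.
  Use `DD_lift`.
* `Theta_vanish`: suppose `n χ m ≠ 0` only for `m` with `|C| ∉ m`.  Fix such an `m`: the element
  `|C| kappa m + (1 - kappa m)` of `A = O / N` is in no maximal ideal (`kappa m ∉ m`, `kappa m ∈ m'`
  for `m' ≠ m` as `kappa m * kappa m' = 0`), hence is a unit (`isUnit_of_forall_notMem`), so there
  is `s` with `|C| s (kappa m) = kappa m`; let `r m ∈ O` be a lift of `s (kappa m)`, so
  `kappa m = |C| r m` in `O / N`.  For the `m` with `|C| ∈ m` put `r m = 0`.  Then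
  `unComp (n χ) = 1 + ∑_m (t^(n χ m) - 1) kappa m` is the image of `1 + |C| F χ` with
  `F χ = ∑_m (single (n χ m) (r m) - single 0 (r m)) ∈ O[t, t⁻¹]`.  Coefficientwise `exists_fou`
  (via `exists_lau` for `fou`, applied to the element of `((C →* Oˣ) → O)[t,t⁻¹]` with components
  `|C| F χ`) gives `V₀ ∈ O[C][t,t⁻¹]` with `cmp χ (lau fou V₀) = |C| F χ`.  So `V = 1 + V₀` maps to
  `un n`; similarly `V'` for `-n`.  Use `DD_base`.
-/

set_option autoImplicit false

open Matrix
open scoped LaurentPolynomial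

universe u v w

namespace Pool.Agent.H95.KM

open Pool.Agent.H71.FJ

variable {O : Type} [CommRing O] [IsDomain O] [CharZero O] (N : ℕ) [NeZero N]
  [HasEnoughRootsOfUnity O N] [Finite (Amod O N)]
  (C : Type v) [Group C] [Finite C] (hC : ∀ a b : C, a * b = b * a) (hN : Nat.card C ∣ N)

omit [IsDomain O] [CharZero O] [NeZero N] [HasEnoughRootsOfUnity O N] in
private theorem uN_mul_aux {X : Type v} [Finite X] (n n' : X → Pr O N → ℤ) :
    uN (O := O) (N := N) (n + n') = uN n * uN n' := by
  apply Units.ext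
  ext i j : 1
  rw [Units.val_mul]
  simp [uN, Matrix.mul_apply, un_mul]

omit [IsDomain O] [CharZero O] [NeZero N] [HasEnoughRootsOfUnity O N] in
private theorem uN_zero_aux {X : Type v} [Finite X] :
    uN (O := O) (N := N) (0 : X → Pr O N → ℤ) = 1 := by
  apply Units.ext
  ext i j : 1
  rw [Units.val_one]
  simp [uN, un_zero, Matrix.one_apply, Subsingleton.elim i j]

theorem Theta_add (n n' : (C →* Oˣ) → Pr O N → ℤ) :
    Theta N C hC hN (n + n') = Theta N C hC hN n + Theta N C hC hN n' := by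
  have := finite_dual (O := O) N hC hN
  change (sqC (RingHom.id O) N C hC hN).DD.D (uN (n + n')) =
    (sqC (RingHom.id O) N C hC hN).DD.D (uN n) + (sqC (RingHom.id O) N C hC hN).DD.D (uN n')
  rw [uN_mul_aux, StabHom.map_mul]

theorem Theta_zero : Theta N C hC hN (0 : (C →* Oˣ) → Pr O N → ℤ) = 0 := by
  have := finite_dual (O := O) N hC hN
  change (sqC (RingHom.id O) N C hC hN).DD.D (uN 0) = 0
  rw [uN_zero_aux, StabHom.map_one]

/-- The morphism of squares induced by a group homomorphism. -/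
private noncomputable def sqC_hom (C' : Type v) [Group C'] [Finite C']
    (hC' : ∀ a b : C', a * b = b * a) (hN' : Nat.card C' ∣ N) (h : C →* C') :
    SqHom (sqC (RingHom.id O) N C hC hN) (sqC (RingHom.id O) N C' hC' hN') where
  a := MonoidAlgebra.mapDomainRingHom O h
  b := RingHom.pi fun χ' => Pi.evalRingHom (fun _ => O) (χ'.comp h)
  c := RingHom.pi fun χ' => Pi.evalRingHom (fun _ => Amod O N) (χ'.comp h)
  hφ x := by
    funext χ'
    exact (fou_mapDomain (RingHom.id O) h x χ').symm
  hπ x := rfl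

theorem Theta_map (C' : Type v) [Group C'] [Finite C'] (hC' : ∀ a b : C', a * b = b * a)
    (hN' : Nat.card C' ∣ N) (h : C →* C') (n : (C →* Oˣ) → Pr O N → ℤ) :
    Theta N C' hC' hN' (fun χ m => n (χ.comp h) m) = ind O h (Theta N C hC hN n) := by
  have := finite_dual (O := O) N hC hN
  have := finite_dual (O := O) N hC' hN'
  have h1 := Sq.DD_map (sqC_hom N C hC hN C' hC' hN' h) (uN n)
  have h2 : mapU (lau (sqC_hom (O := O) N C hC hN C' hC' hN' h).c) (uN n) =
      uN (fun χ m => n (χ.comp h) m) := by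
    apply Units.ext
    ext i j : 1
    change lau (sqC_hom (O := O) N C hC hN C' hC' hN' h).c (un n) =
      un (fun χ m => n (χ.comp h) m)
    apply cmp_ext
    intro χ
    rw [cmp_un, cmp, ← RingHom.comp_apply, ← lau_comp]
    exact cmp_un n (χ.comp h)
  rw [h2] at h1
  exact h1

omit [CharZero O] in
private theorem lau_pi_aux {X : Type v} (χ : X) (z : (X → O)[T;T⁻¹]) :
    cmp χ (lau (RingHom.pi fun χ : X => (Ideal.Quotient.mk (Ideal.span {(N : O)})).comp
      (Pi.evalRingHom (fun _ => O) χ)) z) = lau (Ideal.Quotient.mk (Ideal.span {(N : O)}))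
      (cmp χ z) := by
  rw [cmp, cmp, ← RingHom.comp_apply, ← RingHom.comp_apply, ← lau_comp, ← lau_comp]
  rfl

theorem Theta_const (k : (C →* Oˣ) → ℤ) :
    Theta N C hC hN (fun χ (_ : Pr O N) => k χ) = 0 := by
  have := finite_dual (O := O) N hC hN
  change (sqC (RingHom.id O) N C hC hN).DD.D (uN (fun χ (_ : Pr O N) => k χ)) = 0
  obtain ⟨U, hU⟩ := exists_cmp (R := O)
    (fun χ : C →* Oˣ => (AddMonoidAlgebra.single (k χ) 1 : O[T;T⁻¹]))
  obtain ⟨U', hU'⟩ := exists_cmp (R := O)
    (fun χ : C →* Oˣ => (AddMonoidAlgebra.single (-k χ) 1 : O[T;T⁻¹]))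
  have h1 : U * U' = 1 := by
    apply cmp_ext
    intro χ
    rw [map_mul, hU, hU', map_one, AddMonoidAlgebra.single_mul_single, mul_one, add_neg_cancel]
    rfl
  have h2 : U' * U = 1 := by
    apply cmp_ext
    intro χ
    rw [map_mul, hU, hU', map_one, AddMonoidAlgebra.single_mul_single, mul_one, neg_add_cancel]
    rfl
  refine Sq.DD_lift (sqC (RingHom.id O) N C hC hN) (m := Unit)
    { val := Matrix.of fun _ _ => U
      inv := Matrix.of fun _ _ => U'
      val_inv := by
        ext i j : 1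
        simp [Matrix.mul_apply, h1, Matrix.one_apply, Subsingleton.elim i j]
      inv_val := by
        ext i j : 1
        simp [Matrix.mul_apply, h2, Matrix.one_apply, Subsingleton.elim i j] } _ ?_
  ext i j : 1
  change un (fun χ (_ : Pr O N) => k χ) = lau (RingHom.pi fun χ : C →* Oˣ =>
    (Ideal.Quotient.mk (Ideal.span {(N : O)})).comp (Pi.evalRingHom (fun _ => O) χ)) U
  apply cmp_ext
  intro χ
  rw [cmp_un, lau_pi_aux, hU, lau_single, map_one, unComp, ← sum_kappa O N]
  have h3 := map_sum (AddMonoidAlgebra.singleAddHom (R := Amod O N) (k χ)) (kappa O N) Finset.univ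
  exact h3.symm

omit [IsDomain O] [CharZero O] [NeZero N] [HasEnoughRootsOfUnity O N] in
/-- A natural number not in `m` is invertible at the component of `m`. -/
private theorem exists_inv_aux (c : ℕ) (m : Pr O N) :
    ∃ r : O, (c : Amod O N) ∉ m.asIdeal →
      (c : Amod O N) * Ideal.Quotient.mk (Ideal.span {(N : O)}) r = kappa O N m := by
  classical
  by_cases hc : (c : Amod O N) ∈ m.asIdeal
  · exact ⟨0, fun h => absurd hc h⟩
  have hid : kappa O N m * kappa O N m = kappa O N m := by rw [kappa_mul, if_pos rfl]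
  have hunit : IsUnit ((c : Amod O N) * kappa O N m + (1 - kappa O N m)) := by
    apply isUnit_of_forall_notMem
    intro m' hm'
    have hp : m'.asIdeal.IsPrime := m'.isMaximal.isPrime
    by_cases hmm : m' = m
    · subst hmm
      have h1 : kappa O N m' * (1 - kappa O N m') ∈ m'.asIdeal := by
        rw [mul_sub, mul_one, hid, sub_self]
        exact m'.asIdeal.zero_mem
      have h2 : 1 - kappa O N m' ∈ m'.asIdeal :=
        (hp.mem_or_mem h1).resolve_left (kappa_notMem O N m')
      have h3 : (c : Amod O N) * kappa O N m' ∈ m'.asIdeal := by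
        have := m'.asIdeal.sub_mem hm' h2
        rwa [add_sub_cancel_right] at this
      rcases hp.mem_or_mem h3 with h4 | h4
      · exact hc h4
      · exact kappa_notMem O N m' h4
    · have h1 : kappa O N m * kappa O N m' ∈ m'.asIdeal := by
        rw [kappa_mul, if_neg (Ne.symm hmm)]
        exact m'.asIdeal.zero_mem
      have h2 : kappa O N m ∈ m'.asIdeal :=
        (hp.mem_or_mem h1).resolve_right (kappa_notMem O N m')
      have h3 : (1 : Amod O N) ∈ m'.asIdeal := by
        have h4 := m'.asIdeal.sub_mem hm'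
          (m'.asIdeal.mul_mem_left ((c : Amod O N) - 1) h2)
        have h5 : (c : Amod O N) * kappa O N m + (1 - kappa O N m) -
            ((c : Amod O N) - 1) * kappa O N m = 1 := by ring
        rwa [h5] at h4
      exact hp.ne_top ((Ideal.eq_top_iff_one _).2 h3)
  obtain ⟨s, hs⟩ := hunit.exists_right_inv
  obtain ⟨r, hr⟩ := Ideal.Quotient.mk_surjective (s * kappa O N m)
  refine ⟨r, fun _ => ?_⟩
  rw [hr]
  calc (c : Amod O N) * (s * kappa O N m)
      = ((c : Amod O N) * (kappa O N m * kappa O N m) + (kappa O N m - kappa O N m *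
          kappa O N m)) * s := by rw [hid]; ring
    _ = (((c : Amod O N) * kappa O N m + (1 - kappa O N m)) * s) * kappa O N m := by ring
    _ = kappa O N m := by rw [hs, one_mul]

/-- `un n` lifts to the group ring. -/
private theorem exists_base_aux (n : (C →* Oˣ) → Pr O N → ℤ)
    (h : ∀ χ m, n χ m ≠ 0 → (Nat.card C : Amod O N) ∉ m.asIdeal)
    [Finite (C →* Oˣ)] :
    ∃ V : (MonoidAlgebra O C)[T;T⁻¹],
      ((lau (sqC (RingHom.id O) N C hC hN).π).comp (lau (sqC (RingHom.id O) N C hC hN).φ)) V =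
        un n := by
  classical
  choose r hr using exists_inv_aux (O := O) N (Nat.card C)
  set F : (C →* Oˣ) → O[T;T⁻¹] := fun χ => ∑ m : Pr O N,
    (AddMonoidAlgebra.single (n χ m) (r m) - AddMonoidAlgebra.single 0 (r m)) with hF
  obtain ⟨z, hz⟩ := exists_cmp (R := O) (fun χ : C →* Oˣ => Nat.card C • F χ)
  obtain ⟨V₀, hV₀⟩ := exists_lau (f := fou (RingHom.id O) C) z (by
    intro k
    obtain ⟨x, hx⟩ := exists_fou (RingHom.id O) (C := C) (fun χ => (F χ).coeff k)
    refine ⟨x, ?_⟩
    rw [hx]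
    funext χ
    rw [← cmp_coeff, hz, AddMonoidAlgebra.coeff_smul, Finsupp.smul_apply, nsmul_eq_mul])
  refine ⟨1 + V₀, ?_⟩
  rw [RingHom.comp_apply]
  have h1 : lau (sqC (RingHom.id O) N C hC hN).φ (1 + V₀) = 1 + z := by
    rw [map_add, map_one]
    congr 1
  rw [h1, map_add, map_one]
  apply cmp_ext
  intro χ
  rw [map_add, map_one]
  have h2 : cmp χ (lau (sqC (RingHom.id O) N C hC hN).π z) =
      lau (Ideal.Quotient.mk (Ideal.span {(N : O)})) (cmp χ z) := lau_pi_aux N χ z
  rw [h2, hz, cmp_un, map_nsmul, hF, map_sum]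
  have h3 : ∀ m : Pr O N, Nat.card C • lau (Ideal.Quotient.mk (Ideal.span {(N : O)}))
      (AddMonoidAlgebra.single (n χ m) (r m) - AddMonoidAlgebra.single 0 (r m)) =
      AddMonoidAlgebra.single (n χ m) (kappa O N m) - cst _ (kappa O N m) := by
    intro m
    rw [map_sub, lau_single, lau_single]
    by_cases hm : n χ m = 0
    · rw [hm, sub_self, smul_zero, cst_apply, sub_self]
    · have h4 := hr m (h χ m hm)
      rw [smul_sub, AddMonoidAlgebra.smul_single, AddMonoidAlgebra.smul_single, nsmul_eq_mul, h4]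
      rfl
  rw [Finset.smul_sum]
  rw [Finset.sum_congr rfl (fun m _ => h3 m), Finset.sum_sub_distrib, ← map_sum, sum_kappa,
    map_one, unComp]
  abel

theorem Theta_vanish (n : (C →* Oˣ) → Pr O N → ℤ)
    (h : ∀ χ m, n χ m ≠ 0 → (Nat.card C : Amod O N) ∉ m.asIdeal) :
    Theta N C hC hN n = 0 := by
  have := finite_dual (O := O) N hC hN
  change (sqC (RingHom.id O) N C hC hN).DD.D (uN n) = 0
  obtain ⟨V, hV⟩ := exists_base_aux N C hC hN n h
  obtain ⟨V', hV'⟩ := exists_base_aux N C hC hN (-n) (by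
    intro χ m hm
    apply h χ m
    intro h0
    apply hm
    rw [Pi.neg_apply, Pi.neg_apply, h0, neg_zero])
  apply Sq.DD_base (sqC (RingHom.id O) N C hC hN) (Matrix.of fun _ _ => V)
    (Matrix.of fun _ _ => V')
  · ext i j : 1
    exact hV.symm
  · ext i j : 1
    exact hV'.symm

end Pool.Agent.H95.KM
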