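import Pool.Agent.H95.KM.Lau

/-!
# Project KM, module Trans: transfer from `O[H]` to `ℤ[H]`

`O` is a commutative ring which is free of finite rank `d > 0` as a `ℤ`-module.

PROOF.  Let `b` be a `ℤ`-basis of `O` (index `J = Fin d` or `Module.Free.ChooseBasisIndex`), and
`λ : O → Mat_J(ℤ)` the regular representation (`Algebra.leftMulMatrix b`).  For a group `H` it gives
`λ_H : O[H] → Mat_J(ℤ[H])`, `single h r ↦ (single h (λ r i j))_{ij}` and
`λ'_H : O[H][t,t⁻¹] → Mat_J(ℤ[H][t,t⁻¹])`, `single k a ↦ (single k (λ_H a i j))_{ij}`, ring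
homomorphisms.  (A general construction: for `φ : R → Mat_J(S)` there is
`φ' : R[T;T⁻¹] →+* Matrix J J S[T;T⁻¹]`, `single k r ↦ (single k (φ r i j))`, and similarly
`R[X] →+* Matrix J J S[X]`; compatible with `posHom`, `negHom`.)
`K0.push λ'_H : K₀(O[H][t,t⁻¹]) → K₀(ℤ[H][t,t⁻¹])` (`Pool/Agent/H71/FJ/K0.lean`: `push`, `push_map`,
`map_push`, `push_congr`) maps the images of `K₀(O[H][t])`, `K₀(O[H][t⁻¹])` to the corresponding
images (`push_map`, `map_push`), so `Km1.lift` gives `res H : K₋₁(O[H]) →+ K₋₁(ℤ[H])`.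
* `res (map x) = d • x`: the composite `ℤ[H][t,t⁻¹] → O[H][t,t⁻¹] → Mat_J(ℤ[H][t,t⁻¹])` is
  `a ↦ diagonal (fun _ => a)` (on `ℤ` the regular representation is scalar), and pushing along the
  diagonal homomorphism is multiplication by `|J|` (`flat` of a diagonal homomorphism is a block
  diagonal matrix, `|J|` copies of the matrix).
* naturality in `H`: `push_map` and `map_push` and the equality of the two ring homomorphisms
  `O[H][t,t⁻¹] → Mat_J(ℤ[H'][t,t⁻¹])`.
-/

set_option autoImplicit false

open Matrix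
open scoped LaurentPolynomial

universe u v w

namespace Pool.Agent.H95.KM

open Pool.Agent.H71.FJ

namespace Trans

section General

variable {R : Type u} [Ring R] {S : Type v} [Ring S] {T : Type w} [Ring T]
variable {J : Type} [Fintype J] [DecidableEq J]

/-- the homomorphism `R[t, t⁻¹] → Mat_J(S[t, t⁻¹])` -/
noncomputable def lm (φ : R →+* Matrix J J S) : R[T;T⁻¹] →+* Matrix J J S[T;T⁻¹] :=
  AddMonoidAlgebra.liftNCRingHom ((cst S).mapMatrix.comp φ)
    (((Matrix.scalar J : S[T;T⁻¹] →+* Matrix J J S[T;T⁻¹]) : S[T;T⁻¹] →* Matrix J J S[T;T⁻¹]).comp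
      (AddMonoidAlgebra.of S ℤ))
    (fun r k => by
      change (φ r).map (cst S) * Matrix.scalar J (AddMonoidAlgebra.single k.toAdd 1) =
        Matrix.scalar J (AddMonoidAlgebra.single k.toAdd 1) * (φ r).map (cst S)
      rw [Matrix.scalar_apply]
      ext1 i j
      rw [Matrix.mul_diagonal, Matrix.diagonal_mul, Matrix.map_apply, cst_apply,
        AddMonoidAlgebra.single_mul_single, AddMonoidAlgebra.single_mul_single, add_zero, zero_add,
        one_mul, mul_one])

theorem lm_single (φ : R →+* Matrix J J S) (k : ℤ) (r : R) :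
    lm φ (AddMonoidAlgebra.single k r) = Matrix.of fun i j => AddMonoidAlgebra.single k (φ r i j) := by
  change AddMonoidAlgebra.liftNC _ _ _ = _
  rw [AddMonoidAlgebra.liftNC_single]
  change (φ r).map (cst S) * Matrix.scalar J (AddMonoidAlgebra.single k 1) = _
  rw [Matrix.scalar_apply]
  ext1 i j
  rw [Matrix.mul_diagonal, Matrix.map_apply, cst_apply,
    AddMonoidAlgebra.single_mul_single, zero_add, mul_one, Matrix.of_apply]

theorem lm_ext {M : Type*} [Ring M] {f g : R[T;T⁻¹] →+* M}
    (h : ∀ k r, f (AddMonoidAlgebra.single k r) = g (AddMonoidAlgebra.single k r)) : f = g := by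
  apply RingHom.ext
  intro x
  induction x using AddMonoidAlgebra.induction_linear with
  | zero => rw [map_zero, map_zero]
  | add x y hx hy => rw [map_add, map_add, hx, hy]
  | single k r => exact h k r

theorem pm_ext {M : Type*} [Ring M] {f g : Polynomial R →+* M}
    (h : ∀ k r, f (Polynomial.monomial k r) = g (Polynomial.monomial k r)) : f = g := by
  apply RingHom.ext
  intro p
  induction p using Polynomial.induction_on' with
  | add p q hp hq => rw [map_add, map_add, hp, hq]
  | monomial k r => exact h k r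

theorem am_ext {H : Type*} [Group H] {M : Type*} [Ring M] {f g : MonoidAlgebra R H →+* M}
    (h : ∀ k r, f (MonoidAlgebra.single k r) = g (MonoidAlgebra.single k r)) : f = g := by
  apply RingHom.ext
  intro x
  induction x using MonoidAlgebra.induction_linear with
  | zero => rw [map_zero, map_zero]
  | add x y hx hy => rw [map_add, map_add, hx, hy]
  | single k r => exact h k r

/-- the homomorphism `R[X] → Mat_J(S[X])` -/
noncomputable def pm (φ : R →+* Matrix J J S) : Polynomial R →+* Matrix J J (Polynomial S) :=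
  Polynomial.eval₂RingHom' ((Polynomial.C : S →+* Polynomial S).mapMatrix.comp φ)
    (Matrix.scalar J Polynomial.X)
    (fun r => by
      change (φ r).map Polynomial.C * Matrix.scalar J Polynomial.X =
        Matrix.scalar J Polynomial.X * (φ r).map Polynomial.C
      rw [Matrix.scalar_apply]
      ext1 i j
      rw [Matrix.mul_diagonal, Matrix.diagonal_mul, Matrix.map_apply, Polynomial.X_mul_C])

theorem pm_monomial (φ : R →+* Matrix J J S) (k : ℕ) (r : R) :
    pm φ (Polynomial.monomial k r) = Matrix.of fun i j => Polynomial.monomial k (φ r i j) := by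
  change Polynomial.eval₂ _ _ _ = _
  rw [Polynomial.eval₂_monomial]
  change (φ r).map Polynomial.C * Matrix.scalar J Polynomial.X ^ k = _
  rw [← map_pow, Matrix.scalar_apply]
  ext1 i j
  rw [Matrix.mul_diagonal, Matrix.map_apply, Matrix.of_apply, Polynomial.C_mul_X_pow_eq_monomial]

theorem lm_posHom (φ : R →+* Matrix J J S) :
    (lm φ).comp (posHom R) = (posHom S).mapMatrix.comp (pm φ) := by
  apply pm_ext
  intro k r
  rw [RingHom.comp_apply, RingHom.comp_apply, posHom_monomial, lm_single, pm_monomial]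
  ext1 i j
  rw [RingHom.mapMatrix_apply, Matrix.map_apply, Matrix.of_apply, Matrix.of_apply, posHom_monomial]

theorem lm_negHom (φ : R →+* Matrix J J S) :
    (lm φ).comp (negHom R) = (negHom S).mapMatrix.comp (pm φ) := by
  apply pm_ext
  intro k r
  rw [RingHom.comp_apply, RingHom.comp_apply, negHom_monomial, lm_single, pm_monomial]
  ext1 i j
  rw [RingHom.mapMatrix_apply, Matrix.map_apply, Matrix.of_apply, Matrix.of_apply, negHom_monomial]

theorem lm_lau (φ : S →+* Matrix J J T) (f : R →+* S) : (lm φ).comp (lau f) = lm (φ.comp f) := by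
  apply lm_ext
  intro k r
  rw [RingHom.comp_apply, lau_single, lm_single, lm_single, RingHom.comp_apply]

theorem lau_lm (f : S →+* T) (φ : R →+* Matrix J J S) :
    (lau f).mapMatrix.comp (lm φ) = lm (f.mapMatrix.comp φ) := by
  apply lm_ext
  intro k r
  rw [RingHom.comp_apply, lm_single, lm_single]
  ext1 i j
  rw [RingHom.mapMatrix_apply, Matrix.map_apply, Matrix.of_apply, Matrix.of_apply, lau_single]
  rfl

/-- the homomorphism `K₋₁(R) → K₋₁(S)` induced by `R → Mat_J(S)` -/
noncomputable def kres (φ : R →+* Matrix J J S) : Km1 R →+ Km1 S :=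
  Km1.lift (Km1.mk.comp (K0.push (lm φ)))
    (fun x => by
      rw [AddMonoidHom.comp_apply, K0.push_map, lm_posHom, ← K0.map_push, Km1.mk_pos])
    (fun x => by
      rw [AddMonoidHom.comp_apply, K0.push_map, lm_negHom, ← K0.map_push, Km1.mk_neg])

theorem kres_mk (φ : R →+* Matrix J J S) (x : K0 R[T;T⁻¹]) :
    kres φ (Km1.mk x) = Km1.mk (K0.push (lm φ) x) := rfl

theorem kres_map (φ : S →+* Matrix J J T) (f : R →+* S) (x : Km1 R) :
    kres φ (Km1.map f x) = kres (φ.comp f) x := by
  obtain ⟨y, rfl⟩ := Km1.mk_surjective x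
  rw [Km1.map_mk, kres_mk, kres_mk, K0.push_map, lm_lau]

theorem map_kres (f : S →+* T) (φ : R →+* Matrix J J S) (x : Km1 R) :
    Km1.map f (kres φ x) = kres (f.mapMatrix.comp φ) x := by
  obtain ⟨y, rfl⟩ := Km1.mk_surjective x
  rw [kres_mk, kres_mk, Km1.map_mk, K0.map_push, lau_lm]

/-- the homomorphism `R[H] → Mat_J(S[H])` -/
noncomputable def am (φ : R →+* Matrix J J S) (H : Type*) [Group H] :
    MonoidAlgebra R H →+* Matrix J J (MonoidAlgebra S H) :=
  MonoidAlgebra.liftNCRingHom
    ((MonoidAlgebra.singleOneRingHom : S →+* MonoidAlgebra S H).mapMatrix.comp φ)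
    (((Matrix.scalar J : MonoidAlgebra S H →+* Matrix J J (MonoidAlgebra S H)) :
      MonoidAlgebra S H →* Matrix J J (MonoidAlgebra S H)).comp (MonoidAlgebra.of S H))
    (fun r k => by
      change (φ r).map (MonoidAlgebra.single 1) * Matrix.scalar J (MonoidAlgebra.single k 1) =
        Matrix.scalar J (MonoidAlgebra.single k 1) * (φ r).map (MonoidAlgebra.single 1)
      rw [Matrix.scalar_apply]
      ext1 i j
      rw [Matrix.mul_diagonal, Matrix.diagonal_mul, Matrix.map_apply,
        MonoidAlgebra.single_mul_single, MonoidAlgebra.single_mul_single, mul_one, one_mul,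
        one_mul, mul_one])

theorem am_single (φ : R →+* Matrix J J S) (H : Type*) [Group H] (k : H) (r : R) :
    am φ H (MonoidAlgebra.single k r) =
      Matrix.of fun i j => MonoidAlgebra.single k (φ r i j) := by
  change MonoidAlgebra.liftNC _ _ _ = _
  rw [MonoidAlgebra.liftNC_single]
  change (φ r).map (MonoidAlgebra.single 1) * Matrix.scalar J (MonoidAlgebra.single k 1) = _
  rw [Matrix.scalar_apply]
  ext1 i j
  rw [Matrix.mul_diagonal, Matrix.map_apply, MonoidAlgebra.single_mul_single, one_mul, mul_one,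
    Matrix.of_apply]

end General

section Diagonal

variable {R : Type u} [Ring R]

/-- the block diagonal matrix -/
def bd {ι : Type*} (e : Matrix ι ι R) (n : ℕ) : Matrix (ι × Fin n) (ι × Fin n) R :=
  Matrix.of fun p q => if p.2 = q.2 then e p.1 q.1 else 0

theorem bd_idem {ι : Type*} [Fintype ι] {e : Matrix ι ι R} (he : e * e = e) (n : ℕ) :
    bd e n * bd e n = bd e n := by
  ext ⟨i, a⟩ ⟨j, b⟩
  have h := congrFun (congrFun he i) j
  simp only [Matrix.mul_apply] at h
  simp only [bd, Matrix.mul_apply, Matrix.of_apply, Fintype.sum_prod_type, mul_ite, ite_mul,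
    zero_mul, mul_zero]
  by_cases hab : a = b
  · subst hab
    simp [h]
  · simp [hab]

/-- the reindexing -/
noncomputable def bdEquiv (ι : Type*) (n : ℕ) : (ι × Fin n) ⊕ ι ≃ ι × Fin (n + 1) :=
  Equiv.ofBijective (Sum.elim (fun p => (p.1, p.2.castSucc)) (fun i => (i, Fin.last n))) (by
    constructor
    · rintro (⟨i, a⟩ | i) (⟨j, b⟩ | j) h
      · simpa using h
      · simp only [Sum.elim_inl, Sum.elim_inr, Prod.mk.injEq] at h
        exact absurd h.2 (Fin.castSucc_ne_last a)
      · simp only [Sum.elim_inl, Sum.elim_inr, Prod.mk.injEq] at h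
        exact absurd h.2.symm (Fin.castSucc_ne_last b)
      · simpa using h
    · rintro ⟨i, a⟩
      induction a using Fin.lastCases with
      | last => exact ⟨Sum.inr i, rfl⟩
      | cast a => exact ⟨Sum.inl (i, a), rfl⟩)

theorem cls_bd {ι : Type*} [Fintype ι] [DecidableEq ι] (e : Matrix ι ι R) (he : e * e = e)
    (n : ℕ) : K0.cls (bd e n) (bd_idem he n) = n • K0.cls e he := by
  induction n with
  | zero =>
    rw [zero_smul]
    have h : K0.cls (bd e 0) (bd_idem he 0) + K0.cls (bd e 0) (bd_idem he 0) =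
        K0.cls (bd e 0) (bd_idem he 0) := by
      rw [← K0.cls_fromBlocks]
      apply K0.cls_congr
      refine ⟨0, 0, ?_, ?_⟩
      · ext1 i j
        rcases i with ⟨_, i⟩ | ⟨_, i⟩ <;> exact i.elim0
      · ext1 i j
        exact i.2.elim0
    simpa using h
  | succ n ih =>
    rw [succ_nsmul, ← ih, ← K0.cls_fromBlocks]
    apply K0.cls_congr
    have h : fromBlocks (bd e n) 0 0 e =
        (bd e (n + 1)).submatrix (bdEquiv ι n) (bdEquiv ι n) := by
      ext1 i j
      rcases i with ⟨i, a⟩ | i <;> rcases j with ⟨j, b⟩ | j <;>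
        simp [bd, bdEquiv, Fin.castSucc_ne_last, (Fin.castSucc_ne_last _).symm]
    rw [h]
    exact K0.matEquiv_symm (K0.matEquiv_submatrix _ (bd_idem he _) _)

theorem push_scalar (n : ℕ) (x : K0 R) :
    K0.push (Matrix.scalar (Fin n) : R →+* Matrix (Fin n) (Fin n) R) x = n • x := by
  have : K0.push (Matrix.scalar (Fin n) : R →+* Matrix (Fin n) (Fin n) R) =
      n • AddMonoidHom.id (K0 R) := by
    apply K0.hom_ext
    intro a
    rw [K0.push_mk, AddMonoidHom.smul_apply, AddMonoidHom.id_apply, K0.mk_eq_cls a,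
      ← cls_bd a.mat a.idem n]
    apply K0.cls_congr
    rw [show K0.flat (Matrix.scalar (Fin n) : R →+* Matrix (Fin n) (Fin n) R) a.mat =
      bd a.mat n from rfl]
    exact K0.matEquiv_refl (bd_idem a.idem n)
  rw [this]
  rfl

theorem kres_scalar (n : ℕ) (x : Km1 R) :
    kres (Matrix.scalar (Fin n) : R →+* Matrix (Fin n) (Fin n) R) x = n • x := by
  obtain ⟨y, rfl⟩ := Km1.mk_surjective x
  rw [kres_mk, ← map_nsmul, ← push_scalar]
  congr 3
  apply lm_ext
  intro k r
  rw [lm_single]
  ext1 i j
  simp only [Matrix.of_apply, Matrix.scalar_apply, Matrix.diagonal_apply]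
  split_ifs
  · rfl
  · rw [AddMonoidAlgebra.single_zero]

end Diagonal

end Trans

open Pool.Agent.H95.KM.Trans in
theorem exists_transfer (O : Type) [CommRing O] [Nontrivial O] [Module.Free ℤ O]
    [Module.Finite ℤ O] :
    ∃ (d : ℕ) (res : ∀ (H : Type v) [Group H],
      Km1 (MonoidAlgebra O H) →+ Km1 (MonoidAlgebra ℤ H)), 0 < d ∧
      (∀ (H : Type v) [Group H] (x : Km1 (MonoidAlgebra ℤ H)),
        res H (Km1.map (MonoidAlgebra.mapRingHom H (Int.castRingHom O)) x) = d • x) ∧
      (∀ (H H' : Type v) [Group H] [Group H'] (f : H →* H') (x : Km1 (MonoidAlgebra O H)),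
        res H' (ind O f x) = ind ℤ f (res H x)) := by
  obtain ⟨d, b, hd⟩ : ∃ (d : ℕ) (_ : Module.Basis (Fin d) ℤ O), 0 < d := by
    refine ⟨_, Module.finBasis ℤ O, ?_⟩
    rw [Module.finrank_pos_iff]
    infer_instance
  let lam : O →+* Matrix (Fin d) (Fin d) ℤ := (Algebra.leftMulMatrix b : O →+* _)
  have hlam : ∀ n : ℤ, lam (n : O) = Matrix.scalar (Fin d) n := by
    intro n
    rw [map_intCast lam n]
    exact (map_intCast (Matrix.scalar (Fin d) : ℤ →+* Matrix (Fin d) (Fin d) ℤ) n).symm
  refine ⟨d, fun H _ => kres (am lam H), hd, ?_, ?_⟩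
  · intro H _ x
    rw [kres_map, ← kres_scalar]
    congr 2
    apply am_ext
    intro k r
    rw [RingHom.comp_apply, MonoidAlgebra.mapRingHom_single, am_single]
    ext1 i j
    have h1 := hlam r
    change _ = Matrix.scalar (Fin d) (MonoidAlgebra.single k r) i j
    rw [Matrix.of_apply]
    change MonoidAlgebra.single k (lam (r : O) i j) = _
    rw [h1]
    simp only [Matrix.scalar_apply, Matrix.diagonal_apply]
    split_ifs
    · rfl
    · rw [MonoidAlgebra.single_zero]
  · intro H H' _ _ f x
    rw [ind, ind, kres_map, map_kres]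
    congr 2
    apply am_ext
    intro k r
    rw [RingHom.comp_apply, RingHom.comp_apply, am_single]
    change am lam H' (MonoidAlgebra.mapDomain f (MonoidAlgebra.single k r)) = _
    rw [MonoidAlgebra.mapDomain_single, am_single]
    ext1 i j
    rw [RingHom.mapMatrix_apply, Matrix.map_apply, Matrix.of_apply, Matrix.of_apply]
    change _ = MonoidAlgebra.mapDomain f (MonoidAlgebra.single k _)
    rw [MonoidAlgebra.mapDomain_single]

end Pool.Agent.H95.KM
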