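import Pool.Agent.H95.KM.DetTwo
import Pool.Agent.H95.KM.LinAlg
import Pool.Agent.H95.KM.Trans
import Pool.Agent.H95.KM.Gen

/-!
# Rational injectivity of the assembly map in degree `-1`, finite cyclic subgroups
-/

set_option autoImplicit false

open Matrix
open scoped LaurentPolynomial

universe u v w

namespace Pool.Agent.H95.KM

open Pool.Agent.H71.FJ

/-- The finite cyclic subgroups. -/
def FinCyc {G : Type v} [Group G] (F : Subgroup G) : Prop := Finite F ∧ IsCyclic F

theorem lTensor_injective {A B : Type*} [AddCommGroup A] [AddCommGroup B] (f : A →+ B)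
    (hf : ∀ a, f a = 0 → ∃ m : ℤ, m ≠ 0 ∧ m • a = 0) :
    Function.Injective (LinearMap.lTensor ℚ f.toIntLinearMap) := by
  rw [injective_iff_map_eq_zero]
  intro y hy
  obtain ⟨⟨z, m⟩, hz⟩ := IsLocalizedModule.surj (nonZeroDivisors ℤ)
    (TensorProduct.mk ℤ ℚ A 1) y
  have h1 : TensorProduct.mk ℤ ℚ B 1 (f z) = 0 := by
    have h2 : LinearMap.lTensor ℚ f.toIntLinearMap (TensorProduct.mk ℤ ℚ A 1 z) = 0 := by
      have h3 := congrArg (LinearMap.lTensor ℚ f.toIntLinearMap) hz
      rw [Submonoid.smul_def, map_smul, hy, smul_zero] at h3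
      exact h3.symm
    exact h2
  obtain ⟨M, hM⟩ := (IsLocalizedModule.eq_zero_iff (nonZeroDivisors ℤ)
    (TensorProduct.mk ℤ ℚ B 1)).1 h1
  obtain ⟨m', hm', h4⟩ := hf ((M : ℤ) • z) (by rw [map_zsmul]; exact hM)
  have h5 : TensorProduct.mk ℤ ℚ A 1 z = 0 :=
    (IsLocalizedModule.eq_zero_iff (nonZeroDivisors ℤ)
      (TensorProduct.mk ℤ ℚ A 1)).2
      ⟨⟨m' * M, mem_nonZeroDivisors_of_ne_zero
        (mul_ne_zero hm' (nonZeroDivisors.coe_ne_zero M))⟩, by
        rw [Submonoid.smul_def]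
        change (m' * (M : ℤ)) • z = 0
        rw [mul_smul, h4]⟩
  have h6 : m • y = m • 0 := by rw [hz, h5, smul_zero]
  exact IsLocalizedModule.smul_injective (TensorProduct.mk ℤ ℚ A 1) m h6

section Represent

variable (R : Type u) [Ring R] (G : Type v) [Group G] (𝓕 : Subgroup G → Prop)

theorem exists_list_repr (z : SumKm1 R G 𝓕) :
    ∃ l : List (Σ F : FamSub G 𝓕, Km1 (MonoidAlgebra R F.1)),
      z = (l.map fun p => inc R G 𝓕 p.1 p.2).sum := by
  classical
  induction z using DirectSum.induction_on with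
  | zero => exact ⟨[], rfl⟩
  | of F x =>
    refine ⟨[⟨F, x⟩], ?_⟩
    rw [List.map_singleton, List.sum_singleton, inc]
  | add x y hx hy =>
    obtain ⟨l, hl⟩ := hx
    obtain ⟨l', hl'⟩ := hy
    exact ⟨l ++ l', by rw [List.map_append, List.sum_append, ← hl, ← hl']⟩

/-- Every element of the colimit is a finite sum of classes. -/
theorem exists_repr (a : ColimKm1 R G 𝓕) : ∃ (k : ℕ) (F : Fin k → FamSub G 𝓕)
    (x : ∀ i, Km1 (MonoidAlgebra R (F i).1)), a = ∑ i, cl R G 𝓕 (F i) (x i) := by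
  obtain ⟨z, rfl⟩ : ∃ z, QuotientAddGroup.mk' (colimRel R G 𝓕) z = a :=
    QuotientAddGroup.mk_surjective a
  obtain ⟨l, hl⟩ := exists_list_repr R G 𝓕 z
  refine ⟨l.length, fun i => (l.get i).1, fun i => (l.get i).2, ?_⟩
  have h1 : ∑ i : Fin l.length, cl R G 𝓕 (l.get i).1 (l.get i).2 =
      (l.map fun p => cl R G 𝓕 p.1 p.2).sum := by
    rw [← List.sum_ofFn]
    congr 1
    apply List.ext_get
    · simp
    · intro n h1 h2
      simp
  rw [h1, hl, map_list_sum, List.map_map]
  rfl

end Represent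


section Number

open NumberField

theorem enough_roots (N : ℕ) [NeZero N] :
    HasEnoughRootsOfUnity (𝓞 (CyclotomicField N ℚ)) N := by
  have : IsCyclotomicExtension {N} ℚ (CyclotomicField N ℚ) :=
    CyclotomicField.isCyclotomicExtension N ℚ
  have h := IsCyclotomicExtension.zeta_spec N ℚ (CyclotomicField N ℚ)
  exact ⟨⟨h.toInteger, h.toInteger_isPrimitiveRoot⟩, inferInstance⟩

theorem finite_Amod (O : Type) [CommRing O] [IsDomain O] [CharZero O] [Module.Free ℤ O]
    [Module.Finite ℤ O] (N : ℕ) [NeZero N] : Finite (Amod O N) := by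
  apply Ideal.finiteQuotientOfFreeOfNeBot
  rw [Ne, Ideal.span_singleton_eq_bot]
  exact_mod_cast NeZero.ne N

end Number

section Kernel

variable {G : Type v} [Group G]

theorem comm_of_cyclic {D : Subgroup G} (h : IsCyclic D) (a b : D) : a * b = b * a := by
  have := h
  exact (IsCyclic.commGroup (α := D)).mul_comm a b

/-- extension of scalars commutes with induction -/
theorem ext_ind {O : Type} [CommRing O] {H H' : Type v} [Group H] [Group H'] (f : H →* H')
    (x : Km1 (MonoidAlgebra ℤ H)) :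
    Km1.map (MonoidAlgebra.mapRingHom H' (Int.castRingHom O)) (ind ℤ f x) =
      ind O f (Km1.map (MonoidAlgebra.mapRingHom H (Int.castRingHom O)) x) := by
  rw [ind, ind, Km1.map_map, Km1.map_map]
  congr 2
  apply RingHom.ext
  intro a
  induction a using MonoidAlgebra.induction_linear with
  | zero => simp
  | add a b ha hb => rw [map_add, map_add, ha, hb]
  | single g r =>
    change MonoidAlgebra.mapRingHom H' (Int.castRingHom O)
      (MonoidAlgebra.mapDomain f (MonoidAlgebra.single g r)) =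
      MonoidAlgebra.mapDomain f (MonoidAlgebra.mapRingHom H (Int.castRingHom O)
        (MonoidAlgebra.single g r))
    rw [MonoidAlgebra.mapDomain_single, MonoidAlgebra.mapRingHom_single,
      MonoidAlgebra.mapRingHom_single, MonoidAlgebra.mapDomain_single]

/-- The kernel of the assembly map is a torsion group. -/
theorem kernel_torsion (a : ColimKm1 ℤ G FinCyc) (ha : assembly ℤ G FinCyc a = 0) :
    ∃ m : ℤ, m ≠ 0 ∧ m • a = 0 := by
  classical
  obtain ⟨k, F, x, rfl⟩ := exists_repr ℤ G FinCyc a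
  have hfin : ∀ i, Finite (F i).1 := fun i => (F i).2.1
  have hcyc : ∀ i, IsCyclic (F i).1 := fun i => (F i).2.2
  obtain ⟨N, hN⟩ : ∃ N : ℕ, N = ∏ i, Nat.card (F i).1 := ⟨_, rfl⟩
  have hN0 : NeZero N := ⟨by
    rw [hN, Finset.prod_ne_zero_iff]
    intro i _
    exact Nat.card_pos.ne'⟩
  have hdvd : ∀ i, Nat.card (F i).1 ∣ N := fun i => by
    rw [hN]
    exact Finset.dvd_prod_of_mem _ (Finset.mem_univ i)
  let L := CyclotomicField N ℚ
  let O := NumberField.RingOfIntegers L
  have h1 : HasEnoughRootsOfUnity O N := enough_roots N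
  have h2 : Finite (Amod O N) := finite_Amod O N
  let fL : O →+* L := algebraMap O L
  have hfL : Function.Injective fL := FaithfulSMul.algebraMap_injective O L
  -- the transfer
  obtain ⟨d, res, hd, hres, hnat⟩ := exists_transfer.{v} O
  -- the target
  let V := TensorProduct ℤ ℚ (ColimKm1 ℤ G FinCyc)
  let t : ColimKm1 ℤ G FinCyc →+ V := (TensorProduct.mk ℤ ℚ (ColimKm1 ℤ G FinCyc) 1).toAddMonoidHom
  let Θ : ∀ D : Good G N, ((D.1 →* Oˣ) → Pr O N → ℤ) →+ V := fun D =>
    have := D.2.1.1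
    AddMonoidHom.mk' (fun n => t (cl ℤ G FinCyc ⟨D.1, D.2.1⟩
      (res D.1 (Theta N D.1 (comm_of_cyclic D.2.1.2) D.2.2 n)))) (by
        intro n n'
        rw [Theta_add, map_add, map_add, map_add])
  -- the elements
  have hsurj : ∀ i, ∃ n, Km1.map (MonoidAlgebra.mapRingHom (F i).1 (Int.castRingHom O)) (x i) =
      Theta N (F i).1 (comm_of_cyclic (hcyc i)) (hdvd i) n := fun i => Theta_surj N _ _ _ _
  choose n hn using hsurj
  have : ∀ i, Fintype (F i).1 := fun i => Fintype.ofFinite _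
  have hdual : ∀ i, Finite ((F i).1 →* Oˣ) := fun i =>
    finite_dual (O := O) N (comm_of_cyclic (hcyc i)) (hdvd i)
  have : ∀ i, Fintype ((F i).1 →* Oˣ) := fun i => Fintype.ofFinite _
  have hsum : ∑ i, ind O (F i).1.subtype
      (Theta N (F i).1 (comm_of_cyclic (hcyc i)) (hdvd i) (n i)) = 0 := by
    simp only [← hn, ← ext_ind]
    rw [← map_sum]
    rw [map_sum] at ha
    simp only [assembly_cl] at ha
    rw [ha, map_zero]
  obtain ⟨s, hs⟩ := det_two N fL hfL (fun i => (F i).1) (fun i => comm_of_cyclic (hcyc i)) hdvd n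
    hsum
  have key := linalg N fL hfL (fun m : Pr O N => ringChar (Amod O N ⧸ m.asIdeal)) Θ ?_ ?_ ?_
    (fun i => ⟨(F i).1, (F i).2, hdvd i⟩) n s ?_
  · -- conclusion
    have h3 : ∑ i, Θ ⟨(F i).1, (F i).2, hdvd i⟩ (n i) = d • t (∑ i, cl ℤ G FinCyc (F i) (x i)) := by
      rw [map_sum, Finset.smul_sum]
      apply Finset.sum_congr rfl
      intro i _
      change t (cl ℤ G FinCyc (F i) (res (F i).1 (Theta N (F i).1 _ _ (n i)))) = _
      rw [← hn i, hres, map_nsmul, map_nsmul]
    rw [h3] at key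
    have h4 : t (∑ i, cl ℤ G FinCyc (F i) (x i)) = 0 := by
      have h5 : (d : ℚ) • t (∑ i, cl ℤ G FinCyc (F i) (x i)) = 0 := by
        rw [Nat.cast_smul_eq_nsmul]
        exact key
      rcases smul_eq_zero.1 h5 with h6 | h6
      · exact absurd h6 (by exact_mod_cast hd.ne')
      · exact h6
    obtain ⟨M, hM⟩ := (IsLocalizedModule.eq_zero_iff (nonZeroDivisors ℤ)
      (TensorProduct.mk ℤ ℚ (ColimKm1 ℤ G FinCyc) 1)).1 h4
    exact ⟨M, nonZeroDivisors.coe_ne_zero M, hM⟩
  · -- naturality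
    intro D D' g h n
    have := D.2.1.1
    have := D'.2.1.1
    change t (cl ℤ G FinCyc ⟨D'.1, D'.2.1⟩ (res D'.1 (Theta N D'.1 _ _ _))) =
      t (cl ℤ G FinCyc ⟨D.1, D.2.1⟩ (res D.1 (Theta N D.1 _ _ n)))
    rw [Theta_map N D.1 (comm_of_cyclic D.2.1.2) D.2.2 D'.1, hnat]
    congr 1
    exact cl_conj ℤ G FinCyc ⟨D.1, D.2.1⟩ ⟨D'.1, D'.2.1⟩ g h _
  · -- constant functions
    intro D k
    have := D.2.1.1
    change t (cl ℤ G FinCyc ⟨D.1, D.2.1⟩ (res D.1 (Theta N D.1 _ _ _))) = 0
    rw [Theta_const, map_zero, map_zero, map_zero]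
  · -- vanishing
    intro D n h
    have := D.2.1.1
    change t (cl ℤ G FinCyc ⟨D.1, D.2.1⟩ (res D.1 (Theta N D.1 _ _ _))) = 0
    rw [Theta_vanish, map_zero, map_zero, map_zero]
    intro χ m hne hmem
    apply h χ m hne
    rw [← ringChar.spec, ← map_natCast (Ideal.Quotient.mk m.asIdeal)]
    exact Ideal.Quotient.eq_zero_iff_mem.2 hmem
  · -- the relations
    intro m c hc hmc
    have hmax := m.isMaximal
    have hp : (ringChar (Amod O N ⧸ m.asIdeal)).Prime := by
      have hfin : Finite (Amod O N ⧸ m.asIdeal) :=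
        Finite.of_surjective _ Ideal.Quotient.mk_surjective
      have hne : ringChar (Amod O N ⧸ m.asIdeal) ≠ 0 := by
        intro h0
        rw [h0, zero_dvd_iff] at hmc
        omega
      have : CharP (Amod O N ⧸ m.asIdeal) (ringChar (Amod O N ⧸ m.asIdeal)) := ringChar.charP _
      rcases CharP.char_is_prime_or_zero (Amod O N ⧸ m.asIdeal)
        (ringChar (Amod O N ⧸ m.asIdeal)) with h | h
      · exact h
      · exact absurd h hne
    refine hs m _ hp ?_ c hc hmc
    rw [← Ideal.Quotient.eq_zero_iff_mem, map_natCast]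
    exact ringChar.Nat.cast_ringChar

/-- **Rational injectivity of the assembly map in degree `-1`.** -/
theorem assembly_injective (G : Type v) [Group G] :
    Function.Injective (LinearMap.lTensor ℚ (assembly ℤ G FinCyc).toIntLinearMap) :=
  lTensor_injective _ kernel_torsion

end Kernel


end Pool.Agent.H95.KM
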