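import Pool.Agent.H95.KM.Defs
import Pool.Agent.H71.FJ.Rank

/-!
# Laurent polynomials over arbitrary rings: basic facts
-/

set_option autoImplicit false

open Matrix
open scoped LaurentPolynomial

universe u v w

namespace Pool.Agent.H95.KM

open Pool.Agent.H71.FJ

variable {R : Type u} [Ring R] {S : Type v} [Ring S]

section Basic

theorem lau_coeff (f : R →+* S) (x : R[T;T⁻¹]) (k : ℤ) : (lau f x).coeff k = f (x.coeff k) := by
  induction x using AddMonoidAlgebra.induction_linear with
  | zero => simp
  | add x y hx hy =>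
    rw [map_add, AddMonoidAlgebra.coeff_add, AddMonoidAlgebra.coeff_add, Finsupp.add_apply,
      Finsupp.add_apply, hx, hy, map_add]
  | single l r =>
    classical
    rw [lau_single, AddMonoidAlgebra.coeff_single, AddMonoidAlgebra.coeff_single,
      Finsupp.single_apply, Finsupp.single_apply]
    split_ifs
    · rfl
    · rw [map_zero]

theorem ext_coeff {x y : R[T;T⁻¹]} (h : ∀ k, x.coeff k = y.coeff k) : x = y := by
  ext k
  exact h k

theorem lau_injective {f : R →+* S} (hf : Function.Injective f) : Function.Injective (lau f) := by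
  intro x y hxy
  apply ext_coeff
  intro k
  apply hf
  rw [← lau_coeff, ← lau_coeff, hxy]

/-- Laurent polynomials whose coefficients are in the image of `f` lift. -/
theorem exists_lau {f : R →+* S} (z : S[T;T⁻¹]) (h : ∀ k, ∃ g, f g = z.coeff k) :
    ∃ x, lau f x = z := by
  classical
  choose g hg using h
  refine ⟨∑ k ∈ z.coeff.support, AddMonoidAlgebra.single k (g k), ?_⟩
  apply ext_coeff
  intro k
  rw [map_sum]
  have h1 : ∀ l, lau f (AddMonoidAlgebra.single l (g l)) =
      AddMonoidAlgebra.single l (z.coeff l) := fun l => by rw [lau_single, hg]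
  simp only [h1, AddMonoidAlgebra.coeff_sum, AddMonoidAlgebra.coeff_single,
    Finsupp.finsetSum_apply, Finsupp.single_apply]
  rw [Finset.sum_ite_eq' z.coeff.support k]
  split_ifs with hk
  · rfl
  · exact (Finsupp.notMem_support_iff.1 hk).symm

theorem lau_surjective {f : R →+* S} (hf : Function.Surjective f) :
    Function.Surjective (lau f) := fun z => exists_lau z (fun _ => hf _)

theorem nilKer_lau {f : R →+* S} (h : NilKer f) : NilKer (lau f) := by
  classical
  obtain ⟨N, J, h0, hN, hJ⟩ := h
  refine ⟨N, fun j =>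
    { carrier := {X | ∀ g, X.coeff g ∈ J j}
      add_mem' := fun {a b} ha hb g => by
        rw [AddMonoidAlgebra.coeff_add]
        exact (J j).add_mem (ha g) (hb g)
      zero_mem' := fun g => by
        rw [AddMonoidAlgebra.coeff_zero]
        exact (J j).zero_mem
      neg_mem' := fun {a} ha g => by
        rw [AddMonoidAlgebra.coeff_neg]
        exact (J j).neg_mem (ha g) }, ?_, ?_, ?_⟩
  · intro x g
    exact h0 _
  · intro x hx
    apply ext_coeff
    intro g
    exact hN _ (hx g)
  · intro j x y hx hy g
    rw [AddMonoidAlgebra.coeff_mul]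
    refine AddSubgroup.sum_mem _ (fun a _ => AddSubgroup.sum_mem _ (fun b _ => ?_))
    simp only
    split_ifs
    · refine hJ j _ _ ?_ (hy b)
      rw [← lau_coeff, hx]
      simp
    · exact (J (j + 1)).zero_mem

end Basic

section Const

variable (R)

/-- The inclusion of the constants. -/
noncomputable def cst : R →+* R[T;T⁻¹] := LaurentPolynomial.C

variable {R}

theorem cst_apply (r : R) : cst R r = AddMonoidAlgebra.single 0 r := rfl

theorem lau_cst (f : R →+* S) : (lau f).comp (cst R) = (cst S).comp f := by
  apply RingHom.ext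
  intro r
  rw [RingHom.comp_apply, RingHom.comp_apply, cst_apply, cst_apply, lau_single]

theorem posHom_C : (posHom R).comp Polynomial.C = cst R := by
  apply RingHom.ext
  intro r
  rw [RingHom.comp_apply, ← Polynomial.monomial_zero_left, posHom_monomial]
  rfl

theorem mk_cst (x : K0 R) : Km1.mk (K0.map (cst R) x) = 0 := by
  rw [← posHom_C, ← K0.map_map]
  exact Km1.mk_pos _

variable (R)

/-- Evaluation at `t = 1`. -/
noncomputable def ev1 : R[T;T⁻¹] →+* R :=
  AddMonoidAlgebra.liftNCRingHom (RingHom.id R) (1 : Multiplicative ℤ →* R)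
    (fun _ _ => Commute.one_right _)

variable {R}

theorem ev1_single (k : ℤ) (r : R) : ev1 R (AddMonoidAlgebra.single k r) = r := by
  change AddMonoidAlgebra.liftNC _ _ _ = _
  rw [AddMonoidAlgebra.liftNC_single]
  simp

theorem ev1_cst : (ev1 R).comp (cst R) = RingHom.id R := by
  apply RingHom.ext
  intro r
  exact ev1_single 0 r

theorem ev1_lau (f : R →+* S) : (ev1 S).comp (lau f) = f.comp (ev1 R) := by
  apply RingHom.ext
  intro x
  induction x using AddMonoidAlgebra.induction_linear with
  | zero => simp
  | add x y hx hy => rw [map_add, map_add, hx, hy]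
  | single k r =>
    rw [RingHom.comp_apply, RingHom.comp_apply, lau_single, ev1_single, ev1_single]

end Const

section PosNeg

/-- polynomials in `t` -/
def IsPos (x : R[T;T⁻¹]) : Prop := ∀ k < 0, x.coeff k = 0

/-- polynomials in `t⁻¹` -/
def IsNeg (x : R[T;T⁻¹]) : Prop := ∀ k > 0, x.coeff k = 0

theorem isPos_zero : IsPos (0 : R[T;T⁻¹]) := fun _ _ => by simp

theorem isNeg_zero : IsNeg (0 : R[T;T⁻¹]) := fun _ _ => by simp

theorem IsPos.add {x y : R[T;T⁻¹]} (hx : IsPos x) (hy : IsPos y) : IsPos (x + y) := by
  intro k hk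
  rw [AddMonoidAlgebra.coeff_add, Finsupp.add_apply, hx k hk, hy k hk, add_zero]

theorem IsNeg.add {x y : R[T;T⁻¹]} (hx : IsNeg x) (hy : IsNeg y) : IsNeg (x + y) := by
  intro k hk
  rw [AddMonoidAlgebra.coeff_add, Finsupp.add_apply, hx k hk, hy k hk, add_zero]

theorem isPos_single {k : ℤ} (hk : 0 ≤ k) (r : R) :
    IsPos (AddMonoidAlgebra.single k r : R[T;T⁻¹]) := by
  intro l hl
  rw [AddMonoidAlgebra.coeff_single, Finsupp.single_eq_of_ne (by omega)]

theorem isNeg_single {k : ℤ} (hk : k ≤ 0) (r : R) :
    IsNeg (AddMonoidAlgebra.single k r : R[T;T⁻¹]) := by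
  intro l hl
  rw [AddMonoidAlgebra.coeff_single, Finsupp.single_eq_of_ne (by omega)]

theorem isPos_cst (r : R) : IsPos (cst R r) := isPos_single le_rfl r

theorem isNeg_cst (r : R) : IsNeg (cst R r) := isNeg_single le_rfl r

theorem isPos_posHom (p : Polynomial R) : IsPos (posHom R p) := by
  induction p using Polynomial.induction_on' with
  | add p q hp hq =>
    rw [map_add]
    exact hp.add hq
  | monomial k r =>
    rw [posHom_monomial]
    exact isPos_single (by omega) r

theorem isNeg_negHom (p : Polynomial R) : IsNeg (negHom R p) := by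
  induction p using Polynomial.induction_on' with
  | add p q hp hq =>
    rw [map_add]
    exact hp.add hq
  | monomial k r =>
    rw [negHom_monomial]
    exact isNeg_single (by omega) r

theorem eq_sum_single (x : R[T;T⁻¹]) :
    x = ∑ k ∈ x.coeff.support, AddMonoidAlgebra.single k (x.coeff k) := by
  classical
  apply ext_coeff
  intro k
  simp only [AddMonoidAlgebra.coeff_sum, AddMonoidAlgebra.coeff_single,
    Finsupp.finsetSum_apply, Finsupp.single_apply]
  rw [Finset.sum_ite_eq' x.coeff.support k]
  split_ifs with hk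
  · rfl
  · exact Finsupp.notMem_support_iff.1 hk

theorem IsPos.exists_posHom {x : R[T;T⁻¹]} (h : IsPos x) : ∃ p, posHom R p = x := by
  refine ⟨∑ k ∈ x.coeff.support, Polynomial.monomial k.toNat (x.coeff k), ?_⟩
  rw [map_sum]
  conv_rhs => rw [eq_sum_single x]
  apply Finset.sum_congr rfl
  intro k hk
  rw [posHom_monomial, Int.toNat_of_nonneg]
  by_contra hk'
  exact Finsupp.mem_support_iff.1 hk (h k (by omega))

theorem IsNeg.exists_negHom {x : R[T;T⁻¹]} (h : IsNeg x) : ∃ p, negHom R p = x := by
  refine ⟨∑ k ∈ x.coeff.support, Polynomial.monomial (-k).toNat (x.coeff k), ?_⟩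
  rw [map_sum]
  conv_rhs => rw [eq_sum_single x]
  apply Finset.sum_congr rfl
  intro k hk
  rw [negHom_monomial, Int.toNat_of_nonneg, neg_neg]
  by_contra hk'
  exact Finsupp.mem_support_iff.1 hk (h k (by omega))

theorem posHom_injective : Function.Injective (posHom R) := Polynomial.toLaurent_injective

theorem negHom_injective : Function.Injective (negHom R) := by
  intro p q h
  apply posHom_injective
  have h1 : ∀ p : Polynomial R, ∀ k, (negHom R p).coeff k = (posHom R p).coeff (-k) := by
    intro p k
    induction p using Polynomial.induction_on' with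
    | add p q hp hq =>
      rw [map_add, map_add, AddMonoidAlgebra.coeff_add, AddMonoidAlgebra.coeff_add,
        Finsupp.add_apply, Finsupp.add_apply, hp, hq]
    | monomial l r =>
      classical
      rw [negHom_monomial, posHom_monomial, AddMonoidAlgebra.coeff_single,
        AddMonoidAlgebra.coeff_single, Finsupp.single_apply, Finsupp.single_apply]
      by_cases hk : -(l : ℤ) = k
      · rw [if_pos hk, if_pos (by omega)]
      · rw [if_neg hk, if_neg (by omega)]
  apply ext_coeff
  intro k
  have := congrArg (fun z => AddMonoidAlgebra.coeff z (-k)) h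
  simp only [h1, neg_neg] at this
  exact this

theorem exists_matrix_lift {m n : Type*} {Λ : Type*} {Λ' : Type*} (f : Λ → Λ')
    (X : Matrix m n Λ') (h : ∀ i j, ∃ p, f p = X i j) : ∃ Y : Matrix m n Λ, Y.map f = X := by
  choose g hg using h
  exact ⟨Matrix.of g, by ext i j; exact hg i j⟩

theorem matrix_map_injective {m n : Type*} {Λ : Type*} {Λ' : Type*} {f : Λ → Λ'}
    (hf : Function.Injective f) {X Y : Matrix m n Λ} (h : X.map f = Y.map f) : X = Y := by
  ext i j
  exact hf (congrFun (congrFun h i) j)

theorem mk_cls_pos {n : Type*} [Fintype n] [DecidableEq n] (X : Matrix n n R[T;T⁻¹])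
    (hX : X * X = X) (h : ∀ i j, IsPos (X i j)) : Km1.mk (K0.cls X hX) = 0 := by
  obtain ⟨Y, rfl⟩ := exists_matrix_lift (posHom R) X (fun i j => (h i j).exists_posHom)
  have hY : Y * Y = Y := by
    apply matrix_map_injective (posHom_injective (R := R))
    rw [Matrix.map_mul, hX]
  rw [← K0.map_cls (posHom R) Y hY]
  exact Km1.mk_pos _

theorem mk_cls_neg {n : Type*} [Fintype n] [DecidableEq n] (X : Matrix n n R[T;T⁻¹])
    (hX : X * X = X) (h : ∀ i j, IsNeg (X i j)) : Km1.mk (K0.cls X hX) = 0 := by
  obtain ⟨Y, rfl⟩ := exists_matrix_lift (negHom R) X (fun i j => (h i j).exists_negHom)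
  have hY : Y * Y = Y := by
    apply matrix_map_injective (negHom_injective (R := R))
    rw [Matrix.map_mul, hX]
  rw [← K0.map_cls (negHom R) Y hY]
  exact Km1.mk_neg _

end PosNeg

end Pool.Agent.H95.KM
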