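import Pool.Agent.H71.FJ.Nil

/-!
# Project KM: finite commutative rings and their maximal ideals
-/

set_option autoImplicit false

universe u v w

namespace Pool.Agent.H95.KM

open Pool.Agent.H71.FJ

variable (A : Type u) [CommRing A]

/-- The product of the residue maps. -/
def resPi : A →+* ∀ m : MaximalSpectrum A, A ⧸ m.asIdeal :=
  RingHom.pi fun m => Ideal.Quotient.mk m.asIdeal

variable [Finite A]

theorem resPi_surjective : Function.Surjective (resPi A) := by
  classical
  have h : Pairwise fun m m' : MaximalSpectrum A => IsCoprime m.asIdeal m'.asIdeal := by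
    intro m m' hmm'
    rw [Ideal.isCoprime_iff_sup_eq]
    exact Ideal.IsMaximal.coprime_of_ne m.isMaximal m'.isMaximal
      (fun h => hmm' (MaximalSpectrum.ext h))
  have := Ideal.quotientInfToPiQuotient_surj (I := fun m : MaximalSpectrum A => m.asIdeal) h
  intro y
  obtain ⟨x, hx⟩ := this y
  obtain ⟨a, rfl⟩ := Ideal.Quotient.mk_surjective x
  exact ⟨a, hx⟩

omit [Finite A] in
theorem mem_jacobson_of_resPi {x : A} (hx : resPi A x = 0) : x ∈ (⊥ : Ideal A).jacobson := by
  rw [Ideal.jacobson, Ideal.mem_sInf]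
  rintro J ⟨_, hJ⟩
  exact Ideal.Quotient.eq_zero_iff_mem.1 (congrFun hx ⟨J, hJ⟩)

theorem resPi_nilKer : NilKer (resPi A) := by
  obtain ⟨k, hk⟩ := IsArtinianRing.isNilpotent_jacobson_bot (R := A)
  refine ⟨k, fun j => ((Ideal.jacobson (⊥ : Ideal A)) ^ j).toAddSubgroup, ?_, ?_, ?_⟩
  · intro x
    change x ∈ (Ideal.jacobson (⊥ : Ideal A)) ^ 0
    rw [pow_zero, Ideal.one_eq_top]
    trivial
  · intro x hx
    change x ∈ (Ideal.jacobson (⊥ : Ideal A)) ^ k at hx
    rw [hk] at hx
    simpa using hx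
  · intro j x y hx hy
    change x * y ∈ (Ideal.jacobson (⊥ : Ideal A)) ^ (j + 1)
    rw [pow_succ']
    exact Ideal.mul_mem_mul (mem_jacobson_of_resPi A hx) hy

theorem exists_orth [Fintype (MaximalSpectrum A)] : ∃ κ : MaximalSpectrum A → A,
    CompleteOrthogonalIdempotents κ ∧ ∀ m, κ m ∉ m.asIdeal := by
  classical
  obtain ⟨κ, h1, h2⟩ := CompleteOrthogonalIdempotents.lift_of_isNilpotent_ker (resPi A)
    (fun x hx => (resPi_nilKer A).isNilpotent (RingHom.mem_ker.1 hx))
    (e := fun m => Pi.single m 1)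
    (CompleteOrthogonalIdempotents.single (fun m : MaximalSpectrum A => A ⧸ m.asIdeal))
    (fun m => resPi_surjective A _)
  refine ⟨κ, h1, fun m hm => ?_⟩
  have h3 := congrFun (congrFun h2 m) m
  have h4 : resPi A (κ m) m = 0 := Ideal.Quotient.eq_zero_iff_mem.2 hm
  rw [Function.comp_apply, h4, Pi.single_eq_same] at h3
  have := m.isMaximal
  exact zero_ne_one h3

omit [Finite A] in
theorem isUnit_of_forall_notMem (a : A) (h : ∀ m : MaximalSpectrum A, a ∉ m.asIdeal) :
    IsUnit a := by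
  by_contra ha
  obtain ⟨M, hM, haM⟩ := exists_max_ideal_of_mem_nonunits ha
  exact h ⟨M, hM⟩ haM

end Pool.Agent.H95.KM
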