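import Pool.Agent.H95.KM.Joint
import Pool.Agent.H95.KM.FinRing

/-!
# Project KM, module Const: rings with `K₀(R) = K₀(R[t, t⁻¹])`

`cst R : R → R[t, t⁻¹]`, `ev1 R : R[t, t⁻¹] → R` (`t ↦ 1`), `nilKer_lau`, `lau_surjective`, ... are in
`Pool/Agent/H95/KM/Lau.lean`; `K0_joint`, `K0_pid`, `laurent_pid` in
`Pool/Agent/H95/KM/Joint.lean`.

PROOF of `const_field`.  `y = r • [1]` by `K0_pid`, `laurent_pid`, and `K0.map_one'` gives
`K0.map (cst k) (K0.map (ev1 k) y) = r • [1]`.
PROOF of `const_joint`.  For `y ∈ K₀(R[t,t⁻¹])` put `z = y - K0.map (cst R) (K0.map (ev1 R) y)`.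
For each `i` the image of `z` under `K0.map (lau (p i))` is `y_i - K0.map cst (K0.map ev1 y_i) = 0`
with `y_i` the image of `y` (`lau_cst`, `ev1_lau`, `K0.map_map`).  Apply `K0_joint` to the maps
`lau (p i) : R[t,t⁻¹] → (R' i)[t,t⁻¹]`: joint surjectivity coefficientwise (build preimages with
`eq_sum_single` / `exists_lau`; e.g. compare `(∀ i, R' i)[t,t⁻¹]` with `∀ i, (R' i)[t,t⁻¹]`: given
`y i ∈ (R' i)[t,t⁻¹]` choose `r k ∈ R` with `p i (r k) = (y i).coeff k` for all `i` and sum
`single k (r k)` over the union of the supports), nilpotent kernel from that of `RingHom.pi p` by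
`nilKer_lau` and `NilKer.mono` (an element killed by all `lau (p i)` is killed by
`lau (RingHom.pi p)`, coefficientwise).
PROOF of `const_finite`.  A finite commutative ring `R` is artinian; the maximal ideals `m` are
finitely many, `p m : R → R / m` are jointly surjective (Chinese remainder,
`Ideal.quotientInfRingEquivPiQuotient` or `IsArtinianRing...`), and the joint kernel is the
Jacobson radical, a nilpotent ideal (`IsArtinianRing.isNilpotent_jacobson_bot` or so), which gives
`NilKer`: with `J j = (jacobson ⊥) ^ j` as additive subgroups.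
-/

set_option autoImplicit false

open Matrix
open scoped LaurentPolynomial

universe u v w

namespace Pool.Agent.H95.KM

open Pool.Agent.H71.FJ

/-- `K₀(R) = K₀(R[t, t⁻¹])`. -/
def Const (R : Type u) [Ring R] : Prop :=
  ∀ y : K0 R[T;T⁻¹], y = K0.map (cst R) (K0.map (ev1 R) y)

theorem const_field (k : Type u) [Field k] : Const k := by
  intro y
  obtain ⟨h1, h2⟩ := laurent_pid k
  obtain ⟨r, hr⟩ := K0_pid y
  rw [hr, map_zsmul, map_zsmul, K0.map_one', K0.map_one']

/-- Joint surjectivity passes to Laurent polynomials. -/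
theorem lau_pi_surjective {R : Type u} [Ring R] {ι : Type w} [Finite ι] {R' : ι → Type v}
    [∀ i, Ring (R' i)] (p : ∀ i, R →+* R' i)
    (hs : Function.Surjective (RingHom.pi p : R →+* ∀ i, R' i)) :
    Function.Surjective (RingHom.pi (fun i => lau (p i)) : R[T;T⁻¹] →+* ∀ i, (R' i)[T;T⁻¹]) := by
  classical
  have : Fintype ι := Fintype.ofFinite ι
  intro y
  choose g hg using fun k : ℤ => hs (fun i => (y i).coeff k)
  refine ⟨∑ k ∈ Finset.univ.biUnion (fun i => (y i).coeff.support),
    AddMonoidAlgebra.single k (g k), ?_⟩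
  funext i
  change lau (p i) _ = y i
  rw [map_sum]
  have h1 : ∀ k, lau (p i) (AddMonoidAlgebra.single k (g k)) =
      AddMonoidAlgebra.single k ((y i).coeff k) := by
    intro k
    rw [lau_single]
    congr 1
    exact congrFun (hg k) i
  simp only [h1]
  conv_rhs => rw [eq_sum_single (y i)]
  symm
  apply Finset.sum_subset
  · intro k hk
    exact Finset.mem_biUnion.2 ⟨i, Finset.mem_univ _, hk⟩
  · intro k _ hk
    rw [Finsupp.notMem_support_iff.1 hk, AddMonoidAlgebra.single_zero]

theorem lau_pi_nilKer {R : Type u} [Ring R] {ι : Type w} {R' : ι → Type v}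
    [∀ i, Ring (R' i)] (p : ∀ i, R →+* R' i) (hn : NilKer (RingHom.pi p)) :
    NilKer (RingHom.pi (fun i => lau (p i)) : R[T;T⁻¹] →+* ∀ i, (R' i)[T;T⁻¹]) := by
  apply (nilKer_lau hn).mono
  intro x hx
  apply ext_coeff
  intro k
  rw [lau_coeff]
  funext i
  have h1 : lau (p i) x = 0 := congrFun hx i
  have h2 := lau_coeff (p i) x k
  rw [h1] at h2
  change p i (x.coeff k) = _
  rw [← h2]
  simp

theorem const_joint {R : Type u} [Ring R] {ι : Type w} [Finite ι] {R' : ι → Type v}
    [∀ i, Ring (R' i)] (p : ∀ i, R →+* R' i)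
    (hs : Function.Surjective (RingHom.pi p : R →+* ∀ i, R' i)) (hn : NilKer (RingHom.pi p))
    (h : ∀ i, Const (R' i)) : Const R := by
  intro y
  rw [← sub_eq_zero]
  apply K0_joint (fun i => lau (p i)) (lau_pi_surjective p hs) (lau_pi_nilKer p hn)
  intro i
  rw [map_sub, K0.map_map, lau_cst, ← K0.map_map, K0.map_map (p i), ← ev1_lau, ← K0.map_map,
    ← h i, sub_self]

theorem const_pi {ι : Type w} [Finite ι] {R' : ι → Type v} [∀ i, Ring (R' i)]
    (h : ∀ i, Const (R' i)) : Const (∀ i, R' i) := by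
  apply const_joint (fun i => Pi.evalRingHom R' i) _ _ h
  · intro y
    exact ⟨y, rfl⟩
  · refine ⟨1, fun j => if j = 0 then ⊤ else ⊥, ?_, ?_, ?_⟩
    · intro x
      simp
    · intro x hx
      simpa using hx
    · intro j x y hx hy
      have : x = 0 := hx
      rw [this, zero_mul]
      exact AddSubgroup.zero_mem _

theorem const_finite (R : Type u) [CommRing R] [Finite R] : Const R := by
  apply const_joint (fun m : MaximalSpectrum R => Ideal.Quotient.mk m.asIdeal)
    (resPi_surjective R) (resPi_nilKer R)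
  intro m
  have := m.isMaximal
  let _ : Field (R ⧸ m.asIdeal) := Ideal.Quotient.field m.asIdeal
  exact const_field (R ⧸ m.asIdeal)

end Pool.Agent.H95.KM
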