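import Pool.Agent.H95.KM.Der

/-!
# Project KM, module Window: the window lemma

Let `x : m × (r₁ ⊕ r₂)`, `y : (r₁ ⊕ r₂) × m` be matrices over `R[t, t⁻¹]` with `x y = 1` and
`y x = Xp ⊕ Xn`, `Xp` over `R[t]`, `Xn` over `R[t⁻¹]`.  Write `x = ∑ x_j t^j`, `y = ∑ y_j t^j`, with
`x_j, y_j` matrices over `R` (`x_j i k = (x i k).coeff j`).

PROOF.  Choose `d : ℕ` with `x_j = 0`, `y_j = 0` for `|j| > d` (finitely many finite supports).
For `k l : ℤ` put `q k l = ∑_{s ≥ 0} x_{k-s} y_{s-l}` (an `m × m` matrix over `R`; the sum is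
finite, e.g. over `s ∈ [0, ∞) ∩ [k-d, k+d]`; nonzero terms need `|k-s| ≤ d` and `|s-l| ≤ d`).

(1) If `l ≥ d` (or `k ≥ d`) then all `s` with a nonzero term are `≥ 0`, so
    `q k l = ∑_s x_{k-s} y_{s-l} = (x y)_{k-l} = δ_{kl} 1`.
(2) If `l < -d` (or `k < -d`) then there are no nonzero terms with `s ≥ 0`, so `q k l = 0`.
(3) `∑_j (q k j) (q j l) = q k l`, the sum over all `j : ℤ` (finite support).  Indeed put
    `X_n = (y x)_n = ∑_j y_{n-j} x_j`.  Then `∑_j q k j * q j l =
    ∑_{s ≥ 0} ∑_{s' ≥ 0} x_{k-s} (∑_j y_{s-j} x_{j-s'}) y_{s'-l} =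
    ∑_{s ≥ 0} ∑_{s' ≥ 0} x_{k-s} X_{s-s'} y_{s'-l}`.  `X_n = Xp_n ⊕ Xn_n` (block diagonal), and
    `Xp_n = 0` for `n < 0`, `Xn_n = 0` for `n > 0`.  Write `x_j = (x¹_j, x²_j)` (columns) and
    `y_j = (y¹_j; y²_j)` (rows) for the decomposition `r₁ ⊕ r₂`.  For the `Xp` part:
    `∑_{s ≥ 0} x¹_{k-s} Xp_{s-s'} = ∑_{s ∈ ℤ} x¹_{k-s} Xp_{s-s'}` for `s' ≥ 0` (terms with
    `s < 0 ≤ s'` vanish) `= (x (y x))¹_{k-s'} = x¹_{k-s'}` as `x y x = x`.  For the `Xn` part:
    `∑_{s' ≥ 0} Xn_{s-s'} y²_{s'-l} = ∑_{s' ∈ ℤ} = ((y x) y)²_{s-l} = y²_{s-l}` for `s ≥ 0`.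
    Hence the total is `∑_{s ≥ 0} (x¹_{k-s} y¹_{s-l} + x²_{k-s} y²_{s-l}) = q k l`.
(4) So the matrix `q_W` over `R` with index set `W × m`, `W = [-d, d)`,
    `q_W (k, i) (l, j) = q k l i j`, is idempotent: for `k, l ∈ W` the terms with `j ∉ W` in (3)
    vanish by (1), (2) (for `j ≥ d`: `q k j = δ_{kj} = 0`; for `j < -d`: `q k j = 0`).
(5) `τ(tr q_W) = ∑_{k ∈ W} ∑_{s ≥ 0} T(x_{k-s} y_{s-k})`, `T(Z) = ∑_i τ(Z i i)`; collecting by
    `j = k - s ∈ [-d, d]`: the number of `k ∈ [-d, d)` with `k ≥ j` is `d - j`.  So it equals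
    `∑_j (d - j) T(x_j y_{-j}) = d T((x y)_0) - ∑_j j T(x_j y_{-j}) = d |m| τ(1) - T0 τ (∂x · y)`.

It may be convenient to work with functions `ℤ → Matrix m r R` vanishing outside `[-d, d]`; the
coefficients of products are given by `AddMonoidAlgebra.coeff_mul` (or prove a convolution formula
`(a * b).coeff n = ∑ j ∈ Finset.Icc (-D) D, a.coeff j * b.coeff (n - j)` for `a` supported in
`[-D, D]`, by `eq_sum_single` or `induction_linear`).
-/

set_option autoImplicit false

open Matrix
open scoped LaurentPolynomial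

universe u v w

namespace Pool.Agent.H95.KM

open Pool.Agent.H71.FJ

variable {R : Type u} [Ring R]

/-- the part in degrees `≥ 0` -/
private noncomputable def wTrn : R[T;T⁻¹] →+ R[T;T⁻¹] where
  toFun z := AddMonoidAlgebra.ofCoeff (Finsupp.filter (fun k : ℤ => 0 ≤ k) z.coeff)
  map_zero' := by
    apply ext_coeff
    intro k
    have h : (Finsupp.filter (fun k : ℤ => 0 ≤ k) (0 : ℤ →₀ R)) k = 0 := by
      rw [Finsupp.filter_zero]
      rfl
    simpa using h
  map_add' a b := by
    apply ext_coeff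
    intro k
    rw [AddMonoidAlgebra.coeff_add, AddMonoidAlgebra.coeff_add, Finsupp.filter_add]

private theorem wTrn_coeff (z : R[T;T⁻¹]) (k : ℤ) :
    (wTrn z).coeff k = if 0 ≤ k then z.coeff k else 0 :=
  Finsupp.filter_apply _ _ _

private theorem wTrn_of_pos {z : R[T;T⁻¹]} (h : ∀ k < 0, z.coeff k = 0) : wTrn z = z := by
  apply ext_coeff
  intro k
  rw [wTrn_coeff]
  split_ifs with hk
  · rfl
  · exact (h k (by omega)).symm

private theorem wTrn_of_neg {z : R[T;T⁻¹]} (h : ∀ k ≥ 0, z.coeff k = 0) : wTrn z = 0 := by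
  apply ext_coeff
  intro k
  rw [wTrn_coeff, AddMonoidAlgebra.coeff_zero, Finsupp.coe_zero, Pi.zero_apply]
  split_ifs with hk
  · exact h k hk
  · rfl

private theorem wTrn_mul_cst (z : R[T;T⁻¹]) (c : R) :
    wTrn (z * AddMonoidAlgebra.single 0 c) = wTrn z * AddMonoidAlgebra.single 0 c := by
  apply ext_coeff
  intro k
  rw [wTrn_coeff, AddMonoidAlgebra.coeff_mul_single_zero, AddMonoidAlgebra.coeff_mul_single_zero,
    wTrn_coeff]
  split_ifs
  · rfl
  · rw [zero_mul]

private theorem w_coeff_mul_ge {u z : R[T;T⁻¹]} {a b : ℤ} (hu : ∀ j < a, u.coeff j = 0)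
    (hz : ∀ j < b, z.coeff j = 0) : ∀ k < a + b, (u * z).coeff k = 0 := by
  classical
  intro k hk
  rw [AddMonoidAlgebra.coeff_mul]
  rw [Finsupp.sum]
  apply Finset.sum_eq_zero
  intro j hj
  rw [Finsupp.sum]
  apply Finset.sum_eq_zero
  intro l hl
  rw [if_neg]
  intro h
  have h1 : ¬ j < a := fun h1 => Finsupp.mem_support_iff.1 hj (hu j h1)
  have h2 : ¬ l < b := fun h1 => Finsupp.mem_support_iff.1 hl (hz l h1)
  omega

private theorem w_coeff_mul_le {u z : R[T;T⁻¹]} {a b : ℤ} (hu : ∀ j > a, u.coeff j = 0)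
    (hz : ∀ j > b, z.coeff j = 0) : ∀ k > a + b, (u * z).coeff k = 0 := by
  classical
  intro k hk
  rw [AddMonoidAlgebra.coeff_mul]
  rw [Finsupp.sum]
  apply Finset.sum_eq_zero
  intro j hj
  rw [Finsupp.sum]
  apply Finset.sum_eq_zero
  intro l hl
  rw [if_neg]
  intro h
  have h1 : ¬ j > a := fun h1 => Finsupp.mem_support_iff.1 hj (hu j h1)
  have h2 : ¬ l > b := fun h1 => Finsupp.mem_support_iff.1 hl (hz l h1)
  omega

private theorem w_coeff_sum {ι : Type*} (s : Finset ι) (f : ι → R[T;T⁻¹]) (k : ℤ) :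
    (∑ i ∈ s, f i).coeff k = ∑ i ∈ s, (f i).coeff k := by
  rw [AddMonoidAlgebra.coeff_sum, Finsupp.finsetSum_apply]

/-- the trace computation for one pair of entries -/
private theorem w_trace_pair (d : ℕ) (u w : R[T;T⁻¹]) (hu : ∀ j, (d : ℤ) < |j| → u.coeff j = 0) :
    ∑ k : Fin (2 * d), (u * wTrn (w * AddMonoidAlgebra.single ((k : ℤ) - d) 1)).coeff
      ((k : ℤ) - d) = d • (u * w).coeff 0 - (der R u * w).coeff 0 := by
  classical
  suffices H : ∀ j : ℤ, |j| ≤ d → ∀ (r : R),
      ∑ k : Fin (2 * d), (AddMonoidAlgebra.single j r *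
        wTrn (w * AddMonoidAlgebra.single ((k : ℤ) - d) 1)).coeff ((k : ℤ) - d) =
      d • (AddMonoidAlgebra.single j r * w).coeff 0 -
        (der R (AddMonoidAlgebra.single j r) * w).coeff 0 by
    have hu' : ∀ j ∈ u.coeff.support, |j| ≤ d := by
      intro j hj
      by_contra h
      exact Finsupp.mem_support_iff.1 hj (hu j (by omega))
    rw [eq_sum_single u]
    simp only [Finset.sum_mul, w_coeff_sum, map_sum, Finset.smul_sum]
    rw [Finset.sum_comm, ← Finset.sum_sub_distrib]
    exact Finset.sum_congr rfl fun j hj => H j (hu' j hj) _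
  intro j hj r
  induction w using AddMonoidAlgebra.induction_linear with
  | zero => simp
  | add w w' hw hw' =>
    simp only [add_mul, map_add, mul_add, AddMonoidAlgebra.coeff_add, Finsupp.add_apply,
      Finset.sum_add_distrib, smul_add]
    rw [hw, hw']
    abel
  | single l s =>
    have h1 : ∀ k : Fin (2 * d), (AddMonoidAlgebra.single j r *
        wTrn (AddMonoidAlgebra.single l s * AddMonoidAlgebra.single ((k : ℤ) - d) 1)).coeff
          ((k : ℤ) - d) =
        if j + l = 0 ∧ j + d ≤ (k : ℤ) then r * s else 0 := by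
      intro k
      rw [AddMonoidAlgebra.single_mul_single, mul_one]
      have h2 : wTrn (AddMonoidAlgebra.single (l + ((k : ℤ) - d)) s : R[T;T⁻¹]) =
          if 0 ≤ l + ((k : ℤ) - d) then AddMonoidAlgebra.single (l + ((k : ℤ) - d)) s else 0 := by
        split_ifs with h
        · apply wTrn_of_pos
          intro n hn
          rw [AddMonoidAlgebra.coeff_single, Finsupp.single_eq_of_ne (by omega)]
        · apply wTrn_of_neg
          intro n hn
          rw [AddMonoidAlgebra.coeff_single, Finsupp.single_eq_of_ne (by omega)]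
      rw [h2]
      by_cases h3 : 0 ≤ l + ((k : ℤ) - d)
      · rw [if_pos h3, AddMonoidAlgebra.single_mul_single, AddMonoidAlgebra.coeff_single,
          Finsupp.single_apply]
        by_cases h4 : j + l = 0
        · rw [if_pos (by omega), if_pos ⟨h4, by omega⟩]
        · rw [if_neg (by omega), if_neg (fun h => h4 h.1)]
      · rw [if_neg h3, mul_zero, AddMonoidAlgebra.coeff_zero, Finsupp.coe_zero, Pi.zero_apply,
          if_neg]
        rintro ⟨h4, h5⟩
        omega
    rw [Finset.sum_congr rfl fun k _ => h1 k, der_single, AddMonoidAlgebra.single_mul_single,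
      AddMonoidAlgebra.single_mul_single, AddMonoidAlgebra.coeff_single,
      AddMonoidAlgebra.coeff_single, Finsupp.single_apply, Finsupp.single_apply]
    by_cases h4 : j + l = 0
    · rw [if_pos h4, if_pos h4]
      simp only [h4, true_and]
      rw [Finset.sum_ite, Finset.sum_const_zero, add_zero, Finset.sum_const]
      obtain ⟨e, he⟩ : ∃ e : ℕ, (e : ℤ) = j + d := ⟨(j + d).toNat, by
        rw [Int.toNat_of_nonneg]
        have := neg_abs_le j
        omega⟩
      have hjd : j ≤ d := (le_abs_self j).trans hj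
      have hcard : (Finset.univ.filter fun k : Fin (2 * d) => j + d ≤ (k : ℤ)).card =
          2 * d - e := by
        have h5 : (Finset.univ.filter fun k : Fin (2 * d) => j + d ≤ (k : ℤ)).card =
            (Finset.Ico e (2 * d)).card := by
          refine Finset.card_bij (fun k _ => (k : ℕ)) ?_ ?_ ?_
          · intro k hk
            have hk1 := (Finset.mem_filter.1 hk).2
            rw [Finset.mem_Ico]
            exact ⟨by omega, k.2⟩
          · intro k _ k' _ h
            exact Fin.ext h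
          · intro b hb
            rw [Finset.mem_Ico] at hb
            refine ⟨⟨b, hb.2⟩, ?_, rfl⟩
            rw [Finset.mem_filter]
            refine ⟨Finset.mem_univ _, ?_⟩
            show j + (d : ℤ) ≤ ((b : ℕ) : ℤ)
            omega
        rw [h5, Nat.card_Ico]
      rw [hcard]
      have h6 : (j • r) * s = j • (r * s) := smul_mul_assoc _ _ _
      rw [h6, ← natCast_zsmul, ← natCast_zsmul, ← sub_smul]
      congr 1
      rw [Nat.cast_sub (by omega)]
      push_cast
      omega
    · rw [if_neg h4, if_neg h4, smul_zero, sub_zero]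
      apply Finset.sum_eq_zero
      intro k _
      rw [if_neg (fun h => h4 h.1)]

section Op

variable {m r : Type} [Fintype m] [Fintype r]

/-- the operator `x ∘ (degrees ≥ 0) ∘ y` -/
private noncomputable def wQ (x : Matrix m r R[T;T⁻¹]) (y : Matrix r m R[T;T⁻¹])
    (v : m → R[T;T⁻¹]) : m → R[T;T⁻¹] := x *ᵥ fun b => wTrn ((y *ᵥ v) b)

private theorem wQ_sum (x : Matrix m r R[T;T⁻¹]) (y : Matrix r m R[T;T⁻¹]) {ι : Type*}
    (s : Finset ι) (v : ι → m → R[T;T⁻¹]) : wQ x y (∑ i ∈ s, v i) = ∑ i ∈ s, wQ x y (v i) := by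
  classical
  have h0 : wQ x y 0 = 0 := by
    unfold wQ
    have : (fun b => wTrn ((y *ᵥ (0 : m → R[T;T⁻¹])) b)) = 0 := by
      funext b
      rw [mulVec_zero, Pi.zero_apply, map_zero]
    rw [this, mulVec_zero]
  have ha : ∀ a b, wQ x y (a + b) = wQ x y a + wQ x y b := by
    intro a b
    unfold wQ
    rw [← mulVec_add]
    congr 1
    funext c
    rw [mulVec_add, Pi.add_apply, map_add, Pi.add_apply]
  induction s using Finset.induction_on with
  | empty => simp [h0]
  | insert i s hi ih => rw [Finset.sum_insert hi, Finset.sum_insert hi, ha, ih]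

private theorem wQ_mul_cst (x : Matrix m r R[T;T⁻¹]) (y : Matrix r m R[T;T⁻¹])
    (v : m → R[T;T⁻¹]) (c : R) :
    wQ x y (fun i => v i * AddMonoidAlgebra.single 0 c) =
      fun i => wQ x y v i * AddMonoidAlgebra.single 0 c := by
  have h : ∀ {p q : Type} [Fintype q] (z : Matrix p q R[T;T⁻¹]) (v : q → R[T;T⁻¹]),
      z *ᵥ (fun i => v i * AddMonoidAlgebra.single 0 c) =
        fun i => (z *ᵥ v) i * AddMonoidAlgebra.single 0 c := by
    intro p q _ z v
    funext i
    simp only [mulVec, dotProduct, Finset.sum_mul, mul_assoc]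
  unfold wQ
  rw [h]
  simp only [wTrn_mul_cst]
  rw [h]

end Op

theorem window {M : Type*} [AddCommGroup M] (τ : R →+ M)
    {m r₁ r₂ : Type} [Fintype m] [DecidableEq m] [Fintype r₁] [DecidableEq r₁] [Fintype r₂]
    [DecidableEq r₂] (x : Matrix m (r₁ ⊕ r₂) R[T;T⁻¹]) (y : Matrix (r₁ ⊕ r₂) m R[T;T⁻¹])
    (Xp : Matrix r₁ r₁ R[T;T⁻¹]) (Xn : Matrix r₂ r₂ R[T;T⁻¹]) (hxy : x * y = 1)
    (hyx : y * x = fromBlocks Xp 0 0 Xn) (hp : ∀ i j, IsPos (Xp i j))
    (hn : ∀ i j, IsNeg (Xn i j)) :
    ∃ (d : ℕ) (q : IdemMat R),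
      T0 τ (x.map (der R) * y) = (d * Fintype.card m) • τ 1 - τ (trace q.mat) := by
  classical
  -- a common bound for the degrees
  obtain ⟨d, hdx, hdy⟩ : ∃ d : ℕ, (∀ i a j, (d : ℤ) < |j| → (x i a).coeff j = 0) ∧
      (∀ a i j, (d : ℤ) < |j| → (y a i).coeff j = 0) := by
    have h1 : ∀ z : R[T;T⁻¹], ∃ d : ℕ, ∀ j, (d : ℤ) < |j| → z.coeff j = 0 := by
      intro z
      refine ⟨∑ j ∈ z.coeff.support, j.natAbs, ?_⟩
      intro j hj
      by_contra hne
      have h2 : j ∈ z.coeff.support := Finsupp.mem_support_iff.2 hne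
      have h3 := Finset.single_le_sum (f := fun j : ℤ => j.natAbs) (fun _ _ => Nat.zero_le _) h2
      have h4 : (j.natAbs : ℤ) = |j| := Int.natCast_natAbs j
      omega
    choose D hD using h1
    refine ⟨(∑ i, ∑ a, D (x i a)) + ∑ a, ∑ i, D (y a i), ?_, ?_⟩
    · intro i a j hj
      apply hD
      have h2 : D (x i a) ≤ ∑ a, D (x i a) :=
        Finset.single_le_sum (f := fun a => D (x i a)) (fun _ _ => Nat.zero_le _)
          (Finset.mem_univ a)
      have h3 : ∑ a, D (x i a) ≤ ∑ i, ∑ a, D (x i a) :=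
        Finset.single_le_sum (f := fun i => ∑ a, D (x i a)) (fun _ _ => Nat.zero_le _)
          (Finset.mem_univ i)
      omega
    · intro a i j hj
      apply hD
      have h2 : D (y a i) ≤ ∑ i, D (y a i) :=
        Finset.single_le_sum (f := fun i => D (y a i)) (fun _ _ => Nat.zero_le _)
          (Finset.mem_univ i)
      have h3 : ∑ i, D (y a i) ≤ ∑ a, ∑ i, D (y a i) :=
        Finset.single_le_sum (f := fun a => ∑ i, D (y a i)) (fun _ _ => Nat.zero_le _)
          (Finset.mem_univ a)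
      omega
  set Q : (m → R[T;T⁻¹]) → m → R[T;T⁻¹] := wQ x y with hQ
  -- `Q` is idempotent
  have hQQ : ∀ v, Q (Q v) = Q v := by
    intro v
    set w : r₁ ⊕ r₂ → R[T;T⁻¹] := y *ᵥ v with hw
    set Pw : r₁ ⊕ r₂ → R[T;T⁻¹] := fun b => wTrn (w b) with hPw
    have hQv : Q v = x *ᵥ Pw := rfl
    have hXw : (y * x) *ᵥ w = w := by
      rw [hw, mulVec_mulVec, Matrix.mul_assoc, hxy, Matrix.mul_one]
    set z : r₁ ⊕ r₂ → R[T;T⁻¹] := Sum.elim (fun b => Pw (Sum.inl b)) 0 with hz
    have hkey : (fun b => wTrn ((y *ᵥ Q v) b)) = Pw + ((y * x) *ᵥ z - z) := by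
      have h1 : y *ᵥ Q v = (y * x) *ᵥ Pw := by rw [hQv, mulVec_mulVec]
      rw [h1]
      funext b
      rcases b with b | b
      · have h2 : ((y * x) *ᵥ Pw) (Sum.inl b) = ∑ c, Xp b c * Pw (Sum.inl c) := by
          rw [hyx]
          simp [mulVec, dotProduct, Fintype.sum_sum_type]
        have h3 : ((y * x) *ᵥ z) (Sum.inl b) = ∑ c, Xp b c * Pw (Sum.inl c) := by
          rw [hyx]
          simp [mulVec, dotProduct, Fintype.sum_sum_type, hz]
        have h4 : wTrn (((y * x) *ᵥ Pw) (Sum.inl b)) = ((y * x) *ᵥ Pw) (Sum.inl b) := by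
          apply wTrn_of_pos
          intro k hk
          rw [h2, w_coeff_sum]
          apply Finset.sum_eq_zero
          intro c _
          refine w_coeff_mul_ge (a := 0) (b := 0) (hp b c) ?_ k (by omega)
          intro j hj
          rw [hPw]
          simp only
          rw [wTrn_coeff, if_neg (by omega)]
        rw [h4, Pi.add_apply, Pi.sub_apply, h2, h3, hz]
        simp
      · have h2 : ∀ v' : r₁ ⊕ r₂ → R[T;T⁻¹],
            ((y * x) *ᵥ v') (Sum.inr b) = ∑ c, Xn b c * v' (Sum.inr c) := by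
          intro v'
          rw [hyx]
          simp [mulVec, dotProduct, Fintype.sum_sum_type]
        have h3 : ((y * x) *ᵥ z) (Sum.inr b) = 0 := by
          rw [h2]
          simp [hz]
        have h4 : wTrn (((y * x) *ᵥ Pw) (Sum.inr b)) = Pw (Sum.inr b) := by
          have h5 : wTrn (((y * x) *ᵥ (w - Pw)) (Sum.inr b)) = 0 := by
            apply wTrn_of_neg
            intro k hk
            rw [h2, w_coeff_sum]
            apply Finset.sum_eq_zero
            intro c _
            refine w_coeff_mul_le (a := 0) (b := -1) (hn b c) ?_ k (by omega)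
            intro j hj
            rw [hPw, Pi.sub_apply, sub_eq_add_neg, AddMonoidAlgebra.coeff_add,
              AddMonoidAlgebra.coeff_neg, Finsupp.add_apply, Finsupp.neg_apply, wTrn_coeff,
              if_pos (by omega), add_neg_cancel]
          rw [mulVec_sub, Pi.sub_apply, map_sub, sub_eq_zero, hXw] at h5
          rw [← h5]
        rw [h4, Pi.add_apply, Pi.sub_apply, h3, hz]
        simp
    show x *ᵥ (fun b => wTrn ((y *ᵥ Q v) b)) = Q v
    rw [hkey, mulVec_add, mulVec_sub, mulVec_mulVec, ← Matrix.mul_assoc, hxy, Matrix.one_mul,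
      sub_self, add_zero, hQv]
  -- the degrees of `Q v`
  have hlow : ∀ v i k, k < -(d : ℤ) → (Q v i).coeff k = 0 := by
    intro v i k hk
    show ((x *ᵥ fun b => wTrn ((y *ᵥ v) b)) i).coeff k = 0
    rw [mulVec, dotProduct, w_coeff_sum]
    apply Finset.sum_eq_zero
    intro b _
    refine w_coeff_mul_ge (a := -(d : ℤ)) (b := 0) ?_ ?_ k (by omega)
    · intro j hj
      exact hdx i b j (by have := neg_abs_le j; omega)
    · intro j hj
      rw [wTrn_coeff, if_neg (by omega)]
  have hhigh : ∀ v i k, (d : ℤ) ≤ k → (Q v i).coeff k = (v i).coeff k := by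
    intro v i k hk
    set w : r₁ ⊕ r₂ → R[T;T⁻¹] := y *ᵥ v with hw
    have h1 : x *ᵥ w = v := by rw [hw, mulVec_mulVec, hxy, one_mulVec]
    have h2 : ((x *ᵥ (w - fun b => wTrn (w b))) i).coeff k = 0 := by
      rw [mulVec, dotProduct, w_coeff_sum]
      apply Finset.sum_eq_zero
      intro b _
      refine w_coeff_mul_le (a := (d : ℤ)) (b := -1) ?_ ?_ k (by omega)
      · intro j hj
        exact hdx i b j (by have := le_abs_self j; omega)
      · intro j hj
        rw [Pi.sub_apply, sub_eq_add_neg, AddMonoidAlgebra.coeff_add,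
          AddMonoidAlgebra.coeff_neg, Finsupp.add_apply, Finsupp.neg_apply, wTrn_coeff,
          if_pos (by omega), add_neg_cancel]
    rw [mulVec_sub, Pi.sub_apply, h1, sub_eq_add_neg, AddMonoidAlgebra.coeff_add,
      AddMonoidAlgebra.coeff_neg, Finsupp.add_apply, Finsupp.neg_apply, ← sub_eq_add_neg,
      sub_eq_zero] at h2
    exact h2.symm
  -- the basis vectors
  set E : Fin (2 * d) × m → m → R[T;T⁻¹] := fun p i =>
    if i = p.2 then AddMonoidAlgebra.single ((p.1 : ℤ) - d) 1 else 0 with hE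
  set q : Matrix (Fin (2 * d) × m) (Fin (2 * d) × m) R :=
    Matrix.of fun p p' => (Q (E p') p.2).coeff ((p.1 : ℤ) - d) with hq
  have hsupp : ∀ p' i k, (k < -(d : ℤ) ∨ (d : ℤ) ≤ k) → (Q (E p') i).coeff k = 0 := by
    intro p' i k hk
    rcases hk with hk | hk
    · exact hlow _ _ _ hk
    · rw [hhigh _ _ _ hk, hE]
      simp only
      split_ifs
      · rw [AddMonoidAlgebra.coeff_single, Finsupp.single_eq_of_ne]
        have := p'.1.2
        omega
      · rw [AddMonoidAlgebra.coeff_zero, Finsupp.coe_zero, Pi.zero_apply]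
  have hexp : ∀ p', Q (E p') = ∑ p : Fin (2 * d) × m,
      (fun i => E p i * AddMonoidAlgebra.single 0 (q p p')) := by
    intro p'
    funext i
    apply ext_coeff
    intro k
    rw [Finset.sum_apply, w_coeff_sum, Fintype.sum_prod_type]
    have h1 : ∀ (a : Fin (2 * d)) (b : m),
        (E (a, b) i * AddMonoidAlgebra.single 0 (q (a, b) p')).coeff k =
        if b = i then (if (a : ℤ) - d = k then q (a, i) p' else 0) else 0 := by
      intro a b
      rw [hE, AddMonoidAlgebra.coeff_mul_single_zero]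
      simp only
      by_cases hb : b = i
      · subst hb
        rw [if_pos rfl, if_pos rfl, AddMonoidAlgebra.coeff_single, Finsupp.single_apply]
        split_ifs
        · rw [one_mul]
        · rw [zero_mul]
      · rw [if_neg (Ne.symm hb), if_neg hb, AddMonoidAlgebra.coeff_zero, Finsupp.coe_zero,
          Pi.zero_apply, zero_mul]
    simp only [h1, Finset.sum_ite_eq', Finset.mem_univ, if_true]
    by_cases hk : k < -(d : ℤ) ∨ (d : ℤ) ≤ k
    · rw [hsupp p' i k hk]
      symm
      apply Finset.sum_eq_zero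
      intro a _
      rw [if_neg]
      have := a.2
      omega
    · rw [Finset.sum_eq_single (⟨(k + d).toNat, by omega⟩ : Fin (2 * d))]
      · have h2 : (((k + d).toNat : ℕ) : ℤ) - d = k := by omega
        simp only [h2, if_true]
        rw [hq, Matrix.of_apply]
        simp only [h2]
      · intro a _ ha
        rw [if_neg]
        intro h
        apply ha
        apply Fin.ext
        show (a : ℕ) = (k + d).toNat
        omega
      · intro h
        exact absurd (Finset.mem_univ _) h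
  have hqq : q * q = q := by
    refine Matrix.ext fun p p' => ?_
    have h1 := congrFun (hQQ (E p')) p.2
    rw [hexp p', hQ, wQ_sum] at h1
    simp only [wQ_mul_cst] at h1
    rw [← hQ] at h1
    have h2 := congrArg (fun z => AddMonoidAlgebra.coeff z ((p.1 : ℤ) - d)) h1
    simp only [Finset.sum_apply, w_coeff_sum, AddMonoidAlgebra.coeff_mul_single_zero] at h2
    rw [Matrix.mul_apply]
    have h3 : ∀ p'', q p p'' = (Q (E p'') p.2).coeff ((p.1 : ℤ) - d) := fun p'' => rfl
    simp only [h3 _]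
    refine h2.trans ?_
    have h4 := congrFun (hexp p') p.2
    rw [h4]
    simp only [Finset.sum_apply, w_coeff_sum, AddMonoidAlgebra.coeff_mul_single_zero]
  -- the idempotent matrix indexed by `Fin n`
  set e := Fintype.equivFin (Fin (2 * d) × m) with he
  refine ⟨d, ⟨_, q.submatrix e.symm e.symm, by rw [submatrix_mul_equiv, hqq]⟩, ?_⟩
  have htr : trace (q.submatrix e.symm e.symm) = ∑ p, q p p := by
    simp only [trace, diag_apply, submatrix_apply]
    exact Equiv.sum_comp e.symm (fun p => q p p)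
  show T0 τ (x.map (der R) * y) = (d * Fintype.card m) • τ 1 -
    τ (trace (q.submatrix e.symm e.symm))
  have hswap : ∑ p, q p p = ∑ i, ∑ k, q (k, i) (k, i) := by
    rw [Fintype.sum_prod_type, Finset.sum_comm]
  rw [htr, T0_mul, hswap]
  have hent : ∀ i : m, ∑ k : Fin (2 * d), q (k, i) (k, i) =
      ∑ a, (d • (x i a * y a i).coeff 0 - (der R (x i a) * y a i).coeff 0) := by
    intro i
    have h1 : ∀ k : Fin (2 * d), q (k, i) (k, i) =
        ∑ a, (x i a * wTrn (y a i * AddMonoidAlgebra.single ((k : ℤ) - d) 1)).coeff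
          ((k : ℤ) - d) := by
      intro k
      show (Q (E (k, i)) i).coeff ((k : ℤ) - d) = _
      have h2 : y *ᵥ E (k, i) = fun a => y a i * AddMonoidAlgebra.single ((k : ℤ) - d) 1 := by
        funext a
        simp only [mulVec, dotProduct, hE]
        simp
      show ((x *ᵥ fun b => wTrn ((y *ᵥ E (k, i)) b)) i).coeff ((k : ℤ) - d) = _
      rw [h2, mulVec, dotProduct, w_coeff_sum]
    rw [Finset.sum_congr rfl fun k _ => h1 k, Finset.sum_comm]
    exact Finset.sum_congr rfl fun a _ => w_trace_pair d (x i a) (y a i) (hdx i a)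
  rw [Finset.sum_congr rfl fun i _ => hent i]
  have hdiag : ∀ i : m, ∑ a, (x i a * y a i).coeff 0 = (1 : R) := by
    intro i
    have h1 := congrArg (fun z => AddMonoidAlgebra.coeff z 0) (congrFun (congrFun hxy i) i)
    simp only [Matrix.mul_apply, w_coeff_sum, Matrix.one_apply_eq] at h1
    rw [h1]
    show (AddMonoidAlgebra.single (0 : ℤ) (1 : R) : R[T;T⁻¹]).coeff 0 = 1
    rw [AddMonoidAlgebra.coeff_single, Finsupp.single_eq_same]
  have hfin : ∀ i : m, ∑ a, (d • (x i a * y a i).coeff 0 - (der R (x i a) * y a i).coeff 0) =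
      d • (1 : R) - ∑ a, (der R (x i a) * y a i).coeff 0 := by
    intro i
    rw [Finset.sum_sub_distrib, ← Finset.smul_sum, hdiag]
  rw [Finset.sum_congr rfl fun i _ => hfin i, Finset.sum_sub_distrib, map_sub, Finset.sum_const,
    Finset.card_univ, map_nsmul, map_nsmul, smul_smul, map_sum]
  simp only [map_sum, Matrix.map_apply]
  rw [mul_comm (Fintype.card m) d]
  abel

end Pool.Agent.H95.KM
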