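import Pool.Agent.H95.KM.Extract
import Pool.Agent.H95.KM.Window

/-!
# Project KM, module Detect: trace invariants of classes vanishing in `K₋₁`

PROOF of `T0_change`.  `g` has inverse `g'`.
`T0 τ (∂(g x) · (y g')) = T0 τ (∂g · x y · g') + T0 τ (g · ∂x · y · g')
 = T0 τ (∂g · g') + T0 τ (∂x · y · g' g)` (`map_der_mul`, `T0_mul_comm`, `x y = 1`, `g' g = 1`).

PROOF of `detect`.  `extract` gives `k, Xp, Xn` and `u, v` with `u v = H ⊕ 1_k`, `v u = Xp ⊕ Xn`.
Normalize: replace `u` by `(u v) u (v u)` and `v` by `(v u) v (u v)`; then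
`(u v) u = u`, `u (v u) = u`, `(v u) v = v`, `v (u v) = v` (idempotency of `H ⊕ 1_k` and
`Xp ⊕ Xn`), and `u v = H ⊕ 1_k`, `v u = Xp ⊕ Xn` still hold.
Put `s = T0 (τ ∘ f) (∂u · v)`.  Let `Q, g, j, x, y` be as in the statement, `j ∘ g = f`.  Write
`u', v'` for the images of `u, v` over `Q[t, t⁻¹]`.  Put `X = (x ⊕ 1_k) u'` (index `m ⊕ k` times
`r₁ ⊕ r₂`) and `Y = v' (y ⊕ 1_k)`.  Then
`X Y = (x ⊕ 1)(H ⊕ 1)(y ⊕ 1) = (x y x y) ⊕ 1 = 1` and
`Y X = v' (y x ⊕ 1) u' = v' (u' v') u' = v' u' = Xp ⊕ Xn` (over `Q`; `IsPos`, `IsNeg` are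
preserved by `lau g`).  `window` with `τ ∘ j : Q →+ M` gives `d` and `q` with
`T0 (τ ∘ j) (∂X · Y) = (..) • τ (j 1) - τ (j (tr q)) = - τ (j (tr q))` since `τ 1 = 0`.
On the other hand
`T0 (∂X · Y) = T0 ((∂x ⊕ 0) u' v' (y ⊕ 1)) + T0 ((x ⊕ 1) ∂u' v' (y ⊕ 1))`.
First term: `u' v' (y ⊕ 1) = (y x y ⊕ 1) = y ⊕ 1`, so it is `T0 (∂x · y)`.
Second term: by `T0_mul_comm` it is `T0 (∂u' · v' · (y x ⊕ 1)) = T0 (∂u' · v' u' v')
= T0 (∂u' · v') = s` (compare `T0_map_lau`, `map_lau_der`, `lau_comp`).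
-/

set_option autoImplicit false

open Matrix
open scoped LaurentPolynomial

universe u v w

namespace Pool.Agent.H95.KM

open Pool.Agent.H71.FJ

theorem T0_change {R : Type u} [Ring R] {M : Type*} [AddCommGroup M] (τ : R →+ M)
    (hτ : ∀ x y, τ (x * y) = τ (y * x)) {m n : Type*} [Fintype m] [DecidableEq m] [Fintype n]
    (g g' : Matrix m m R[T;T⁻¹]) (hg : g' * g = 1)
    (x : Matrix m n R[T;T⁻¹]) (y : Matrix n m R[T;T⁻¹]) (hxy : x * y = 1) :
    T0 τ ((g * x).map (der R) * (y * g')) =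
      T0 τ (g.map (der R) * g') + T0 τ (x.map (der R) * y) := by
  rw [map_der_mul, Matrix.add_mul, T0_add]
  congr 1
  · congr 1
    rw [Matrix.mul_assoc, ← Matrix.mul_assoc x, hxy, Matrix.one_mul]
  · rw [Matrix.mul_assoc, T0_mul_comm τ hτ]
    congr 1
    rw [← Matrix.mul_assoc, Matrix.mul_assoc _ g' g, hg, Matrix.mul_one]

/-- normalized form of an equivalence of idempotent matrices -/
theorem matEquiv_normal {R : Type u} [Ring R] {m n : Type*} [Fintype m] [Fintype n]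
    {E : Matrix m m R} {F : Matrix n n R} (hE : E * E = E) (hF : F * F = F)
    (h : MatEquiv E F) : ∃ (u : Matrix m n R) (v : Matrix n m R), u * v = E ∧ v * u = F ∧
      E * u = u ∧ v * E = v := by
  obtain ⟨u, v, h1, h2⟩ := h
  refine ⟨E * u, v * E, ?_, ?_, ?_, ?_⟩
  · rw [Matrix.mul_assoc, ← Matrix.mul_assoc u, h1, hE, hE]
  · calc v * E * (E * u) = v * (E * E) * u := by simp only [Matrix.mul_assoc]
      _ = (v * u) * (v * u) := by rw [hE, ← h1]; simp only [Matrix.mul_assoc]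
      _ = F := by rw [h2, hF]
  · rw [← Matrix.mul_assoc, hE]
  · rw [Matrix.mul_assoc, hE]

theorem fromBlocks_one_idem {R : Type u} [Ring R] {m k : Type*} [Fintype m] [Fintype k]
    [DecidableEq k] {E : Matrix m m R} (hE : E * E = E) :
    fromBlocks E 0 0 (1 : Matrix k k R) * fromBlocks E 0 0 1 = fromBlocks E 0 0 1 := by
  rw [fromBlocks_multiply]
  simp [hE]

theorem detect {R A : Type u} [Ring R] [Ring A] (f : R →+* A) {M : Type*} [AddCommGroup M]
    (τ : A →+ M) (hτ : ∀ x y, τ (x * y) = τ (y * x)) (hτ1 : τ 1 = 0)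
    {n : Type} [Fintype n] [DecidableEq n] (H : Matrix n n R[T;T⁻¹]) (hH : H * H = H)
    (h : Km1.mk (K0.cls H hH) = 0) :
    ∃ s : M, ∀ (Q : Type u) [Ring Q] (g : R →+* Q) (j : Q →+* A), j.comp g = f →
      ∀ (m : Type) [Fintype m] [DecidableEq m] (x : Matrix m n Q[T;T⁻¹])
        (y : Matrix n m Q[T;T⁻¹]), x * y = 1 → y * x = H.map (lau g) →
      ∃ q : IdemMat Q, T0 τ ((x.map (der Q) * y).map (lau j)) + s = - τ (j (trace q.mat)) := by
  obtain ⟨k, r₁, r₂, Xp, Xn, hXp, hXn, hp, hn, hE⟩ := extract H hH h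
  obtain ⟨u, v, huv, hvu, hu, hv⟩ := matEquiv_normal (fromBlocks_one_idem hH)
    (K0.fromBlocks_idem hXp hXn) hE
  refine ⟨T0 (τ.comp f.toAddMonoidHom) (u.map (der R) * v), ?_⟩
  intro Q _ g j hjg m _ _ x y hxy hyx
  have hτj : ∀ a b : Q, (τ.comp j.toAddMonoidHom) (a * b) = (τ.comp j.toAddMonoidHom) (b * a) := by
    intro a b
    change τ (j (a * b)) = τ (j (b * a))
    rw [map_mul j, map_mul j, hτ]
  have huv' : u.map (lau g) * v.map (lau g) =
      fromBlocks (y * x) 0 0 (1 : Matrix (Fin k) (Fin k) Q[T;T⁻¹]) := by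
    rw [← Matrix.map_mul, huv, fromBlocks_map, hyx, Matrix.map_zero _ (map_zero _),
      Matrix.map_zero _ (map_zero _), Matrix.map_one _ (map_zero _) (map_one _)]
  have hvu' : v.map (lau g) * u.map (lau g) =
      fromBlocks (Xp.map (lau g)) 0 0 (Xn.map (lau g)) := by
    rw [← Matrix.map_mul, hvu, fromBlocks_map, Matrix.map_zero _ (map_zero _),
      Matrix.map_zero _ (map_zero _)]
  have hv' : v.map (lau g) * (u.map (lau g) * v.map (lau g)) = v.map (lau g) := by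
    rw [← Matrix.map_mul, ← Matrix.map_mul, huv, hv]
  obtain ⟨U, hU⟩ : ∃ U, U = u.map (lau g) := ⟨_, rfl⟩
  obtain ⟨V, hV⟩ : ∃ V, V = v.map (lau g) := ⟨_, rfl⟩
  rw [← hU, ← hV] at huv' hvu' hv'
  obtain ⟨x', hx'⟩ : ∃ x', x' = fromBlocks x 0 0 (1 : Matrix (Fin k) (Fin k) Q[T;T⁻¹]) := ⟨_, rfl⟩
  obtain ⟨y', hy'⟩ : ∃ y', y' = fromBlocks y 0 0 (1 : Matrix (Fin k) (Fin k) Q[T;T⁻¹]) := ⟨_, rfl⟩
  have hx'y' : x' * y' = 1 := by
    rw [hx', hy', fromBlocks_multiply]
    simp [hxy]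
  have hy'x' : y' * x' = U * V := by
    rw [huv', hx', hy', fromBlocks_multiply]
    simp
  have hXY : (x' * U) * (V * y') = 1 := by
    calc (x' * U) * (V * y') = x' * (U * V) * y' := by simp only [Matrix.mul_assoc]
      _ = (x' * y') * (x' * y') := by rw [← hy'x']; simp only [Matrix.mul_assoc]
      _ = 1 := by rw [hx'y', Matrix.one_mul]
  have hYX : (V * y') * (x' * U) = fromBlocks (Xp.map (lau g)) 0 0 (Xn.map (lau g)) := by
    calc (V * y') * (x' * U) = V * (y' * x') * U := by simp only [Matrix.mul_assoc]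
      _ = V * (U * V) * U := by rw [hy'x']
      _ = V * U := by rw [hv']
      _ = _ := hvu'
  obtain ⟨d, q, hq⟩ := window (τ.comp j.toAddMonoidHom) (x' * U) (V * y') (Xp.map (lau g))
    (Xn.map (lau g)) hXY hYX (fun i k l hl => by
      rw [Matrix.map_apply, lau_coeff, hp i k l hl, map_zero]) (fun i k l hl => by
      rw [Matrix.map_apply, lau_coeff, hn i k l hl, map_zero])
  refine ⟨q, ?_⟩
  have hτj1 : (τ.comp j.toAddMonoidHom) 1 = 0 := by
    change τ (j 1) = 0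
    rw [map_one, hτ1]
  rw [hτj1, smul_zero, zero_sub] at hq
  have e0 : (τ.comp j.toAddMonoidHom) (trace q.mat) = τ (j (trace q.mat)) := rfl
  rw [e0] at hq
  rw [← hq, T0_map_lau, map_der_mul, Matrix.add_mul, T0_add]
  congr 1
  · have e1 : x'.map (der Q) * U * (V * y') = fromBlocks (x.map (der Q) * y) 0 0 0 := by
      calc x'.map (der Q) * U * (V * y') = x'.map (der Q) * (U * V) * y' := by
            simp only [Matrix.mul_assoc]
        _ = x'.map (der Q) * y' * (x' * y') := by rw [← hy'x']; simp only [Matrix.mul_assoc]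
        _ = x'.map (der Q) * y' := by rw [hx'y', Matrix.mul_one]
        _ = _ := by
          rw [hx', hy', fromBlocks_map, map_der_one, Matrix.map_zero _ (map_zero _),
            Matrix.map_zero _ (map_zero _), fromBlocks_multiply]
          simp
    rw [e1, T0_fromBlocks, T0_zero, add_zero]
  · rw [Matrix.mul_assoc, T0_mul_comm _ hτj]
    have e2 : U.map (der Q) * (V * y') * x' = U.map (der Q) * V := by
      calc U.map (der Q) * (V * y') * x' = U.map (der Q) * (V * (y' * x')) := by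
            simp only [Matrix.mul_assoc]
        _ = U.map (der Q) * V := by rw [hy'x', hv']
    rw [e2, hU, hV, map_lau_der, ← Matrix.map_mul, T0_map_lau]
    congr 1
    ext a
    change τ (f a) = τ (j (g a))
    rw [← hjg]
    rfl

end Pool.Agent.H95.KM
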