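import Pool.Agent.H95.KM.Stab

/-!
# Project KM, module Extract: vanishing in `K₋₁`

PROOF of `extract`.  `Km1.mk_eq_zero`, `Km1Rel` and `AddSubgroup.mem_sup` give
`[H] = map posHom α + map negHom β` with `α, β : K0 R[X]`.  By `exists_sub_one`
`α = [P] - [1_q]`, `β = [P'] - [1_{q'}]`.  Hence (`K0.map_cls`, `K0.cls_fromBlocks`)
`[H ⊕ 1_q ⊕ 1_{q'}] = [posHom P ⊕ negHom P']`.  By `exists_stab` there is `l` with
`H ⊕ 1_q ⊕ 1_{q'} ⊕ 1_l ≈ posHom P ⊕ negHom P' ⊕ 1_l ≈ (posHom P ⊕ 1_l) ⊕ negHom P'`.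
Take `k = q + q' + l`, `Xp = posHom P ⊕ 1_l` (reindexed to `Fin`), `Xn = negHom P'`.
`isPos_posHom`, `isNeg_negHom` give the positivity/negativity.
-/

set_option autoImplicit false

open Matrix
open scoped LaurentPolynomial

universe u v w

namespace Pool.Agent.H95.KM

open Pool.Agent.H71.FJ

variable {R : Type u} [Ring R]

theorem matEquiv_one_of_equiv {m n : Type*} [Fintype m] [DecidableEq m] [Fintype n]
    [DecidableEq n] (σ : m ≃ n) : MatEquiv (1 : Matrix m m R) (1 : Matrix n n R) := by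
  have h := K0.matEquiv_submatrix (1 : Matrix n n R) one_idem σ
  rwa [submatrix_one_equiv] at h

theorem matEquiv_assoc {m n p : Type*} [Fintype m] [DecidableEq m] [Fintype n]
    [DecidableEq n] [Fintype p] [DecidableEq p] {e : Matrix m m R} {f : Matrix n n R}
    {g : Matrix p p R} (he : e * e = e) (hf : f * f = f) (hg : g * g = g) :
    MatEquiv (fromBlocks (fromBlocks e 0 0 f) 0 0 g) (fromBlocks e 0 0 (fromBlocks f 0 0 g)) := by
  have h := K0.matEquiv_submatrix (fromBlocks e 0 0 (fromBlocks f 0 0 g))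
    (K0.fromBlocks_idem he (K0.fromBlocks_idem hf hg)) (Equiv.sumAssoc m n p)
  have h1 : (fromBlocks e 0 0 (fromBlocks f 0 0 g)).submatrix (Equiv.sumAssoc m n p)
      (Equiv.sumAssoc m n p) = fromBlocks (fromBlocks e 0 0 f) 0 0 g := by
    ext i j
    rcases i with (i | i) | i <;> rcases j with (j | j) | j <;> rfl
  rwa [h1] at h

theorem matEquiv_comm {m n : Type*} [Fintype m] [DecidableEq m] [Fintype n]
    [DecidableEq n] {e : Matrix m m R} {f : Matrix n n R} (he : e * e = e) (hf : f * f = f) :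
    MatEquiv (fromBlocks e 0 0 f) (fromBlocks f 0 0 e) := by
  have h := K0.matEquiv_submatrix (fromBlocks f 0 0 e)
    (K0.fromBlocks_idem hf he) (Equiv.sumComm m n)
  have h1 : (fromBlocks f 0 0 e).submatrix (Equiv.sumComm m n)
      (Equiv.sumComm m n) = fromBlocks e 0 0 f := by
    ext i j
    rcases i with i | i <;> rcases j with j | j <;> rfl
  rwa [h1] at h

theorem cls_one_add_one (a b : ℕ) :
    K0.cls (1 : Matrix (Fin a) (Fin a) R) one_idem + K0.cls (1 : Matrix (Fin b) (Fin b) R) one_idem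
      = K0.cls (1 : Matrix (Fin (a + b)) (Fin (a + b)) R) one_idem := by
  rw [← K0.cls_fromBlocks]
  apply K0.cls_congr
  rw [fromBlocks_one]
  exact matEquiv_one_of_equiv finSumFinEquiv

theorem map_cls_one {S : Type v} [Ring S] (f : R →+* S) (a : ℕ) :
    K0.map f (K0.cls (1 : Matrix (Fin a) (Fin a) R) one_idem) =
      K0.cls (1 : Matrix (Fin a) (Fin a) S) one_idem := by
  rw [K0.map_cls]
  congr 1
  exact Matrix.map_one f (map_zero f) (map_one f)

/-- If the class of `H` vanishes in `K₋₁(R)` then `H` is stably equivalent to a sum of an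
idempotent matrix over `R[t]` and one over `R[t⁻¹]`. -/
theorem extract {n : Type} [Fintype n] [DecidableEq n] (H : Matrix n n R[T;T⁻¹])
    (hH : H * H = H) (h : Km1.mk (K0.cls H hH) = 0) :
    ∃ (k r₁ r₂ : ℕ) (Xp : Matrix (Fin r₁) (Fin r₁) R[T;T⁻¹])
      (Xn : Matrix (Fin r₂) (Fin r₂) R[T;T⁻¹]), Xp * Xp = Xp ∧ Xn * Xn = Xn ∧
      (∀ i j, IsPos (Xp i j)) ∧ (∀ i j, IsNeg (Xn i j)) ∧
      MatEquiv (fromBlocks H 0 0 (1 : Matrix (Fin k) (Fin k) R[T;T⁻¹]))
        (fromBlocks Xp 0 0 Xn) := by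
  obtain ⟨_, ⟨α, rfl⟩, _, ⟨β, rfl⟩, hab⟩ := AddSubgroup.mem_sup.1 (Km1.mk_eq_zero.1 h)
  obtain ⟨p, q, P, hP, rfl⟩ := exists_sub_one α
  obtain ⟨p', q', P', hP', rfl⟩ := exists_sub_one β
  rw [map_sub, map_sub, map_cls_one, map_cls_one, K0.map_cls, K0.map_cls] at hab
  set Pp := P.map (posHom R) with hPp
  set Pn := P'.map (negHom R) with hPn
  have hPpi : Pp * Pp = Pp := K0.map_idem (posHom R) hP
  have hPni : Pn * Pn = Pn := K0.map_idem (negHom R) hP'
  have hI : ∀ a : ℕ, (1 : Matrix (Fin a) (Fin a) R[T;T⁻¹]) * 1 = 1 := fun a => one_idem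
  have hc : K0.cls (fromBlocks H 0 0 (1 : Matrix (Fin (q + q')) (Fin (q + q')) R[T;T⁻¹]))
      (K0.fromBlocks_idem hH (hI _)) =
      K0.cls (fromBlocks Pp 0 0 Pn) (K0.fromBlocks_idem hPpi hPni) := by
    rw [K0.cls_fromBlocks hH (hI _), K0.cls_fromBlocks hPpi hPni, ← cls_one_add_one, ← hab]
    abel
  obtain ⟨l, hl⟩ := exists_stab _ _ _ _ hc
  -- the left hand side
  have h1 : MatEquiv (fromBlocks H 0 0
      (1 : Matrix (Fin (q + q' + l)) (Fin (q + q' + l)) R[T;T⁻¹]))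
      (fromBlocks (fromBlocks H 0 0 (1 : Matrix (Fin (q + q')) (Fin (q + q')) R[T;T⁻¹])) 0 0
        (1 : Matrix (Fin l) (Fin l) R[T;T⁻¹])) := by
    refine K0.matEquiv_trans (K0.fromBlocks_idem hH (hI _))
      (K0.fromBlocks_idem (K0.fromBlocks_idem hH (hI _)) (hI _)) ?_
      (K0.matEquiv_symm (matEquiv_assoc hH (hI _) (hI _)))
    refine K0.matEquiv_fromBlocks (K0.matEquiv_refl hH) ?_
    rw [fromBlocks_one]
    exact matEquiv_one_of_equiv finSumFinEquiv.symm
  -- the right hand side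
  have hB : fromBlocks Pp 0 0 (1 : Matrix (Fin l) (Fin l) R[T;T⁻¹]) *
      fromBlocks Pp 0 0 (1 : Matrix (Fin l) (Fin l) R[T;T⁻¹]) =
      fromBlocks Pp 0 0 (1 : Matrix (Fin l) (Fin l) R[T;T⁻¹]) := K0.fromBlocks_idem hPpi (hI _)
  set Xp : Matrix (Fin (p + l)) (Fin (p + l)) R[T;T⁻¹] :=
    (fromBlocks Pp 0 0 (1 : Matrix (Fin l) (Fin l) R[T;T⁻¹])).submatrix finSumFinEquiv.symm
      finSumFinEquiv.symm with hXp
  have hXpi : Xp * Xp = Xp := by
    rw [hXp, submatrix_mul_equiv, hB]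
  have h2 : MatEquiv (fromBlocks (fromBlocks Pp 0 0 Pn) 0 0
      (1 : Matrix (Fin l) (Fin l) R[T;T⁻¹])) (fromBlocks Xp 0 0 Pn) := by
    refine K0.matEquiv_trans (K0.fromBlocks_idem (K0.fromBlocks_idem hPpi hPni) (hI _))
      (K0.fromBlocks_idem hXpi hPni) (matEquiv_assoc hPpi hPni (hI _)) ?_
    refine K0.matEquiv_trans (K0.fromBlocks_idem hPpi (K0.fromBlocks_idem hPni (hI _)))
      (K0.fromBlocks_idem hXpi hPni)
      (K0.matEquiv_fromBlocks (K0.matEquiv_refl hPpi) (matEquiv_comm hPni (hI _))) ?_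
    refine K0.matEquiv_trans (K0.fromBlocks_idem hPpi (K0.fromBlocks_idem (hI _) hPni))
      (K0.fromBlocks_idem hXpi hPni) (K0.matEquiv_symm (matEquiv_assoc hPpi (hI _) hPni)) ?_
    exact K0.matEquiv_fromBlocks (K0.matEquiv_symm (K0.matEquiv_submatrix _ hB _))
      (K0.matEquiv_refl hPni)
  refine ⟨q + q' + l, p + l, p', Xp, Pn, hXpi, hPni, ?_, ?_, ?_⟩
  · intro i j
    rw [hXp, submatrix_apply]
    rcases finSumFinEquiv.symm i with i | i <;> rcases finSumFinEquiv.symm j with j | j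
    · exact isPos_posHom _
    · exact isPos_zero
    · exact isPos_zero
    · rw [fromBlocks_apply₂₂, Matrix.one_apply]
      split_ifs
      · exact isPos_single le_rfl 1
      · exact isPos_zero
  · intro i j
    exact isNeg_negHom _
  · exact K0.matEquiv_trans (K0.fromBlocks_idem hH (hI _)) (K0.fromBlocks_idem hXpi hPni) h1
      (K0.matEquiv_trans (K0.fromBlocks_idem (K0.fromBlocks_idem hH (hI _)) (hI _))
        (K0.fromBlocks_idem hXpi hPni) hl h2)

end Pool.Agent.H95.KM
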