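import Pool.Agent.H95.KM.FouDefs

/-!
# Project KM, module Fou: orthogonality relations and consequences

`fou`, `eChi` are in `Pool/Agent/H95/KM/FouDefs.lean`.

* `sum_chi`: `∑_c χ(c) = 0` for `χ ≠ 1` in the domain `O` (Mathlib `sum_hom_units`, applied to the
  composite `C →* O`).
* `card_dual`, `finite_dual`, `sum_dual`: with `let _ : CommGroup C := { ‹Group C› with mul_comm := hC }`
  use `CommGroup.card_monoidHom_of_hasEnoughRootsOfUnity`,
  `CommGroup.exists_apply_ne_one_of_hasEnoughRootsOfUnity`,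
  `HasEnoughRootsOfUnity.of_dvd` (`Monoid.exponent C ∣ Nat.card C ∣ N`).
  `∑_χ χ(c) = 0` for `c ≠ 1`: choose `ψ` with `ψ c ≠ 1`; multiplication by `ψ` permutes the dual, so
  `(ψ c) S = S` and `O` is a domain.
* `fou_eChi`: `fou f C (eChi f χ) = |C| · Pi.single χ 1` by `sum_chi` applied to `χ⁻¹ χ'`.
* `exists_fou`: `F = ∑_χ Pi.single χ (F χ)`, so `|C| F = fou (∑_χ single 1 (F χ) * eChi f χ)`.
* `fou_injective`: if `fou x = 0`, `x = ∑_c x_c c`, then for `d ∈ C`:
  `0 = ∑_χ f (χ d⁻¹) (fou x χ) = ∑_c x_c ∑_χ f (χ (c d⁻¹)) = |C| x_d` by `sum_dual`, `card_dual`.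
-/

set_option autoImplicit false

open Matrix
open scoped LaurentPolynomial

universe u v w

namespace Pool.Agent.H95.KM

open Pool.Agent.H71.FJ

variable {O : Type} [CommRing O] [IsDomain O] {C : Type v} [Group C]

theorem sum_chi [Fintype C] (χ : C →* Oˣ) (hχ : χ ≠ 1) : ∑ c : C, ((χ c : Oˣ) : O) = 0 := by
  apply sum_hom_units_eq_zero ((Units.coeHom O).comp χ)
  intro h
  apply hχ
  ext c
  exact congrArg (fun g : C →* O => g c) h

theorem card_dual [Finite C] (N : ℕ) [NeZero N] [HasEnoughRootsOfUnity O N]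
    (hC : ∀ a b : C, a * b = b * a) (hN : Nat.card C ∣ N) :
    Nat.card (C →* Oˣ) = Nat.card C := by
  let _ : CommGroup C := { ‹Group C› with mul_comm := hC }
  have h1 : Monoid.exponent C ∣ N := dvd_trans Group.exponent_dvd_nat_card hN
  have : HasEnoughRootsOfUnity O (Monoid.exponent C) := HasEnoughRootsOfUnity.of_dvd O h1
  exact CommGroup.card_monoidHom_of_hasEnoughRootsOfUnity C O

theorem finite_dual [Finite C] (N : ℕ) [NeZero N] [HasEnoughRootsOfUnity O N]
    (hC : ∀ a b : C, a * b = b * a) (hN : Nat.card C ∣ N) : Finite (C →* Oˣ) := by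
  apply Nat.finite_of_card_ne_zero
  rw [card_dual N hC hN]
  exact Nat.card_pos.ne'

theorem fou_exists_ne [Finite C] (N : ℕ) [NeZero N] [HasEnoughRootsOfUnity O N]
    (hC : ∀ a b : C, a * b = b * a) (hN : Nat.card C ∣ N) (c : C) (hc : c ≠ 1) :
    ∃ ψ : C →* Oˣ, ψ c ≠ 1 := by
  let _ : CommGroup C := { ‹Group C› with mul_comm := hC }
  have h1 : Monoid.exponent C ∣ N := dvd_trans Group.exponent_dvd_nat_card hN
  have : HasEnoughRootsOfUnity O (Monoid.exponent C) := HasEnoughRootsOfUnity.of_dvd O h1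
  exact CommGroup.exists_apply_ne_one_of_hasEnoughRootsOfUnity C O hc

theorem sum_dual [Finite C] (N : ℕ) [NeZero N] [HasEnoughRootsOfUnity O N]
    (hC : ∀ a b : C, a * b = b * a) (hN : Nat.card C ∣ N) [Fintype (C →* Oˣ)] (c : C)
    (hc : c ≠ 1) : ∑ χ : C →* Oˣ, ((χ c : Oˣ) : O) = 0 := by
  obtain ⟨ψ, hψ⟩ := fou_exists_ne (O := O) N hC hN c hc
  have h1 : ((ψ c : Oˣ) : O) * ∑ χ : C →* Oˣ, ((χ c : Oˣ) : O) =
      ∑ χ : C →* Oˣ, ((χ c : Oˣ) : O) := by
    rw [Finset.mul_sum]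
    apply Fintype.sum_equiv (Equiv.mulLeft ψ)
    intro χ
    rw [Equiv.coe_mulLeft, MonoidHom.mul_apply, Units.val_mul]
  have h2 : (((ψ c : Oˣ) : O) - 1) * ∑ χ : C →* Oˣ, ((χ c : Oˣ) : O) = 0 := by
    rw [sub_mul, one_mul, h1, sub_self]
  rcases mul_eq_zero.1 h2 with h | h
  · exact absurd (Units.ext (sub_eq_zero.1 h)) hψ
  · exact h

variable {R : Type} [CommRing R] (f : O →+* R)

theorem fou_eChi [Fintype C] [DecidableEq (C →* Oˣ)] (χ : C →* Oˣ) :
    fou f C (eChi f χ) = Pi.single χ (Fintype.card C : R) := by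
  ext χ'
  rw [eChi, map_sum, Finset.sum_apply]
  have h1 : ∀ c : C, fou f C (MonoidAlgebra.single c (f (((χ c)⁻¹ : Oˣ) : O))) χ' =
      f (((χ⁻¹ * χ') c : Oˣ) : O) := by
    intro c
    rw [fou_single, ← map_mul, MonoidHom.mul_apply, MonoidHom.inv_apply, Units.val_mul]
  rw [Finset.sum_congr rfl (fun c _ => h1 c), ← map_sum]
  by_cases h : χ' = χ
  · subst h
    have h3 : ∀ c : C, (((χ'⁻¹ * χ') c : Oˣ) : O) = 1 := by
      intro c
      rw [MonoidHom.mul_apply, MonoidHom.inv_apply, inv_mul_cancel, Units.val_one]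
    rw [Pi.single_eq_same, Finset.sum_congr rfl (fun c _ => h3 c)]
    simp
  · rw [Pi.single_eq_of_ne h, sum_chi, map_zero]
    intro h2
    exact h (inv_mul_eq_one.1 h2).symm

theorem exists_fou [Finite C] [Finite (C →* Oˣ)] (F : (C →* Oˣ) → R) :
    ∃ x, fou f C x = fun χ => (Nat.card C : R) * F χ := by
  classical
  cases nonempty_fintype C
  cases nonempty_fintype (C →* Oˣ)
  refine ⟨∑ χ : C →* Oˣ, MonoidAlgebra.single 1 (F χ) * eChi f χ, ?_⟩
  ext χ'
  rw [map_sum, Finset.sum_apply]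
  have h1 : ∀ χ : C →* Oˣ, fou f C (MonoidAlgebra.single 1 (F χ) * eChi f χ) χ' =
      F χ * (Pi.single χ (Fintype.card C : R) : (C →* Oˣ) → R) χ' := by
    intro χ
    rw [map_mul, fou_eChi, Pi.mul_apply, fou_single, map_one, Units.val_one, map_one, mul_one]
  rw [Finset.sum_congr rfl (fun c _ => h1 c), Finset.sum_eq_single χ']
  · rw [Pi.single_eq_same, Nat.card_eq_fintype_card, mul_comm]
  · intro χ _ hχ
    rw [Pi.single_eq_of_ne hχ.symm, mul_zero]
  · intro h
    exact absurd (Finset.mem_univ _) h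

theorem fou_apply_eq [Fintype C] (x : MonoidAlgebra R C) (χ : C →* Oˣ) :
    fou f C x χ = ∑ c : C, x.coeff c * f (χ c) := by
  classical
  induction x using MonoidAlgebra.induction_linear with
  | zero => simp
  | add a b ha hb =>
    rw [map_add, Pi.add_apply, ha, hb, ← Finset.sum_add_distrib]
    apply Finset.sum_congr rfl
    intro c _
    rw [MonoidAlgebra.coeff_add, Finsupp.add_apply, add_mul]
  | single c r =>
    rw [fou_single, Finset.sum_eq_single c]
    · rw [MonoidAlgebra.coeff_single, Finsupp.single_eq_same]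
    · intro b _ hb
      rw [MonoidAlgebra.coeff_single, Finsupp.single_eq_of_ne hb, zero_mul]
    · intro h
      exact absurd (Finset.mem_univ _) h

theorem fou_injective [Finite C] (N : ℕ) [NeZero N] [HasEnoughRootsOfUnity O N]
    (hC : ∀ a b : C, a * b = b * a) (hN : Nat.card C ∣ N)
    (hR : ∀ r : R, (Nat.card C : R) * r = 0 → r = 0) : Function.Injective (fou f C) := by
  classical
  cases nonempty_fintype C
  have := finite_dual (O := O) N hC hN
  cases nonempty_fintype (C →* Oˣ)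
  rw [injective_iff_map_eq_zero]
  intro x hx
  ext d
  rw [MonoidAlgebra.coeff_zero, Finsupp.zero_apply]
  apply hR
  have h1 : ∑ χ : C →* Oˣ, f (χ d⁻¹) * fou f C x χ = 0 := by
    rw [hx]
    simp
  rw [← h1]
  have h2 : ∀ χ : C →* Oˣ, f (χ d⁻¹) * fou f C x χ =
      ∑ c : C, x.coeff c * f (((χ (c * d⁻¹) : Oˣ)) : O) := by
    intro χ
    rw [fou_apply_eq, Finset.mul_sum]
    apply Finset.sum_congr rfl
    intro c _
    rw [map_mul χ, Units.val_mul, map_mul f]
    ring
  rw [Finset.sum_congr rfl (fun χ _ => h2 χ), Finset.sum_comm, Finset.sum_eq_single d]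
  · rw [← Finset.mul_sum, mul_inv_cancel, ← card_dual (O := O) N hC hN, mul_comm]
    congr 1
    simp
  · intro c _ hc
    rw [← Finset.mul_sum, ← map_sum, sum_dual N hC hN, map_zero, mul_zero]
    intro h
    exact hc (mul_inv_eq_one.1 h)
  · intro h
    exact absurd (Finset.mem_univ _) h

end Pool.Agent.H95.KM
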