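import Pool.Agent.H95.KM.SqDefs

/-!
# Project KM: monomial matrices and the units `t e + 1 - e`
-/

set_option autoImplicit false

open Matrix
open scoped LaurentPolynomial

universe u v w

namespace Pool.Agent.H95.KM

open Pool.Agent.H71.FJ

variable {B : Type u} [Ring B]

/-- The matrix `X t^k`. -/
noncomputable def mono (k : ℤ) {m n : Type*} (X : Matrix m n B) : Matrix m n B[T;T⁻¹] :=
  X.map (AddMonoidAlgebra.single k)

theorem mono_add (k : ℤ) {m n : Type*} (X Y : Matrix m n B) :
    mono k (X + Y) = mono k X + mono k Y := by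
  ext i j : 1
  exact AddMonoidAlgebra.single_add _ _ _

theorem mono_zero (k : ℤ) {m n : Type*} : mono k (0 : Matrix m n B) = 0 := by
  ext i j : 1
  exact AddMonoidAlgebra.single_zero _

theorem mono_sub (k : ℤ) {m n : Type*} (X Y : Matrix m n B) :
    mono k (X - Y) = mono k X - mono k Y := by
  rw [eq_sub_iff_add_eq, ← mono_add, sub_add_cancel]

theorem mono_mul (k l : ℤ) {m n p : Type*} [Fintype n] (X : Matrix m n B) (Y : Matrix n p B) :
    mono k X * mono l Y = mono (k + l) (X * Y) := by
  ext i j : 1
  simp only [mono, Matrix.mul_apply, Matrix.map_apply, AddMonoidAlgebra.single_mul_single]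
  exact (map_sum (AddMonoidAlgebra.singleAddHom (k + l)) _ _).symm

theorem mono_one {m : Type*} [Fintype m] [DecidableEq m] :
    mono 0 (1 : Matrix m m B) = 1 := by
  have : mono 0 (1 : Matrix m m B) = (1 : Matrix m m B).map (cst B) := rfl
  rw [this, Matrix.map_one _ (map_zero _) (map_one _)]

/-- The unit `t^k e + (1 - e)` for an idempotent matrix `e`. -/
noncomputable def tU (k : ℤ) {m : Type} [Fintype m] [DecidableEq m] (e : Matrix m m B)
    (he : e * e = e) : (Matrix m m B[T;T⁻¹])ˣ where
  val := mono k e + mono 0 (1 - e)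
  inv := mono (-k) e + mono 0 (1 - e)
  val_inv := by
    rw [add_mul, mul_add, mul_add, mono_mul, mono_mul, mono_mul, mono_mul, he, sub_idem he,
      mul_sub, sub_mul, he, mul_one, one_mul, sub_self, mono_zero, mono_zero, add_zero, zero_add,
      add_neg_cancel, add_zero, ← mono_add, add_sub_cancel, mono_one]
  inv_val := by
    rw [add_mul, mul_add, mul_add, mono_mul, mono_mul, mono_mul, mono_mul, he, sub_idem he,
      mul_sub, sub_mul, he, mul_one, one_mul, sub_self, mono_zero, mono_zero, add_zero, zero_add,
      neg_add_cancel, add_zero, ← mono_add, add_sub_cancel, mono_one]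

theorem tU_val (k : ℤ) {m : Type} [Fintype m] [DecidableEq m] (e : Matrix m m B)
    (he : e * e = e) : ((tU k e he : (Matrix m m B[T;T⁻¹])ˣ) : Matrix m m B[T;T⁻¹]) =
      mono k e + mono 0 (1 - e) := rfl

end Pool.Agent.H95.KM
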