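import Pool.Agent.H95.KM.SqLau
import Pool.Agent.H95.KM.LinDefs

/-!
# Project KM: the Fourier transform of the group ring of a finite abelian group

`O` is a domain with enough roots of unity, `C` a finite commutative group (given as a `Group`
with a commutativity hypothesis, because it will be a subgroup of a noncommutative group),
`C →* Oˣ` its dual, and `f : O → R` a homomorphism to a commutative ring.
`fou f : R[C] → ((C →* Oˣ) → R)` sends `c` to `(f (χ c))_χ`.
-/

set_option autoImplicit false

open Matrix
open scoped LaurentPolynomial

universe u v w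

namespace Pool.Agent.H95.KM

open Pool.Agent.H71.FJ

section

variable {O : Type} [CommRing O] {R : Type} [CommRing R] (f : O →+* R) (C : Type v) [Group C]

/-- The Fourier transform `R[C] → ((C →* Oˣ) → R)`. -/
noncomputable def fou : MonoidAlgebra R C →+* ((C →* Oˣ) → R) :=
  RingHom.pi fun χ => (MonoidAlgebra.lift R R C
    (((f : O →* R).comp (Units.coeHom O)).comp χ)).toRingHom

variable {C}

theorem fou_single (c : C) (r : R) (χ : C →* Oˣ) :
    fou f C (MonoidAlgebra.single c r) χ = r * f (χ c) := by
  change MonoidAlgebra.lift R R C _ (MonoidAlgebra.single c r) = _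
  rw [MonoidAlgebra.lift_single]
  rfl

/-- naturality in the group -/
theorem fou_mapDomain {C' : Type v} [Group C'] (h : C →* C') (x : MonoidAlgebra R C)
    (χ : C' →* Oˣ) :
    fou f C' (MonoidAlgebra.mapDomainRingHom R h x) χ = fou f C x (χ.comp h) := by
  induction x using MonoidAlgebra.induction_linear with
  | zero => simp
  | add a b ha hb => rw [map_add, map_add, Pi.add_apply, ha, hb, map_add, Pi.add_apply]
  | single g r =>
    change fou f C' (MonoidAlgebra.mapDomain h (MonoidAlgebra.single g r)) χ = _
    rw [MonoidAlgebra.mapDomain_single, fou_single, fou_single]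
    rfl

/-- naturality in the coefficients -/
theorem fou_mapRing {R' : Type} [CommRing R'] (g : R →+* R') (x : MonoidAlgebra R C)
    (χ : C →* Oˣ) :
    fou (g.comp f) C (MonoidAlgebra.mapRingHom C g x) χ = g (fou f C x χ) := by
  induction x using MonoidAlgebra.induction_linear with
  | zero => simp
  | add a b ha hb => rw [map_add, map_add, Pi.add_apply, ha, hb, map_add, Pi.add_apply, map_add]
  | single c r =>
    rw [MonoidAlgebra.mapRingHom_single, fou_single, fou_single, map_mul]
    rfl

end

/-- The idempotent-like element `∑_c χ(c)⁻¹ c = |C| 1_χ` of `R[C]`. -/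
noncomputable def eChi {O : Type} [CommRing O] {R : Type} [CommRing R] (f : O →+* R)
    {C : Type v} [Group C] [Fintype C] (χ : C →* Oˣ) : MonoidAlgebra R C :=
  ∑ c : C, MonoidAlgebra.single c (f (((χ c)⁻¹ : Oˣ) : O))

end Pool.Agent.H95.KM
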