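import Pool.Agent.H95.KM.Stab
import Pool.Agent.H71.FJ.Nil

/-!
# Project KM, module Joint: `K₀` and finite products; principal ideal domains

`NilKer`, `K0.map_injective` are in `Pool/Agent/H71/FJ/Nil.lean`; `exists_stab`,
`matEquiv_stab_mono`, `exists_sub_one` in `Pool/Agent/H95/KM/Stab.lean`.

PROOF of `K0_pi`.  `x = [H] - [1_m]` by `exists_sub_one`.  For each `i` the image in `K₀(Λ' i)` is
zero, so by `exists_stab` the images of `H` and `1_m` over `Λ' i` become equivalent after adding
`1_{k i}`; by `matEquiv_stab_mono` one `k` works for all `i` (`ι` finite).  The matrices `X i`,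
`Y i` realizing the equivalences over `Λ' i` combine to matrices over `∀ i, Λ' i`.
(`fromBlocks_map`; `K0.map_cls`; `K0.cls_fromBlocks`.)
PROOF of `K0_joint`.  `RingHom.pi p : Λ → ∀ i, Λ' i` is surjective with nilpotent kernel, so
`K0.map (RingHom.pi p)` is injective; its value at `x` vanishes by `K0_pi`.
PROOF of `K0_pid`.  As `K0.exists_matEquiv_one` in `Pool/Agent/H71/FJ/Rank.lean` (there for division
rings): for an idempotent matrix `e` over a principal ideal domain `P` the range of
`e.toLinearMapRight'` (or `Matrix.toLin'`) is a submodule of a free module of finite rank, hence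
free of finite rank (`Submodule.nonempty_basis_of_pid`, `Module.free_of_finite_type_torsion_free'`,
...), and a basis gives `MatEquiv e (1 : Matrix (Fin r) (Fin r) P)`.  Then use `K0.exists_sub`,
`K0.cls_one_fin`, `K0.mk_eq_cls`.
PROOF of `laurent_pid`.  `LaurentPolynomial.isLocalization` and: a localization of a principal
ideal ring is a principal ideal ring (search Mathlib; or directly: for an ideal `I` of `k[t,t⁻¹]`
let `J = comap toLaurent I = (f)`; every element of `I` is `t^{-n}` times an element of `J`).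
-/

set_option autoImplicit false

open Matrix
open scoped LaurentPolynomial

universe u v w

namespace Pool.Agent.H95.KM

open Pool.Agent.H71.FJ

theorem K0_pi {ι : Type w} [Finite ι] {Λ' : ι → Type v} [∀ i, Ring (Λ' i)]
    (x : K0 (∀ i, Λ' i)) (hx : ∀ i, K0.map (Pi.evalRingHom Λ' i) x = 0) : x = 0 := by
  classical
  cases nonempty_fintype ι
  obtain ⟨n, m, H, hH, rfl⟩ := exists_sub_one x
  have h1 : ∀ i, (1 : Matrix (Fin m) (Fin m) (∀ i, Λ' i)).map (Pi.evalRingHom Λ' i) = 1 :=
    fun i => Matrix.map_one _ (map_zero _) (map_one _)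
  have hH' : ∀ i, H.map (Pi.evalRingHom Λ' i) * H.map (Pi.evalRingHom Λ' i) =
      H.map (Pi.evalRingHom Λ' i) := fun i => K0.map_idem _ hH
  have hst : ∀ i, ∃ k : ℕ, MatEquiv
      (fromBlocks (H.map (Pi.evalRingHom Λ' i)) 0 0 (1 : Matrix (Fin k) (Fin k) (Λ' i)))
      (fromBlocks (1 : Matrix (Fin m) (Fin m) (Λ' i)) 0 0
        (1 : Matrix (Fin k) (Fin k) (Λ' i))) := by
    intro i
    apply exists_stab _ _ (hH' i) one_idem
    have h2 := hx i
    rw [map_sub, sub_eq_zero, K0.map_cls, K0.map_cls] at h2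
    rw [h2]
    apply K0.cls_congr
    rw [h1]
    exact K0.matEquiv_refl one_idem
  choose k hk using hst
  obtain ⟨K, hK⟩ : ∃ K, ∀ i, k i ≤ K := ⟨Finset.univ.sup k, fun i =>
    Finset.le_sup (f := k) (Finset.mem_univ i)⟩
  have hk' := fun i => matEquiv_stab_mono _ _ (hH' i) one_idem (hK i) (hk i)
  choose X Y hXY hYX using hk'
  have hF : MatEquiv (fromBlocks H 0 0 (1 : Matrix (Fin K) (Fin K) (∀ i, Λ' i)))
      (fromBlocks (1 : Matrix (Fin m) (Fin m) (∀ i, Λ' i)) 0 0
        (1 : Matrix (Fin K) (Fin K) (∀ i, Λ' i))) := by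
    have hmap : ∀ {a b : Type} [Fintype a] [Fintype b] {A B : Matrix a b (∀ i, Λ' i)},
        (∀ i, A.map (Pi.evalRingHom Λ' i) = B.map (Pi.evalRingHom Λ' i)) → A = B := by
      intro a b _ _ A B h
      ext p q i
      exact congrFun (congrFun (h i) p) q
    refine ⟨Matrix.of fun p q i => X i p q, Matrix.of fun p q i => Y i p q, ?_, ?_⟩
    · apply hmap
      intro i
      rw [Matrix.map_mul, fromBlocks_map, Matrix.map_zero _ (map_zero _),
        Matrix.map_zero _ (map_zero _), Matrix.map_one _ (map_zero _) (map_one _)]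
      exact hXY i
    · apply hmap
      intro i
      rw [Matrix.map_mul, fromBlocks_map, Matrix.map_zero _ (map_zero _),
        Matrix.map_zero _ (map_zero _), Matrix.map_one _ (map_zero _) (map_one _),
        Matrix.map_one _ (map_zero _) (map_one _)]
      exact hYX i
  have h3 := K0.cls_congr (K0.fromBlocks_idem hH one_idem)
    (K0.fromBlocks_idem one_idem one_idem) hF
  rw [K0.cls_fromBlocks hH one_idem, K0.cls_fromBlocks one_idem one_idem] at h3
  rw [sub_eq_zero]
  exact add_right_cancel h3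

theorem K0_joint {Λ : Type u} [Ring Λ] {ι : Type w} [Finite ι] {Λ' : ι → Type v}
    [∀ i, Ring (Λ' i)] (p : ∀ i, Λ →+* Λ' i)
    (hs : Function.Surjective (RingHom.pi p : Λ →+* ∀ i, Λ' i)) (hn : NilKer (RingHom.pi p))
    (x : K0 Λ) (hx : ∀ i, K0.map (p i) x = 0) : x = 0 := by
  apply K0.map_injective hs hn
  rw [map_zero]
  apply K0_pi
  intro i
  rw [K0.map_map]
  exact hx i

theorem joint_exists_one {P : Type u} [CommRing P] [IsDomain P] [IsPrincipalIdealRing P]
    {ι : Type*} [Fintype ι] [DecidableEq ι] (e : Matrix ι ι P) (he : e * e = e) :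
    ∃ r : ℕ, MatEquiv e (1 : Matrix (Fin r) (Fin r) P) := by
  set f : (ι → P) →ₗ[P] (ι → P) := e.toLinearMapRight' with hf
  have hff : ∀ v, f (f v) = f v := by
    intro v
    rw [hf, ← Matrix.toLinearMapRight'_mul_apply, he]
  have hM : LinearMap.toMatrixRight' f = e := by
    rw [hf]
    exact LinearMap.toMatrixRight'.apply_symm_apply e
  obtain ⟨r, ⟨b⟩⟩ := Submodule.nonempty_basis_of_pid (Pi.basisFun P ι) (LinearMap.range f)
  let ψ : LinearMap.range f ≃ₗ[P] (Fin r → P) := b.equivFun
  let X : (ι → P) →ₗ[P] (Fin r → P) := ψ.toLinearMap ∘ₗ f.rangeRestrict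
  let Y : (Fin r → P) →ₗ[P] (ι → P) := (LinearMap.range f).subtype ∘ₗ ψ.symm.toLinearMap
  have hYX : Y ∘ₗ X = f := by
    refine LinearMap.ext fun v => ?_
    simp only [X, Y, LinearMap.comp_apply, LinearEquiv.coe_coe, LinearEquiv.symm_apply_apply]
    rfl
  have hXY : X ∘ₗ Y = LinearMap.id := by
    refine LinearMap.ext fun v => ?_
    simp only [X, Y, LinearMap.comp_apply, LinearEquiv.coe_coe, LinearMap.id_apply]
    obtain ⟨w, hw⟩ : ∃ w, ψ w = v := ψ.surjective v
    rw [← hw, LinearEquiv.symm_apply_apply]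
    congr 1
    obtain ⟨z, t, rfl⟩ := w
    apply Subtype.ext
    exact hff t
  refine ⟨r, LinearMap.toMatrixRight' X, LinearMap.toMatrixRight' Y, ?_, ?_⟩
  · rw [← LinearMap.toMatrixRight'_comp, hYX, hM]
  · rw [← LinearMap.toMatrixRight'_comp, hXY, LinearMap.toMatrixRight'_id]

theorem K0_pid {P : Type u} [CommRing P] [IsDomain P] [IsPrincipalIdealRing P] (x : K0 P) :
    ∃ r : ℤ, x = r • K0.one P := by
  obtain ⟨a, b, rfl⟩ := K0.exists_sub x
  obtain ⟨r, hr⟩ := joint_exists_one a.mat a.idem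
  obtain ⟨s, hs⟩ := joint_exists_one b.mat b.idem
  refine ⟨(r : ℤ) - s, ?_⟩
  rw [sub_smul, natCast_zsmul, natCast_zsmul, ← K0.cls_one_fin, ← K0.cls_one_fin, K0.mk_eq_cls,
    K0.mk_eq_cls, K0.cls_congr a.idem one_idem hr, K0.cls_congr b.idem one_idem hs]

theorem laurent_pid (k : Type u) [Field k] :
    IsDomain k[T;T⁻¹] ∧ IsPrincipalIdealRing k[T;T⁻¹] := by
  refine ⟨IsLocalization.isDomain_of_le_nonZeroDivisors (M := Submonoid.powers
    (Polynomial.X : Polynomial k)) k[T;T⁻¹]
    (powers_le_nonZeroDivisors_of_noZeroDivisors Polynomial.X_ne_zero), ⟨fun I => ?_⟩⟩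
  obtain ⟨⟨f, hf⟩⟩ := IsPrincipalIdealRing.principal
    (I.comap (algebraMap (Polynomial k) k[T;T⁻¹]))
  have h : Ideal.map (algebraMap (Polynomial k) k[T;T⁻¹])
      (I.comap (algebraMap (Polynomial k) k[T;T⁻¹])) = I :=
    IsLocalization.map_under (Submonoid.powers (Polynomial.X : Polynomial k)) k[T;T⁻¹] I
  refine ⟨⟨algebraMap (Polynomial k) k[T;T⁻¹] f, ?_⟩⟩
  rw [← h, hf]
  change Ideal.map _ (Ideal.span {f}) = Ideal.span _
  rw [Ideal.map_span, Set.image_singleton]

end Pool.Agent.H95.KM
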