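import Pool.Agent.H95.KM.ThetaDefs
import Pool.Agent.H95.KM.Joint

/-!
# Project KM, module GenK0: generators of `K₀((X → O / N))`

PROOF.  For `(χ, m) ∈ X × Pr O N` let `p (χ, m) : (X → O / N) → (O / N) / m` be evaluation at `χ`
followed by the residue map.  Together they are surjective with nilpotent kernel
(`resPi_surjective`, `resPi_nilKer` in `Pool/Agent/H95/KM/FinRing.lean`; for the nilpotent kernel
take the filtration `J j` of functions with all values in the `j`-th step of the filtration for
`O / N`).  The rings `(O / N) / m` are fields, so `K0.map (p (χ, m)) x = r χ m • [1]`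
(`K0_pid` or `K0.eq_rk_smul_one`).  The `1 × 1` idempotent matrix `Pi.single χ (kappa m)` has image
`[1]` in `K₀` at `(χ, m)` and `0` at the other places (`kappa m ∉ m`, idempotent, so its image in the
field `(O/N)/m` is `1`; `kappa m * kappa m' = 0` and `kappa m' ∉ m'` give `kappa m ∈ m'`).
Now `K0_joint` applied to `x - ∑ ...` gives the claim.
-/

set_option autoImplicit false

open Matrix
open scoped LaurentPolynomial

universe u v w

namespace Pool.Agent.H95.KM

open Pool.Agent.H71.FJ

/-- the `1 × 1` matrix with entry `kappa m` at the component `χ` -/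
noncomputable def kapMat {O : Type} [CommRing O] {N : ℕ} [Finite (Amod O N)] {X : Type v}
    [DecidableEq X] (χ : X) (m : Pr O N) : Matrix Unit Unit (X → Amod O N) :=
  Matrix.of fun _ _ => Pi.single χ (kappa O N m)

theorem kapMat_idem {O : Type} [CommRing O] {N : ℕ} [Finite (Amod O N)] {X : Type v}
    [DecidableEq X] (χ : X) (m : Pr O N) :
    (kapMat χ m : Matrix Unit Unit (X → Amod O N)) * kapMat χ m = kapMat χ m := by
  classical
  ext i j : 1
  simp only [kapMat, Matrix.mul_apply, Finset.univ_unique, Finset.sum_singleton, Matrix.of_apply,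
    ← Pi.single_mul, kappa_mul, if_true]

private theorem genk0_cls_zero {R : Type*} [Ring R] {n : Type*} [Fintype n] [DecidableEq n]
    (h : (0 : Matrix n n R) * 0 = 0) : K0.cls (0 : Matrix n n R) h = 0 := by
  have h0 := K0.cls_one_fin (R := R) 0
  rw [zero_smul] at h0
  rw [← h0]
  apply K0.cls_congr
  refine ⟨0, 0, ?_, ?_⟩
  · simp
  · ext i
    exact i.elim0

private theorem genk0_surj {O : Type} [CommRing O] {N : ℕ} [Finite (Amod O N)] {X : Type v} :
    Function.Surjective (RingHom.pi (fun i : X × Pr O N =>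
      (Ideal.Quotient.mk i.2.asIdeal).comp (Pi.evalRingHom (fun _ : X => Amod O N) i.1)) :
      (X → Amod O N) →+* ∀ i : X × Pr O N, Amod O N ⧸ i.2.asIdeal) := by
  intro y
  choose g hg using fun χ : X => resPi_surjective (Amod O N) (fun m => y (χ, m))
  refine ⟨g, ?_⟩
  funext i
  obtain ⟨χ, m⟩ := i
  exact congrFun (hg χ) m

private theorem genk0_nil {O : Type} [CommRing O] {N : ℕ} [Finite (Amod O N)] {X : Type v} :
    NilKer (RingHom.pi (fun i : X × Pr O N =>
      (Ideal.Quotient.mk i.2.asIdeal).comp (Pi.evalRingHom (fun _ : X => Amod O N) i.1)) :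
      (X → Amod O N) →+* ∀ i : X × Pr O N, Amod O N ⧸ i.2.asIdeal) := by
  obtain ⟨k, J, h0, hN, hJ⟩ := resPi_nilKer (Amod O N)
  refine ⟨k, fun j =>
    { carrier := {x | ∀ χ, x χ ∈ J j}
      add_mem' := fun {a b} ha hb i => (J j).add_mem (ha i) (hb i)
      zero_mem' := fun i => (J j).zero_mem
      neg_mem' := fun {a} ha i => (J j).neg_mem (ha i) }, ?_, ?_, ?_⟩
  · intro x χ
    exact h0 _
  · intro x hx
    funext χ
    exact hN _ (hx χ)
  · intro j x y hx hy χ
    refine hJ j (x χ) (y χ) ?_ (hy χ)
    funext m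
    exact congrFun hx (χ, m)

private theorem genk0_map {O : Type} [CommRing O] {N : ℕ} [Finite (Amod O N)] {X : Type v}
    [DecidableEq X] [DecidableEq (Pr O N)] (χ χ' : X) (m m' : Pr O N) :
    K0.map ((Ideal.Quotient.mk m'.asIdeal).comp (Pi.evalRingHom (fun _ : X => Amod O N) χ'))
      (K0.cls (kapMat χ m) (kapMat_idem χ m)) =
      if χ = χ' ∧ m = m' then K0.one (Amod O N ⧸ m'.asIdeal) else 0 := by
  have hmax := m'.isMaximal
  have hprime : m'.asIdeal.IsPrime := hmax.isPrime
  rw [K0.map_cls]
  split_ifs with h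
  · obtain ⟨rfl, rfl⟩ := h
    have h1 : (kapMat χ m).map ((Ideal.Quotient.mk m.asIdeal).comp
        (Pi.evalRingHom (fun _ : X => Amod O N) χ)) = 1 := by
      ext i j
      simp only [kapMat, Matrix.map_apply, Matrix.of_apply, RingHom.comp_apply,
        Pi.evalRingHom_apply, Pi.single_eq_same]
      rw [Subsingleton.elim i j, Matrix.one_apply_eq, ← map_one (Ideal.Quotient.mk m.asIdeal),
        Ideal.Quotient.eq]
      have h2 : kappa O N m * (kappa O N m - 1) ∈ m.asIdeal := by
        rw [mul_sub, kappa_mul, if_pos rfl, mul_one, sub_self]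
        exact m.asIdeal.zero_mem
      exact (hprime.mem_or_mem h2).resolve_left (kappa_notMem O N m)
    rw [K0.one]
    apply K0.cls_congr
    rw [h1]
    exact K0.matEquiv_one_one (Equiv.ofUnique Unit (Fin 1))
  · have h1 : (kapMat χ m).map ((Ideal.Quotient.mk m'.asIdeal).comp
        (Pi.evalRingHom (fun _ : X => Amod O N) χ')) = 0 := by
      ext i j
      simp only [kapMat, Matrix.map_apply, Matrix.of_apply, RingHom.comp_apply,
        Pi.evalRingHom_apply, Matrix.zero_apply]
      by_cases hχ : χ' = χ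
      · subst hχ
        rw [Pi.single_eq_same, Ideal.Quotient.eq_zero_iff_mem]
        have hm : m ≠ m' := fun hm => h ⟨rfl, hm⟩
        have h2 : kappa O N m * kappa O N m' ∈ m'.asIdeal := by
          rw [kappa_mul, if_neg hm]
          exact m'.asIdeal.zero_mem
        exact (hprime.mem_or_mem h2).resolve_right (kappa_notMem O N m')
      · rw [Pi.single_eq_of_ne hχ, map_zero]
    have h2 : ∀ (e : Matrix Unit Unit (Amod O N ⧸ m'.asIdeal)) (he : e * e = e), e = 0 →
        K0.cls e he = 0 := by
      rintro e he rfl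
      exact genk0_cls_zero he
    exact h2 _ _ h1

private theorem genk0_field {A : Type*} [CommRing A] (I : Ideal A) (hI : I.IsMaximal)
    (x : K0 (A ⧸ I)) : ∃ r : ℤ, x = r • K0.one (A ⧸ I) := by
  have h1 : IsDomain (A ⧸ I) := Ideal.Quotient.isDomain I
  have h2 : IsPrincipalIdealRing (A ⧸ I) := by
    have hf : IsField (A ⧸ I) := (Ideal.Quotient.maximal_ideal_iff_isField_quotient I).1 hI
    let _ := hf.toField
    infer_instance
  exact K0_pid x

theorem K0_gen {O : Type} [CommRing O] {N : ℕ} [Finite (Amod O N)] {X : Type v} [Fintype X]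
    [DecidableEq X] (x : K0 (X → Amod O N)) :
    ∃ r : X → Pr O N → ℤ, x = ∑ χ, ∑ m, r χ m • K0.cls (kapMat χ m) (kapMat_idem χ m) := by
  classical
  choose r hr using fun i : X × Pr O N => genk0_field i.2.asIdeal i.2.isMaximal
    (K0.map ((Ideal.Quotient.mk i.2.asIdeal).comp (Pi.evalRingHom (fun _ : X => Amod O N) i.1)) x)
  refine ⟨fun χ m => r (χ, m), ?_⟩
  rw [← sub_eq_zero]
  refine K0_joint (fun i : X × Pr O N =>
      (Ideal.Quotient.mk i.2.asIdeal).comp (Pi.evalRingHom (fun _ : X => Amod O N) i.1))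
      genk0_surj genk0_nil _ ?_
  rintro ⟨χ', m'⟩
  rw [map_sub, hr (χ', m'), map_sum, sub_eq_zero, Finset.sum_eq_single χ']
  · rw [map_sum, Finset.sum_eq_single m']
    · rw [map_zsmul, genk0_map, if_pos ⟨rfl, rfl⟩]
    · intro m _ hm
      rw [map_zsmul, genk0_map, if_neg (fun h => hm h.2), smul_zero]
    · intro h
      exact absurd (Finset.mem_univ _) h
  · intro χ _ hχ
    rw [map_sum]
    apply Finset.sum_eq_zero
    intro m _
    rw [map_zsmul, genk0_map, if_neg (fun h => hχ h.1), smul_zero]
  · intro h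
    exact absurd (Finset.mem_univ _) h

end Pool.Agent.H95.KM
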