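import Pool.Agent.H95.KM.Stab

/-!
# Project KM: Milnor squares, definitions

A square `Q : Sq Γ 𝓜 B` consists of an injective ring homomorphism `φ : Γ → 𝓜` and a surjective ring
homomorphism `π : 𝓜 → B` with `ker π ⊆ φ(Γ)`.  The connecting homomorphism attaches to a unit `g` of
`Mat_m(B)` a class `dl g ∈ K₀(Γ)`.
-/

set_option autoImplicit false

open Matrix
open scoped LaurentPolynomial

universe u v w u' v' w'

namespace Pool.Agent.H95.KM

open Pool.Agent.H71.FJ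

/-- Milnor square data. -/
structure Sq (Γ : Type u) (𝓜 : Type v) (B : Type w) [Ring Γ] [Ring 𝓜] [Ring B] where
  /-- the inclusion -/
  φ : Γ →+* 𝓜
  /-- the projection -/
  π : 𝓜 →+* B
  inj : Function.Injective φ
  surj : Function.Surjective π
  ker : ∀ z, π z = 0 → ∃ g, φ g = z

/-- image of a unit matrix under a ring homomorphism -/
def mapU {B : Type u} [Ring B] {B' : Type v} [Ring B'] (c : B →+* B') {m : Type} [Fintype m]
    [DecidableEq m] (g : (Matrix m m B)ˣ) : (Matrix m m B')ˣ where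
  val := (g : Matrix m m B).map c
  inv := ((g⁻¹ : (Matrix m m B)ˣ) : Matrix m m B).map c
  val_inv := by rw [← Matrix.map_mul, Units.mul_inv, Matrix.map_one _ (map_zero c) (map_one c)]
  inv_val := by rw [← Matrix.map_mul, Units.inv_mul, Matrix.map_one _ (map_zero c) (map_one c)]

/-- block sum of units -/
def blk {B : Type u} [Ring B] {m n : Type} [Fintype m] [DecidableEq m] [Fintype n]
    [DecidableEq n] (g : (Matrix m m B)ˣ) (h : (Matrix n n B)ˣ) :
    (Matrix (m ⊕ n) (m ⊕ n) B)ˣ where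
  val := fromBlocks g 0 0 h
  inv := fromBlocks (g⁻¹ : (Matrix m m B)ˣ) 0 0 (h⁻¹ : (Matrix n n B)ˣ)
  val_inv := by simp [fromBlocks_multiply]
  inv_val := by simp [fromBlocks_multiply]

/-- reindexing of a unit -/
def rei {B : Type u} [Ring B] {m n : Type} [Fintype m] [DecidableEq m] [Fintype n]
    [DecidableEq n] (σ : n ≃ m) (g : (Matrix m m B)ˣ) : (Matrix n n B)ˣ where
  val := (g : Matrix m m B).submatrix σ σ
  inv := ((g⁻¹ : (Matrix m m B)ˣ) : Matrix m m B).submatrix σ σ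
  val_inv := by rw [submatrix_mul_equiv, Units.mul_inv, submatrix_one_equiv]
  inv_val := by rw [submatrix_mul_equiv, Units.inv_mul, submatrix_one_equiv]

/-- A family of homomorphisms `GL_m(Λ) → M` compatible with block sums and reindexing. -/
structure StabHom (Λ : Type u) [Ring Λ] (M : Type v) [AddCommGroup M] where
  /-- the homomorphisms -/
  D : ∀ {m : Type} [Fintype m] [DecidableEq m], (Matrix m m Λ)ˣ → M
  map_mul : ∀ {m : Type} [Fintype m] [DecidableEq m] (g h : (Matrix m m Λ)ˣ),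
    D (g * h) = D g + D h
  map_blk : ∀ {m n : Type} [Fintype m] [DecidableEq m] [Fintype n] [DecidableEq n]
    (g : (Matrix m m Λ)ˣ) (h : (Matrix n n Λ)ˣ), D (blk g h) = D g + D h
  map_rei : ∀ {m n : Type} [Fintype m] [DecidableEq m] [Fintype n] [DecidableEq n]
    (σ : n ≃ m) (g : (Matrix m m Λ)ˣ), D (rei σ g) = D g

namespace StabHom

variable {Λ : Type u} [Ring Λ] {M : Type v} [AddCommGroup M] (Δ : StabHom Λ M)

theorem map_one {m : Type} [Fintype m] [DecidableEq m] : Δ.D (1 : (Matrix m m Λ)ˣ) = 0 := by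
  have := Δ.map_mul (1 : (Matrix m m Λ)ˣ) 1
  rw [one_mul] at this
  simpa using this

theorem map_inv {m : Type} [Fintype m] [DecidableEq m] (g : (Matrix m m Λ)ˣ) :
    Δ.D g⁻¹ = - Δ.D g := by
  rw [eq_neg_iff_add_eq_zero, ← Δ.map_mul, inv_mul_cancel, Δ.map_one]

theorem map_conj {m : Type} [Fintype m] [DecidableEq m] (g h : (Matrix m m Λ)ˣ) :
    Δ.D (h * g * h⁻¹) = Δ.D g := by
  rw [Δ.map_mul, Δ.map_mul, Δ.map_inv]
  abel

end StabHom

namespace Sq

variable {Γ : Type u} {𝓜 : Type v} {B : Type w} [Ring Γ] [Ring 𝓜] [Ring B] (Q : Sq Γ 𝓜 B)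

/-- `(x, y, H)` represents the unit `g`: `x y = 1`, `y x = φ(H)`, `π(x) = g · πφ(u)`,
`π(y) = πφ(v) · g⁻¹`. -/
def IsRep {m n : Type} [Fintype m] [DecidableEq m] [Fintype n] (g : (Matrix m m B)ˣ)
    (x : Matrix m n 𝓜) (y : Matrix n m 𝓜) (H : Matrix n n Γ) : Prop :=
  x * y = 1 ∧ y * x = H.map Q.φ ∧
  (∃ u : Matrix m n Γ, x.map Q.π = (g : Matrix m m B) * u.map (Q.π.comp Q.φ)) ∧
  (∃ v : Matrix n m Γ, y.map Q.π = v.map (Q.π.comp Q.φ) * ((g⁻¹ : (Matrix m m B)ˣ) :
    Matrix m m B))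

variable {Q}

theorem IsRep.idem {m n : Type} [Fintype m] [DecidableEq m] [Fintype n] [DecidableEq n]
    {g : (Matrix m m B)ˣ} {x : Matrix m n 𝓜} {y : Matrix n m 𝓜} {H : Matrix n n Γ}
    (h : Q.IsRep g x y H) : H * H = H := by
  apply matrix_map_injective Q.inj
  rw [Matrix.map_mul, ← h.2.1, Matrix.mul_assoc, ← Matrix.mul_assoc x, h.1, Matrix.one_mul]

theorem exists_map_of_pi {m n : Type*} (X : Matrix m n 𝓜)
    (h : ∃ Z : Matrix m n Γ, X.map Q.π = Z.map (Q.π.comp Q.φ)) :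
    ∃ Y : Matrix m n Γ, Y.map Q.φ = X := by
  obtain ⟨Z, hZ⟩ := h
  apply exists_matrix_lift Q.φ X
  intro i j
  have h1 : Q.π (X i j - Q.φ (Z i j)) = 0 := by
    rw [map_sub, sub_eq_zero]
    exact congrFun (congrFun hZ i) j
  obtain ⟨g, hg⟩ := Q.ker _ h1
  exact ⟨g + Z i j, by rw [map_add, hg, sub_add_cancel]⟩

/-- Two representations of the same unit give equivalent idempotent matrices. -/
theorem IsRep.matEquiv {m n₁ n₂ : Type} [Fintype m] [DecidableEq m] [Fintype n₁]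
    [DecidableEq n₁] [Fintype n₂] [DecidableEq n₂] {g : (Matrix m m B)ˣ}
    {x₁ : Matrix m n₁ 𝓜} {y₁ : Matrix n₁ m 𝓜} {H₁ : Matrix n₁ n₁ Γ}
    {x₂ : Matrix m n₂ 𝓜} {y₂ : Matrix n₂ m 𝓜} {H₂ : Matrix n₂ n₂ Γ}
    (h₁ : Q.IsRep g x₁ y₁ H₁) (h₂ : Q.IsRep g x₂ y₂ H₂) : MatEquiv H₁ H₂ := by
  obtain ⟨a1, b1, ⟨u1, c1⟩, ⟨v1, d1⟩⟩ := h₁
  obtain ⟨a2, b2, ⟨u2, c2⟩, ⟨v2, d2⟩⟩ := h₂
  obtain ⟨X, hX⟩ := exists_map_of_pi (Q := Q) (y₁ * x₂) ⟨v1 * u2, by
    rw [Matrix.map_mul, d1, c2, Matrix.map_mul, Matrix.mul_assoc, ← Matrix.mul_assoc _ (g : Matrix m m B),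
      Units.inv_mul, Matrix.one_mul]⟩
  obtain ⟨Y, hY⟩ := exists_map_of_pi (Q := Q) (y₂ * x₁) ⟨v2 * u1, by
    rw [Matrix.map_mul, d2, c1, Matrix.map_mul, Matrix.mul_assoc, ← Matrix.mul_assoc _ (g : Matrix m m B),
      Units.inv_mul, Matrix.one_mul]⟩
  refine ⟨X, Y, ?_, ?_⟩
  · apply matrix_map_injective Q.inj
    rw [Matrix.map_mul, hX, hY, ← b1, Matrix.mul_assoc, ← Matrix.mul_assoc x₂, a2, Matrix.one_mul]
  · apply matrix_map_injective Q.inj
    rw [Matrix.map_mul, hX, hY, ← b2, Matrix.mul_assoc, ← Matrix.mul_assoc x₁, a1, Matrix.one_mul]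

variable (Q)

theorem exists_isRep_aux {m : Type} [Fintype m] [DecidableEq m] (g : Matrix m m B)
    (A₁ A₂ : Matrix m m 𝓜) (h₁ : A₁.map Q.π = g) (h₂ : A₂.map Q.π = 0) :
    (fromCols A₁ A₂).map Q.π =
      g * (fromCols (1 : Matrix m m Γ) 0).map (Q.π.comp Q.φ) := by
  ext i j
  rcases j with j | j
  · have := congrFun (congrFun h₁ i) j
    simp only [Matrix.map_apply] at this
    simp [Matrix.mul_apply, Matrix.one_apply, this]
  · have := congrFun (congrFun h₂ i) j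
    simp only [Matrix.map_apply] at this
    simp [Matrix.mul_apply, this]

theorem exists_isRep_aux' {m : Type} [Fintype m] [DecidableEq m] (g : Matrix m m B)
    (A₁ A₂ : Matrix m m 𝓜) (h₁ : A₁.map Q.π = g) (h₂ : A₂.map Q.π = 0) :
    (fromRows A₁ A₂).map Q.π =
      (fromRows (1 : Matrix m m Γ) 0).map (Q.π.comp Q.φ) * g := by
  ext i j
  rcases i with i | i
  · have := congrFun (congrFun h₁ i) j
    simp only [Matrix.map_apply] at this
    simp [Matrix.mul_apply, Matrix.one_apply, this]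
  · have := congrFun (congrFun h₂ i) j
    simp only [Matrix.map_apply] at this
    simp [Matrix.mul_apply, this]

theorem exists_isRep {m : Type} [Fintype m] [DecidableEq m] (g : (Matrix m m B)ˣ) :
    ∃ (x : Matrix m (m ⊕ m) 𝓜) (y : Matrix (m ⊕ m) m 𝓜) (H : Matrix (m ⊕ m) (m ⊕ m) Γ),
      Q.IsRep g x y H := by
  obtain ⟨a, ha⟩ := exists_matrix_lift Q.π (g : Matrix m m B) (fun i j => Q.surj _)
  obtain ⟨b, hb⟩ := exists_matrix_lift Q.π ((g⁻¹ : (Matrix m m B)ˣ) : Matrix m m B)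
    (fun i j => Q.surj _)
  have hab : (a * b).map Q.π = 1 := by rw [Matrix.map_mul, ha, hb, Units.mul_inv]
  have e1 : (2 * a - a * b * a).map Q.π = (g : Matrix m m B) := by
    have h1 := map_sub (Q.π.mapMatrix) (2 * a) (a * b * a)
    rw [map_mul, map_mul (Q.π.mapMatrix) (a * b) a, map_ofNat] at h1
    have h2 : (2 * a - a * b * a).map Q.π = 2 * a.map Q.π - (a * b).map Q.π * a.map Q.π := h1
    rw [h2, hab, ha, one_mul, two_mul, add_sub_cancel_right]
  have e2 : (a * b - 1).map Q.π = 0 := by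
    have h1 := map_sub (Q.π.mapMatrix) (a * b) 1
    rw [map_one] at h1
    have h2 : (a * b - 1).map Q.π = (a * b).map Q.π - 1 := h1
    rw [h2, hab, sub_self]
  have hx := Q.exists_isRep_aux (g : Matrix m m B) _ _ e1 e2
  have hy := Q.exists_isRep_aux' ((g⁻¹ : (Matrix m m B)ˣ) : Matrix m m B) _ _ hb e2
  obtain ⟨H, hH⟩ := exists_map_of_pi (Q := Q)
    (fromRows b (a * b - 1) * fromCols (2 * a - a * b * a) (a * b - 1))
    ⟨fromRows (1 : Matrix m m Γ) 0 * fromCols (1 : Matrix m m Γ) 0, by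
      rw [Matrix.map_mul, hx, hy, Matrix.map_mul, Matrix.mul_assoc,
        ← Matrix.mul_assoc _ (g : Matrix m m B), Units.inv_mul, Matrix.one_mul]⟩
  refine ⟨_, _, H, ?_, hH.symm, ⟨_, hx⟩, ⟨_, hy⟩⟩
  rw [fromCols_mul_fromRows]
  noncomm_ring

/-- the chosen idempotent matrix representing `g` -/
noncomputable def repH {m : Type} [Fintype m] [DecidableEq m] (g : (Matrix m m B)ˣ) :
    Matrix (m ⊕ m) (m ⊕ m) Γ :=
  (Q.exists_isRep g).choose_spec.choose_spec.choose

theorem exists_isRep_repH {m : Type} [Fintype m] [DecidableEq m] (g : (Matrix m m B)ˣ) :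
    ∃ x y, Q.IsRep g x y (Q.repH g) :=
  ⟨_, _, (Q.exists_isRep g).choose_spec.choose_spec.choose_spec⟩

theorem repH_idem {m : Type} [Fintype m] [DecidableEq m] (g : (Matrix m m B)ˣ) :
    Q.repH g * Q.repH g = Q.repH g := by
  obtain ⟨x, y, h⟩ := Q.exists_isRep_repH g
  exact h.idem

/-- The connecting homomorphism. -/
noncomputable def dl {m : Type} [Fintype m] [DecidableEq m] (g : (Matrix m m B)ˣ) : K0 Γ :=
  K0.cls (Q.repH g) (Q.repH_idem g) - K0.cls (1 : Matrix m m Γ) one_idem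

variable {Q}

theorem dl_eq {m n : Type} [Fintype m] [DecidableEq m] [Fintype n] [DecidableEq n]
    {g : (Matrix m m B)ˣ} {x : Matrix m n 𝓜} {y : Matrix n m 𝓜} {H : Matrix n n Γ}
    (h : Q.IsRep g x y H) :
    Q.dl g = K0.cls H h.idem - K0.cls (1 : Matrix m m Γ) one_idem := by
  obtain ⟨x', y', h'⟩ := Q.exists_isRep_repH g
  rw [dl, K0.cls_congr _ _ (h'.matEquiv h)]

variable (Q)

/-- The square of Laurent polynomial rings. -/
noncomputable def lauSq : Sq Γ[T;T⁻¹] 𝓜[T;T⁻¹] B[T;T⁻¹] where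
  φ := lau Q.φ
  π := lau Q.π
  inj := lau_injective Q.inj
  surj := lau_surjective Q.surj
  ker z hz := by
    apply exists_lau z
    intro k
    apply Q.ker
    rw [← lau_coeff, hz]
    simp

/-- The square of polynomial rings. -/
noncomputable def polySq : Sq (Polynomial Γ) (Polynomial 𝓜) (Polynomial B) where
  φ := Polynomial.mapRingHom Q.φ
  π := Polynomial.mapRingHom Q.π
  inj := Polynomial.map_injective Q.φ Q.inj
  surj := Polynomial.map_surjective Q.π Q.surj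
  ker z hz := by
    have h : ∀ k, ∃ g, Q.φ g = z.coeff k := by
      intro k
      apply Q.ker
      have := congrArg (fun p => Polynomial.coeff p k) hz
      simpa using this
    choose g hg using h
    refine ⟨∑ k ∈ z.support, Polynomial.monomial k (g k), ?_⟩
    rw [map_sum]
    conv_rhs => rw [Polynomial.as_sum_support z]
    apply Finset.sum_congr rfl
    intro k _
    rw [Polynomial.coe_mapRingHom, Polynomial.map_monomial, hg]

end Sq

/-- A morphism of squares. -/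
structure SqHom {Γ : Type u} {𝓜 : Type v} {B : Type w} [Ring Γ] [Ring 𝓜] [Ring B]
    (Q : Sq Γ 𝓜 B) {Γ' : Type u'} {𝓜' : Type v'} {B' : Type w'} [Ring Γ'] [Ring 𝓜'] [Ring B']
    (Q' : Sq Γ' 𝓜' B') where
  /-- component -/
  a : Γ →+* Γ'
  /-- component -/
  b : 𝓜 →+* 𝓜'
  /-- component -/
  c : B →+* B'
  hφ : ∀ x, b (Q.φ x) = Q'.φ (a x)
  hπ : ∀ x, c (Q.π x) = Q'.π (b x)

end Pool.Agent.H95.KM
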