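import Pool.Agent.H95.KM.SqProp

/-!
# Project KM, module SqLau: the connecting homomorphism `GL(B[t, t⁻¹]) → K₋₁(Γ)`

`Q.lauSq`, `Q.polySq` are in `Pool/Agent/H95/KM/SqDefs.lean`; `IsPos`, `IsNeg`, `posHom`, `negHom`,
`IsPos.exists_posHom`, ... in `Pool/Agent/H95/KM/Lau.lean`.

PROOF.  `Q.DD` is the composite of `Q.lauSq.dl` with `Km1.mk`; the axioms of `StabHom` are
`dl_mul`, `dl_blk`, `dl_rei`.
`DD_pos`: the entries of `g` and `g⁻¹` come from `B[X]` under the injective `posHom`, so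
`g = mapU (posHom B) g₀` with `g₀ ∈ GL_m(B[X])`.  `posHom` is a morphism of squares
`Q.polySq → Q.lauSq` (`lau_posHom`), so `dl_map` gives `Q.lauSq.dl g = K0.map (posHom Γ) (..)`, which
is killed by `Km1.mk` (`Km1.mk_pos`).  `DD_neg` is the same with `negHom`.
`DD_lift`: from `dl_lift` with `g = 1` and `dl_one`.  `DD_base`: from `dl_base` with `g = 1`.
`DD_map`: morphisms of squares `F : Q → Q'` induce morphisms `lauSq → lauSq`
(components `lau F.a`, `lau F.b`, `lau F.c`); use `dl_map` and `Km1.map_mk`.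
-/

set_option autoImplicit false

open Matrix
open scoped LaurentPolynomial

universe u v w u' v' w'

namespace Pool.Agent.H95.KM

open Pool.Agent.H71.FJ

namespace Sq

variable {Γ : Type u} {𝓜 : Type v} {B : Type w} [Ring Γ] [Ring 𝓜] [Ring B] (Q : Sq Γ 𝓜 B)

/-- The connecting homomorphism `GL(B[t, t⁻¹]) → K₋₁(Γ)`. -/
noncomputable def DD : StabHom B[T;T⁻¹] (Km1 Γ) where
  D g := Km1.mk (Q.lauSq.dl g)
  map_mul g h := by rw [dl_mul, map_add]
  map_blk g h := by rw [dl_blk, map_add]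
  map_rei σ g := by rw [dl_rei]

theorem DD_eq {m : Type} [Fintype m] [DecidableEq m] (g : (Matrix m m B[T;T⁻¹])ˣ) :
    Q.DD.D g = Km1.mk (Q.lauSq.dl g) := rfl

theorem exists_mapU {B₀ : Type u} [Ring B₀] {B₁ : Type v} [Ring B₁] (f : B₀ →+* B₁)
    (hf : Function.Injective f) {m : Type} [Fintype m] [DecidableEq m] (g : (Matrix m m B₁)ˣ)
    (h1 : ∀ i j, ∃ p, f p = (g : Matrix m m B₁) i j)
    (h2 : ∀ i j, ∃ p, f p = ((g⁻¹ : (Matrix m m B₁)ˣ) : Matrix m m B₁) i j) :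
    ∃ g₀ : (Matrix m m B₀)ˣ, mapU f g₀ = g := by
  obtain ⟨X, hX⟩ := exists_matrix_lift f (g : Matrix m m B₁) h1
  obtain ⟨Y, hY⟩ := exists_matrix_lift f ((g⁻¹ : (Matrix m m B₁)ˣ) : Matrix m m B₁) h2
  have hXY : X * Y = 1 := by
    apply matrix_map_injective hf
    rw [Matrix.map_mul, hX, hY, Units.mul_inv, Matrix.map_one _ (map_zero f) (map_one f)]
  have hYX : Y * X = 1 := by
    apply matrix_map_injective hf
    rw [Matrix.map_mul, hX, hY, Units.inv_mul, Matrix.map_one _ (map_zero f) (map_one f)]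
  exact ⟨⟨X, Y, hXY, hYX⟩, Units.ext hX⟩

/-- `posHom` as a morphism of squares -/
noncomputable def posSqHom : SqHom Q.polySq Q.lauSq where
  a := posHom Γ
  b := posHom 𝓜
  c := posHom B
  hφ x := (RingHom.congr_fun (lau_posHom Q.φ) x).symm
  hπ x := (RingHom.congr_fun (lau_posHom Q.π) x).symm

/-- `negHom` as a morphism of squares -/
noncomputable def negSqHom : SqHom Q.polySq Q.lauSq where
  a := negHom Γ
  b := negHom 𝓜
  c := negHom B
  hφ x := (RingHom.congr_fun (lau_negHom Q.φ) x).symm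
  hπ x := (RingHom.congr_fun (lau_negHom Q.π) x).symm

theorem DD_pos {m : Type} [Fintype m] [DecidableEq m] (g : (Matrix m m B[T;T⁻¹])ˣ)
    (h1 : ∀ i j, IsPos ((g : Matrix m m B[T;T⁻¹]) i j))
    (h2 : ∀ i j, IsPos (((g⁻¹ : (Matrix m m B[T;T⁻¹])ˣ) : Matrix m m B[T;T⁻¹]) i j)) :
    Q.DD.D g = 0 := by
  obtain ⟨g₀, rfl⟩ := exists_mapU (posHom B) posHom_injective g
    (fun i j => (h1 i j).exists_posHom) (fun i j => (h2 i j).exists_posHom)
  rw [DD_eq]
  have := dl_map Q.posSqHom g₀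
  change Km1.mk (Q.lauSq.dl (mapU Q.posSqHom.c g₀)) = 0
  rw [this]
  exact Km1.mk_pos _

theorem DD_neg {m : Type} [Fintype m] [DecidableEq m] (g : (Matrix m m B[T;T⁻¹])ˣ)
    (h1 : ∀ i j, IsNeg ((g : Matrix m m B[T;T⁻¹]) i j))
    (h2 : ∀ i j, IsNeg (((g⁻¹ : (Matrix m m B[T;T⁻¹])ˣ) : Matrix m m B[T;T⁻¹]) i j)) :
    Q.DD.D g = 0 := by
  obtain ⟨g₀, rfl⟩ := exists_mapU (negHom B) negHom_injective g
    (fun i j => (h1 i j).exists_negHom) (fun i j => (h2 i j).exists_negHom)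
  rw [DD_eq]
  have := dl_map Q.negSqHom g₀
  change Km1.mk (Q.lauSq.dl (mapU Q.negSqHom.c g₀)) = 0
  rw [this]
  exact Km1.mk_neg _

theorem DD_lift {m : Type} [Fintype m] [DecidableEq m] (U : (Matrix m m 𝓜[T;T⁻¹])ˣ)
    (g : (Matrix m m B[T;T⁻¹])ˣ)
    (hU : (g : Matrix m m B[T;T⁻¹]) = (U : Matrix m m 𝓜[T;T⁻¹]).map (lau Q.π)) :
    Q.DD.D g = 0 := by
  rw [DD_eq, Q.lauSq.dl_lift U 1 g (by rw [Units.val_one, Matrix.mul_one]; exact hU), dl_one,
    map_zero]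

theorem DD_base {m : Type} [Fintype m] [DecidableEq m] (V V' : Matrix m m Γ[T;T⁻¹])
    (g : (Matrix m m B[T;T⁻¹])ˣ)
    (h1 : (g : Matrix m m B[T;T⁻¹]) = V.map ((lau Q.π).comp (lau Q.φ)))
    (h2 : ((g⁻¹ : (Matrix m m B[T;T⁻¹])ˣ) : Matrix m m B[T;T⁻¹]) =
      V'.map ((lau Q.π).comp (lau Q.φ))) :
    Q.DD.D g = 0 := by
  rw [DD_eq, Q.lauSq.dl_base V V' 1 g
    (by
      change V.map ((lau Q.π).comp (lau Q.φ)) * V'.map ((lau Q.π).comp (lau Q.φ)) = 1
      rw [← h1, ← h2, Units.mul_inv])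
    (by
      change V'.map ((lau Q.π).comp (lau Q.φ)) * V.map ((lau Q.π).comp (lau Q.φ)) = 1
      rw [← h1, ← h2, Units.inv_mul])
    (by rw [Units.val_one, Matrix.one_mul]; exact h1), dl_one, map_zero]

variable {Q}
variable {Γ' : Type u'} {𝓜' : Type v'} {B' : Type w'} [Ring Γ'] [Ring 𝓜'] [Ring B']
  {Q' : Sq Γ' 𝓜' B'}

/-- Laurent polynomials over a morphism of squares -/
noncomputable def lauSqHom (F : SqHom Q Q') : SqHom Q.lauSq Q'.lauSq where
  a := lau F.a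
  b := lau F.b
  c := lau F.c
  hφ x := by
    have h : (lau F.b).comp (lau Q.φ) = (lau Q'.φ).comp (lau F.a) := by
      rw [← lau_comp, ← lau_comp]
      congr 1
      exact RingHom.ext F.hφ
    exact RingHom.congr_fun h x
  hπ x := by
    have h : (lau F.c).comp (lau Q.π) = (lau Q'.π).comp (lau F.b) := by
      rw [← lau_comp, ← lau_comp]
      congr 1
      exact RingHom.ext F.hπ
    exact RingHom.congr_fun h x

theorem DD_map (F : SqHom Q Q') {m : Type} [Fintype m] [DecidableEq m]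
    (g : (Matrix m m B[T;T⁻¹])ˣ) :
    Q'.DD.D (mapU (lau F.c) g) = Km1.map F.a (Q.DD.D g) := by
  rw [DD_eq, DD_eq, Km1.map_mk]
  exact congrArg Km1.mk (dl_map (lauSqHom F) g)

end Sq

end Pool.Agent.H95.KM
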