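import Pool.Agent.H95.KM.Lau

/-!
# Project KM, module Stab: equality in `K₀` is stable equivalence

`K0 R`, `K0.cls`, `MatEquiv`, `K0.lift`, `K0.cls_fromBlocks`, ... are in
`Pool/Agent/H71/FJ/Defs.lean`, `Pool/Agent/H71/FJ/K0.lean`, `Pool/Agent/H71/FJ/Rank.lean`.

PROOF of `exists_stab`.  Let `Mo` be the quotient of `IdemMat R` by `a ≈ b :↔ MatEquiv a.mat b.mat`
(an equivalence relation: `K0.matEquiv_refl/symm/trans`).  Block sum makes it a commutative
additive monoid (`K0.matEquiv_fromBlocks`, `K0.matEquiv_submatrix`, `finSumFinEquiv`,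
`Equiv.sumComm`, `Equiv.sumAssoc`; zero is the `0 × 0` matrix).  Let `Gr` be its Grothendieck group
(`AddLocalization (⊤ : AddSubmonoid Mo)` or `Algebra.GrothendieckAddGroup Mo`, or any direct
construction).  `K0.lift` gives `K0 R →+ Gr` with `K0.mk a ↦ [a]`.  So if `K0.cls E = K0.cls F`
then `[toFin E] = [toFin F]` in `Gr`, so there is an idempotent matrix `c` (size `k`) with
`E ⊕ c ≈ F ⊕ c`.  Adding `1 - c` on both sides and using `c ⊕ (1 - c) ≈ 1_k`
(take `x = fromRows c (1 - c)`, `y = fromCols c (1 - c)`: `y * x = c + (1 - c) = 1`,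
`x * y = fromBlocks c 0 0 (1 - c)`) gives `E ⊕ 1_k ≈ F ⊕ 1_k`.  Alternatively avoid the
Grothendieck group: define on pairs of idempotent matrices `(a, b) ~ (a', b')` iff
`∃ k, a ⊕ b' ⊕ 1_k ≈ a' ⊕ b ⊕ 1_k`.

PROOF of `exists_sub_one`.  `K0.exists_sub` gives `x = mk a - mk b`; add `[1 - b.mat]` to both:
`x = ([a] + [1 - b]) - ([b] + [1 - b]) = [a ⊕ (1 - b)] - [1_{b.n}]`, and reindex `a ⊕ (1 - b)` to
`Fin (a.n + b.n)` (`K0.matEquiv_submatrix`).
-/

set_option autoImplicit false

open Matrix
open scoped LaurentPolynomial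

universe u v w

namespace Pool.Agent.H95.KM

open Pool.Agent.H71.FJ

variable {R : Type u} [Ring R]

theorem one_idem {R : Type u} [Ring R] {n : Type*} [Fintype n] [DecidableEq n] :
    (1 : Matrix n n R) * 1 = 1 := one_mul 1

theorem sub_idem {n : Type*} [Fintype n] [DecidableEq n] {e : Matrix n n R} (he : e * e = e) :
    (1 - e) * (1 - e) = 1 - e := by
  rw [sub_mul, one_mul, mul_sub, mul_one, he, sub_self, sub_zero]

/-! ### Block sums up to equivalence -/

private theorem stab_sum_equiv (a b : IdemMat R) :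
    MatEquiv (a.sum b).mat (fromBlocks a.mat 0 0 b.mat) :=
  K0.matEquiv_submatrix _ (K0.fromBlocks_idem a.idem b.idem) finSumFinEquiv.symm

private theorem stab_comm {m n : Type*} [Fintype m] [DecidableEq m] [Fintype n] [DecidableEq n]
    (E : Matrix m m R) (F : Matrix n n R) (hE : E * E = E) (hF : F * F = F) :
    MatEquiv (fromBlocks E 0 0 F) (fromBlocks F 0 0 E) := by
  have h : fromBlocks E 0 0 F =
      (fromBlocks F 0 0 E).submatrix (Equiv.sumComm m n) (Equiv.sumComm m n) := by
    ext i j
    rcases i with i | i <;> rcases j with j | j <;> rfl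
  rw [h]
  exact K0.matEquiv_submatrix _ (K0.fromBlocks_idem hF hE) _

private theorem stab_assoc {l m n : Type*} [Fintype l] [DecidableEq l] [Fintype m] [DecidableEq m]
    [Fintype n] [DecidableEq n] (D : Matrix l l R) (E : Matrix m m R) (F : Matrix n n R)
    (hD : D * D = D) (hE : E * E = E) (hF : F * F = F) :
    MatEquiv (fromBlocks (fromBlocks D 0 0 E) 0 0 F) (fromBlocks D 0 0 (fromBlocks E 0 0 F)) := by
  have h : fromBlocks (fromBlocks D 0 0 E) 0 0 F =
      (fromBlocks D 0 0 (fromBlocks E 0 0 F)).submatrix (Equiv.sumAssoc l m n)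
        (Equiv.sumAssoc l m n) := by
    ext i j
    rcases i with (i | i) | i <;> rcases j with (j | j) | j <;> rfl
  rw [h]
  exact K0.matEquiv_submatrix _ (K0.fromBlocks_idem hD (K0.fromBlocks_idem hE hF)) _

private theorem stab_zero {l m : Type*} [Fintype l] [DecidableEq l] [IsEmpty l] [Fintype m]
    [DecidableEq m] (D : Matrix l l R) (E : Matrix m m R) (hE : E * E = E) :
    MatEquiv (fromBlocks D 0 0 E) E := by
  have h : fromBlocks D 0 0 E = E.submatrix (Equiv.emptySum l m) (Equiv.emptySum l m) := by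
    ext i j
    rcases i with i | i
    · exact (IsEmpty.false i).elim
    · rcases j with j | j
      · exact (IsEmpty.false j).elim
      · rfl
  rw [h]
  exact K0.matEquiv_submatrix _ hE _

private theorem stab_compl {n : Type*} [Fintype n] [DecidableEq n] (e : Matrix n n R)
    (he : e * e = e) : MatEquiv (fromBlocks e 0 0 (1 - e)) (1 : Matrix n n R) := by
  refine ⟨fromRows e (1 - e), fromCols e (1 - e), ?_, ?_⟩
  · rw [fromRows_mul_fromCols, sub_idem he, he, mul_sub, sub_mul, mul_one, one_mul, he, sub_self]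
  · rw [fromCols_mul_fromRows, sub_idem he, he, add_sub_cancel]

/-! ### The monoid of equivalence classes of idempotent matrices -/

/-- Equivalence of idempotent matrices. -/
private def stabSetoid (R : Type u) [Ring R] : Setoid (IdemMat R) where
  r a b := MatEquiv a.mat b.mat
  iseqv :=
    { refl := fun a => K0.matEquiv_refl a.idem
      symm := fun h => K0.matEquiv_symm h
      trans := fun {a _ c} h h' => K0.matEquiv_trans a.idem c.idem h h' }

/-- The monoid of equivalence classes of idempotent matrices. -/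
private def StabMon (R : Type u) [Ring R] : Type u := Quotient (stabSetoid R)

private theorem stab_sum_congr (a a' b b' : IdemMat R) (h : MatEquiv a.mat a'.mat)
    (h' : MatEquiv b.mat b'.mat) : MatEquiv (a.sum b).mat (a'.sum b').mat :=
  K0.matEquiv_trans (a.sum b).idem (a'.sum b').idem (stab_sum_equiv a b)
    (K0.matEquiv_trans (K0.fromBlocks_idem a.idem b.idem) (a'.sum b').idem
      (K0.matEquiv_fromBlocks h h') (K0.matEquiv_symm (stab_sum_equiv a' b')))

/-- The class of an idempotent matrix. -/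
private def stabMk (a : IdemMat R) : StabMon R := Quotient.mk (stabSetoid R) a

private instance stabAdd (R : Type u) [Ring R] : Add (StabMon R) :=
  ⟨Quotient.map₂ IdemMat.sum fun a a' h b b' h' => stab_sum_congr a a' b b' h h'⟩

private instance stabZero (R : Type u) [Ring R] : Zero (StabMon R) :=
  ⟨stabMk ⟨0, 0, by simp⟩⟩

private theorem stabMk_add (a b : IdemMat R) : stabMk (a.sum b) = stabMk a + stabMk b := rfl

private theorem stabMk_eq {a b : IdemMat R} (h : MatEquiv a.mat b.mat) : stabMk a = stabMk b :=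
  Quotient.sound h

private instance stabMonInst (R : Type u) [Ring R] : AddCommMonoid (StabMon R) where
  add_assoc a b c := by
    induction a using Quotient.inductionOn with
    | _ a =>
    induction b using Quotient.inductionOn with
    | _ b =>
    induction c using Quotient.inductionOn with
    | _ c =>
    apply Quotient.sound
    change MatEquiv ((a.sum b).sum c).mat (a.sum (b.sum c)).mat
    refine K0.matEquiv_trans ((a.sum b).sum c).idem (a.sum (b.sum c)).idem
      (stab_sum_equiv (a.sum b) c) ?_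
    refine K0.matEquiv_trans (K0.fromBlocks_idem (a.sum b).idem c.idem) (a.sum (b.sum c)).idem
      (K0.matEquiv_fromBlocks (stab_sum_equiv a b) (K0.matEquiv_refl c.idem)) ?_
    refine K0.matEquiv_trans (K0.fromBlocks_idem (K0.fromBlocks_idem a.idem b.idem) c.idem)
      (a.sum (b.sum c)).idem (stab_assoc a.mat b.mat c.mat a.idem b.idem c.idem) ?_
    refine K0.matEquiv_symm (K0.matEquiv_trans (a.sum (b.sum c)).idem
      (K0.fromBlocks_idem a.idem (K0.fromBlocks_idem b.idem c.idem))
      (stab_sum_equiv a (b.sum c)) ?_)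
    exact K0.matEquiv_fromBlocks (K0.matEquiv_refl a.idem) (stab_sum_equiv b c)
  zero_add a := by
    induction a using Quotient.inductionOn with
    | _ a =>
    apply Quotient.sound
    exact K0.matEquiv_trans (IdemMat.sum _ a).idem a.idem (stab_sum_equiv _ a)
      (stab_zero _ a.mat a.idem)
  add_zero a := by
    induction a using Quotient.inductionOn with
    | _ a =>
    apply Quotient.sound
    refine K0.matEquiv_trans (IdemMat.sum a _).idem a.idem (stab_sum_equiv a _) ?_
    exact K0.matEquiv_trans (K0.fromBlocks_idem a.idem (by simp)) a.idem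
      (stab_comm a.mat _ a.idem (by simp)) (stab_zero _ a.mat a.idem)
  add_comm a b := by
    induction a using Quotient.inductionOn with
    | _ a =>
    induction b using Quotient.inductionOn with
    | _ b =>
    apply Quotient.sound
    exact K0.matEquiv_trans (a.sum b).idem (b.sum a).idem (stab_sum_equiv a b)
      (K0.matEquiv_trans (K0.fromBlocks_idem a.idem b.idem) (b.sum a).idem
        (stab_comm a.mat b.mat a.idem b.idem) (K0.matEquiv_symm (stab_sum_equiv b a)))
  nsmul := nsmulRec

/-- The map to the Grothendieck group of the monoid of equivalence classes. -/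
private noncomputable def stabHom (R : Type u) [Ring R] :
    K0 R →+ Algebra.GrothendieckAddGroup (StabMon R) :=
  K0.lift (fun a => Algebra.GrothendieckAddGroup.of (stabMk a))
    (fun _ _ h => by rw [stabMk_eq h])
    (fun a b => by rw [stabMk_add, map_add])

private theorem stab_exists_sum {a b : IdemMat R} (h : K0.mk a = K0.mk b) :
    ∃ c : IdemMat R, MatEquiv (c.sum a).mat (c.sum b).mat := by
  have h1 : stabHom R (K0.mk a) = stabHom R (K0.mk b) := by rw [h]
  rw [stabHom, K0.lift_mk, K0.lift_mk] at h1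
  obtain ⟨⟨c, _⟩, hc⟩ := (AddLocalization.addMonoidOf (⊤ : AddSubmonoid (StabMon R))).eq_iff_exists.1
    h1
  obtain ⟨c', rfl⟩ := Quotient.exists_rep c
  exact ⟨c', Quotient.exact hc⟩

/-- Equality of classes in `K₀` means stable equivalence. -/
theorem exists_stab {m n : Type} [Fintype m] [DecidableEq m] [Fintype n] [DecidableEq n]
    (E : Matrix m m R) (F : Matrix n n R) (hE : E * E = E) (hF : F * F = F)
    (h : K0.cls E hE = K0.cls F hF) :
    ∃ k : ℕ, MatEquiv (fromBlocks E 0 0 (1 : Matrix (Fin k) (Fin k) R))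
      (fromBlocks F 0 0 (1 : Matrix (Fin k) (Fin k) R)) := by
  obtain ⟨c, hc⟩ := stab_exists_sum h
  have hc1 : MatEquiv (fromBlocks c.mat 0 0 E) (fromBlocks c.mat 0 0 F) := by
    refine K0.matEquiv_trans (K0.fromBlocks_idem c.idem hE) (K0.fromBlocks_idem c.idem hF)
      (K0.matEquiv_fromBlocks (K0.matEquiv_refl c.idem)
        (K0.matEquiv_symm (K0.toFin_equiv E hE))) ?_
    refine K0.matEquiv_trans (K0.fromBlocks_idem c.idem (K0.toFin E hE).idem)
      (K0.fromBlocks_idem c.idem hF) (K0.matEquiv_symm (stab_sum_equiv c (K0.toFin E hE))) ?_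
    refine K0.matEquiv_trans (c.sum (K0.toFin E hE)).idem (K0.fromBlocks_idem c.idem hF) hc ?_
    refine K0.matEquiv_trans (c.sum (K0.toFin F hF)).idem (K0.fromBlocks_idem c.idem hF)
      (stab_sum_equiv c (K0.toFin F hF)) ?_
    exact K0.matEquiv_fromBlocks (K0.matEquiv_refl c.idem) (K0.toFin_equiv F hF)
  have key : ∀ {l : Type} [Fintype l] [DecidableEq l] (G : Matrix l l R), G * G = G →
      MatEquiv (fromBlocks G 0 0 (1 : Matrix (Fin c.n) (Fin c.n) R))
        (fromBlocks (fromBlocks c.mat 0 0 G) 0 0 (1 - c.mat)) := by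
    intro l _ _ G hG
    have h1 : (fromBlocks (fromBlocks c.mat 0 0 G) 0 0 (1 - c.mat)) *
        (fromBlocks (fromBlocks c.mat 0 0 G) 0 0 (1 - c.mat)) =
        (fromBlocks (fromBlocks c.mat 0 0 G) 0 0 (1 - c.mat)) :=
      K0.fromBlocks_idem (K0.fromBlocks_idem c.idem hG) (sub_idem c.idem)
    refine K0.matEquiv_trans (K0.fromBlocks_idem hG one_idem) h1
      (K0.matEquiv_fromBlocks (K0.matEquiv_refl hG)
        (K0.matEquiv_symm (stab_compl c.mat c.idem))) ?_
    refine K0.matEquiv_trans
      (K0.fromBlocks_idem hG (K0.fromBlocks_idem c.idem (sub_idem c.idem))) h1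
      (K0.matEquiv_symm (stab_assoc G c.mat (1 - c.mat) hG c.idem (sub_idem c.idem))) ?_
    exact K0.matEquiv_fromBlocks (stab_comm G c.mat hG c.idem)
      (K0.matEquiv_refl (sub_idem c.idem))
  refine ⟨c.n, K0.matEquiv_trans (K0.fromBlocks_idem hE one_idem) (K0.fromBlocks_idem hF one_idem)
    (key E hE) (K0.matEquiv_trans
      (K0.fromBlocks_idem (K0.fromBlocks_idem c.idem hE) (sub_idem c.idem))
      (K0.fromBlocks_idem hF one_idem)
      (K0.matEquiv_fromBlocks hc1 (K0.matEquiv_refl (sub_idem c.idem)))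
      (K0.matEquiv_symm (key F hF)))⟩

/-- stable equivalence passes to larger identity matrices -/
theorem matEquiv_stab_mono {m n : Type} [Fintype m] [DecidableEq m] [Fintype n] [DecidableEq n]
    (E : Matrix m m R) (F : Matrix n n R) (hE : E * E = E) (hF : F * F = F) {k l : ℕ}
    (hkl : k ≤ l) (h : MatEquiv (fromBlocks E 0 0 (1 : Matrix (Fin k) (Fin k) R))
      (fromBlocks F 0 0 (1 : Matrix (Fin k) (Fin k) R))) :
    MatEquiv (fromBlocks E 0 0 (1 : Matrix (Fin l) (Fin l) R))
      (fromBlocks F 0 0 (1 : Matrix (Fin l) (Fin l) R)) := by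
  obtain ⟨j, rfl⟩ := Nat.exists_eq_add_of_le hkl
  have h1 : MatEquiv (1 : Matrix (Fin (k + j)) (Fin (k + j)) R)
      (fromBlocks (1 : Matrix (Fin k) (Fin k) R) 0 0 (1 : Matrix (Fin j) (Fin j) R)) := by
    rw [fromBlocks_one]
    exact K0.matEquiv_one_one finSumFinEquiv.symm
  have key : ∀ {l : Type} [Fintype l] [DecidableEq l] (G : Matrix l l R), G * G = G →
      MatEquiv (fromBlocks G 0 0 (1 : Matrix (Fin (k + j)) (Fin (k + j)) R))
        (fromBlocks (fromBlocks G 0 0 (1 : Matrix (Fin k) (Fin k) R)) 0 0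
          (1 : Matrix (Fin j) (Fin j) R)) := by
    intro l _ _ G hG
    refine K0.matEquiv_trans (K0.fromBlocks_idem hG one_idem)
      (K0.fromBlocks_idem (K0.fromBlocks_idem hG one_idem) one_idem)
      (K0.matEquiv_fromBlocks (K0.matEquiv_refl hG) h1) ?_
    exact K0.matEquiv_symm (stab_assoc G 1 1 hG one_idem one_idem)
  exact K0.matEquiv_trans (K0.fromBlocks_idem hE one_idem) (K0.fromBlocks_idem hF one_idem)
    (key E hE) (K0.matEquiv_trans
      (K0.fromBlocks_idem (K0.fromBlocks_idem hE one_idem) one_idem)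
      (K0.fromBlocks_idem hF one_idem)
      (K0.matEquiv_fromBlocks h (K0.matEquiv_refl one_idem))
      (K0.matEquiv_symm (key F hF)))

theorem cls_add_compl {n : Type*} [Fintype n] [DecidableEq n] (e : Matrix n n R)
    (he : e * e = e) :
    K0.cls e he + K0.cls (1 - e) (sub_idem he) = K0.cls (1 : Matrix n n R) one_idem := by
  rw [← K0.cls_fromBlocks]
  exact K0.cls_congr _ _ (stab_compl e he)

theorem exists_sub_one (x : K0 R) : ∃ (n m : ℕ) (H : Matrix (Fin n) (Fin n) R) (hH : H * H = H),
    x = K0.cls H hH - K0.cls (1 : Matrix (Fin m) (Fin m) R) one_idem := by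
  obtain ⟨a, b, hab⟩ := K0.exists_sub x
  let b' : IdemMat R := ⟨b.n, 1 - b.mat, sub_idem b.idem⟩
  refine ⟨(a.sum b').n, b.n, (a.sum b').mat, (a.sum b').idem, ?_⟩
  rw [← K0.mk_eq_cls, K0.mk_sum, hab, ← cls_add_compl b.mat b.idem, K0.mk_eq_cls b,
    K0.mk_eq_cls b']
  abel

end Pool.Agent.H95.KM
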