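import Pool.Agent.H95.KM.Fou
import Pool.Agent.H95.KM.FinRing

/-!
# Project KM: the classes `Θ(n) ∈ K₋₁(O[C])`

`Amod O N = O / N`, `Pr O N` is the set of its maximal ideals, `kappa O N m` (`m ∈ Pr O N`) a complete
family of orthogonal idempotents of `O / N` with `kappa m ∉ m`.

`sqC f N C : Sq R[C] ((C →* Oˣ) → R) ((C →* Oˣ) → R / N)` is the square of the Fourier transform
(`|C|` divides `N`).  For `n : (C →* Oˣ) → Pr O N → ℤ` the unit `un n` of
`((C →* Oˣ) → O / N)[t, t⁻¹]` has the components `∑_m t^(n χ m) kappa m` and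
`Θ(n) = DD (un n) ∈ K₋₁(O[C])`.
-/

set_option autoImplicit false

open Matrix
open scoped LaurentPolynomial

universe u v w

namespace Pool.Agent.H95.KM

open Pool.Agent.H71.FJ

/-- `R / N`. -/
abbrev Amod (R : Type) [CommRing R] (N : ℕ) : Type := R ⧸ Ideal.span {(N : R)}

/-- The maximal ideals of `O / N`. -/
abbrev Pr (O : Type) [CommRing O] (N : ℕ) : Type := MaximalSpectrum (Amod O N)

section kappa

variable (O : Type) [CommRing O] (N : ℕ) [Finite (Amod O N)]

noncomputable instance instFintypePr : Fintype (Pr O N) := Fintype.ofFinite _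

/-- A complete family of orthogonal idempotents indexed by the maximal ideals of `O / N`. -/
noncomputable def kappa : Pr O N → Amod O N := (exists_orth (Amod O N)).choose

theorem kappa_complete : CompleteOrthogonalIdempotents (kappa O N) :=
  (exists_orth (Amod O N)).choose_spec.1

theorem kappa_notMem (m : Pr O N) : kappa O N m ∉ m.asIdeal :=
  (exists_orth (Amod O N)).choose_spec.2 m

theorem kappa_mul (m m' : Pr O N) [Decidable (m = m')] :
    kappa O N m * kappa O N m' = if m = m' then kappa O N m else 0 := by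
  split_ifs with h
  · subst h
    exact (kappa_complete O N).idem m
  · exact (kappa_complete O N).ortho h

theorem sum_kappa : ∑ m, kappa O N m = 1 := (kappa_complete O N).complete

end kappa

section un

variable (O : Type) [CommRing O] (N : ℕ) [Finite (Amod O N)] (X : Type v)

/-- The element of `(O / N)[t, t⁻¹]` which is `t^(n m)` at the component `m`. -/
noncomputable def unComp {O : Type} [CommRing O] {N : ℕ} [Finite (Amod O N)]
    (n : Pr O N → ℤ) : (Amod O N)[T;T⁻¹] := ∑ m, AddMonoidAlgebra.single (n m) (kappa O N m)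

theorem unComp_mul {O : Type} [CommRing O] {N : ℕ} [Finite (Amod O N)]
    (n n' : Pr O N → ℤ) : unComp n * unComp n' = unComp (n + n') := by
  classical
  simp only [unComp, Finset.sum_mul_sum, AddMonoidAlgebra.single_mul_single, kappa_mul]
  apply Finset.sum_congr rfl
  intro m _
  rw [Finset.sum_eq_single m]
  · rw [if_pos rfl]
    rfl
  · intro b _ hb
    rw [if_neg (Ne.symm hb), AddMonoidAlgebra.single_zero]
  · intro h
    exact absurd (Finset.mem_univ _) h

theorem unComp_zero {O : Type} [CommRing O] {N : ℕ} [Finite (Amod O N)] :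
    unComp (0 : Pr O N → ℤ) = 1 := by
  simp only [unComp, Pi.zero_apply]
  have : ∀ m : Pr O N, (AddMonoidAlgebra.single 0 (kappa O N m) : (Amod O N)[T;T⁻¹]) =
      cst _ (kappa O N m) := fun m => rfl
  simp only [this]
  rw [← map_sum, sum_kappa, map_one]

variable {X}

/-- the component of a Laurent polynomial with coefficients in `X → R` -/
noncomputable def cmp {R : Type*} [Ring R] (χ : X) : (X → R)[T;T⁻¹] →+* R[T;T⁻¹] :=
  lau (Pi.evalRingHom (fun _ : X => R) χ)

theorem cmp_coeff {R : Type*} [Ring R] (χ : X) (z : (X → R)[T;T⁻¹]) (k : ℤ) :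
    (cmp χ z).coeff k = z.coeff k χ := lau_coeff _ _ _

theorem cmp_ext {R : Type*} [Ring R] {z z' : (X → R)[T;T⁻¹]}
    (h : ∀ χ : X, cmp χ z = cmp χ z') : z = z' := by
  apply ext_coeff
  intro k
  funext χ
  rw [← cmp_coeff, ← cmp_coeff, h]

theorem exists_cmp {R : Type*} [Ring R] [Finite X] (F : X → R[T;T⁻¹]) :
    ∃ z : (X → R)[T;T⁻¹], ∀ χ, cmp χ z = F χ := by
  classical
  have : Fintype X := Fintype.ofFinite X
  refine ⟨∑ χ, ∑ k ∈ (F χ).coeff.support,
    AddMonoidAlgebra.single k (Pi.single χ ((F χ).coeff k)), ?_⟩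
  intro ψ
  rw [map_sum, Finset.sum_eq_single ψ]
  · rw [map_sum]
    conv_rhs => rw [eq_sum_single (F ψ)]
    apply Finset.sum_congr rfl
    intro k _
    rw [cmp, lau_single, Pi.evalRingHom_apply, Pi.single_eq_same]
  · intro χ _ hχ
    rw [map_sum]
    apply Finset.sum_eq_zero
    intro k _
    rw [cmp, lau_single, Pi.evalRingHom_apply, Pi.single_eq_of_ne (Ne.symm hχ),
      AddMonoidAlgebra.single_zero]
  · intro h
    exact absurd (Finset.mem_univ _) h

variable {O N}

/-- The element of `(X → O / N)[t, t⁻¹]` with components `∑_m t^(n χ m) kappa m`. -/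
noncomputable def un [Finite X] (n : X → Pr O N → ℤ) : (X → Amod O N)[T;T⁻¹] :=
  (exists_cmp (fun χ => unComp (n χ))).choose

theorem cmp_un [Finite X] (n : X → Pr O N → ℤ) (χ : X) : cmp χ (un n) = unComp (n χ) :=
  (exists_cmp (fun χ => unComp (n χ))).choose_spec χ

theorem un_mul [Finite X] (n n' : X → Pr O N → ℤ) : un n * un n' = un (n + n') := by
  apply cmp_ext
  intro χ
  rw [map_mul, cmp_un, cmp_un, cmp_un, unComp_mul]
  rfl

theorem un_zero [Finite X] : un (0 : X → Pr O N → ℤ) = 1 := by
  apply cmp_ext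
  intro χ
  rw [map_one, cmp_un, Pi.zero_apply, unComp_zero]

/-- The `1 × 1` matrix `un n` as a unit. -/
noncomputable def uN [Finite X] (n : X → Pr O N → ℤ) :
    (Matrix Unit Unit (X → Amod O N)[T;T⁻¹])ˣ where
  val := Matrix.of fun _ _ => un n
  inv := Matrix.of fun _ _ => un (-n)
  val_inv := by
    ext i j : 1
    simp [Matrix.mul_apply, un_mul, un_zero, Matrix.one_apply, Subsingleton.elim i j]
  inv_val := by
    ext i j : 1
    simp [Matrix.mul_apply, un_mul, un_zero, Matrix.one_apply, Subsingleton.elim i j]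

end un

section sq

variable {O : Type} [CommRing O] [IsDomain O] {R : Type} [CommRing R] [IsDomain R] [CharZero R]
  (f : O →+* R) (N : ℕ) [NeZero N] [HasEnoughRootsOfUnity O N]
  (C : Type v) [Group C] [Finite C] (hC : ∀ a b : C, a * b = b * a) (hN : Nat.card C ∣ N)

/-- The square of the Fourier transform. -/
noncomputable def sqC : Sq (MonoidAlgebra R C) ((C →* Oˣ) → R) ((C →* Oˣ) → Amod R N) where
  φ := fou f C
  π := RingHom.pi fun χ => (Ideal.Quotient.mk _).comp (Pi.evalRingHom (fun _ => R) χ)
  inj := by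
    apply fou_injective f N hC hN
    intro r hr
    rcases mul_eq_zero.1 hr with h | h
    · exact absurd h (by exact_mod_cast Nat.card_pos.ne')
    · exact h
  surj := by
    intro y
    choose g hg using fun χ => Ideal.Quotient.mk_surjective (y χ)
    exact ⟨g, funext hg⟩
  ker := by
    intro z hz
    have := finite_dual (O := O) N hC hN
    obtain ⟨k, hk⟩ := hN
    have h1 : ∀ χ, ∃ r, z χ = (N : R) * r := by
      intro χ
      have h2 : Ideal.Quotient.mk (Ideal.span {(N : R)}) (z χ) = 0 := congrFun hz χ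
      rw [Ideal.Quotient.eq_zero_iff_mem, Ideal.mem_span_singleton] at h2
      exact h2
    choose r hr using h1
    obtain ⟨x, hx⟩ := exists_fou f (C := C) (fun χ => (k : R) * r χ)
    refine ⟨x, ?_⟩
    rw [hx]
    funext χ
    rw [hr, hk]
    push_cast
    ring

/-- The class `Θ(n) ∈ K₋₁(O[C])`. -/
noncomputable def Theta [CharZero O] [Finite (Amod O N)] (n : (C →* Oˣ) → Pr O N → ℤ) :
    Km1 (MonoidAlgebra O C) :=
  haveI := finite_dual (O := O) N hC hN
  (sqC (RingHom.id O) N C hC hN).DD.D (uN n)

end sq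

end Pool.Agent.H95.KM
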