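import Mathlib

/-!
# Project KM, module Words: traces of `p`-power powers of sums

PROOF of `card_orbits_congr`.  `C = ZMod (p ^ m)` (written multiplicatively or additively) acts on
the finite set `X` by powers of a permutation `ρ : Equiv.Perm X` with `ρ ^ (p ^ m) = 1`, and `F` is
invariant.  A point `x` not fixed by `ρ ^ (p ^ K)` has orbit size `p ^ j` with `j ≥ K + 1` (the
orbit size is a power `p ^ j` with `j ≤ m`, and it is the least `n > 0` with `ρ ^ n x = x`; if
`j ≤ K` then `ρ ^ (p ^ K) x = x`).  The set of points not fixed by `ρ ^ (p ^ K)` is invariant and a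
disjoint union of orbits, on each of which `F` is constant, so the sum of `F` over it is a
multiple of `p ^ (K + 1)`.  (One possibility: sum over the quotient of `X` by the orbit relation /
the cycles `Equiv.Perm.SameCycle`; the class of `x` has
`Function.minimalPeriod ρ x = p ^ j` elements `ρ ^ i x`, `i < p ^ j`.)

PROOF of `words`.  Expand `(∑ s, x s) ^ (p ^ m) = ∑_{w : Fin (p ^ m) → S} ∏ x (w i)` (noncommutative,
ordered product over `List.ofFn`; e.g. `Finset.sum_pow'`-like lemma by induction, or use words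
`w : Fin n → S` and `List.ofFn`).  Apply `card_orbits_congr` to `X = Fin (p ^ m) → S`, `ρ` = rotation
by one (`w ↦ fun i => w (i + 1)` cyclically, `finRotate`), `F w = τ (x_w)`, invariant by the trace
property `τ (a b) = τ (b a)`.  The words fixed by the rotation by `p ^ K` are exactly the
`w = ω ω ⋯ ω` (`p ^ (m - K)` times), `ω : Fin (p ^ K) → S`, i.e. `w i = ω (i mod p ^ K)`, and
`x_w = (x_ω) ^ (p ^ (m - K))`.
-/

set_option autoImplicit false

namespace Pool.Agent.H95.KM

/-- a sum of an invariant function over an invariant set all of whose orbits have size divisible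
by `q` is divisible by `q` -/
private theorem Words_orbit_sum {X : Type*} [DecidableEq X] {M : Type*} [AddCommGroup M]
    (q : ℕ) (ρ : Equiv.Perm X) (F : X → M) (hF : ∀ x, F (ρ x) = F x) :
    ∀ N : Finset X, (∀ x ∈ N, ρ x ∈ N) →
      (∀ x ∈ N, q ∣ Function.minimalPeriod ρ x ∧ 0 < Function.minimalPeriod ρ x) →
      ∃ y : M, ∑ x ∈ N, F x = q • y := by
  intro N
  induction N using Finset.strongInduction with
  | H N ih =>
    intro hinv hper
    rcases N.eq_empty_or_nonempty with h | ⟨x, hx⟩
    · subst h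
      exact ⟨0, by simp⟩
    · obtain ⟨⟨k, hk⟩, hpos⟩ := hper x hx
      set n := Function.minimalPeriod ρ x with hn
      set O : Finset X := (Finset.range n).image (fun i => ρ^[i] x) with hO
      have hiter : ∀ i, ρ^[i] x ∈ N := by
        intro i
        induction i with
        | zero => simpa using hx
        | succ i ih =>
          rw [Function.iterate_succ_apply']
          exact hinv _ ih
      have hON : O ⊆ N := by
        intro y hy
        obtain ⟨i, _, rfl⟩ := Finset.mem_image.1 hy
        exact hiter i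
      have hxO : x ∈ O := Finset.mem_image.2 ⟨0, Finset.mem_range.2 hpos, rfl⟩
      have hFi : ∀ i, F (ρ^[i] x) = F x := by
        intro i
        induction i with
        | zero => rfl
        | succ i ih => rw [Function.iterate_succ_apply', hF, ih]
      have hsumO : ∑ y ∈ O, F y = n • F x := by
        rw [hO, Finset.sum_image]
        · rw [Finset.sum_congr rfl (fun i _ => hFi i), Finset.sum_const, Finset.card_range]
        · intro i hi j hj hij
          exact Function.iterate_injOn_Iio_minimalPeriod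
            (by simpa [hn] using hi) (by simpa [hn] using hj) hij
      have hper0 : ρ^[n] x = x := Function.iterate_minimalPeriod
      have hback : ∀ y, ρ y ∈ O → y ∈ O := by
        intro y hy
        obtain ⟨i, hi, hiy⟩ := Finset.mem_image.1 hy
        have hi' := Finset.mem_range.1 hi
        rcases Nat.eq_zero_or_pos i with h | h
        · subst h
          have h1 : ρ (ρ^[n - 1] x) = ρ y := by
            rw [← hiy, ← Function.iterate_succ_apply' ρ, Nat.sub_one, Nat.succ_pred_eq_of_pos hpos]
            exact hper0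
          have h2 := ρ.injective h1
          rw [← h2]
          exact Finset.mem_image.2 ⟨n - 1, Finset.mem_range.2 (by omega), rfl⟩
        · obtain ⟨j, rfl⟩ : ∃ j, i = j + 1 := ⟨i - 1, by omega⟩
          simp only [Function.iterate_succ_apply'] at hiy
          have h2 := ρ.injective hiy
          rw [← h2]
          exact Finset.mem_image.2 ⟨j, Finset.mem_range.2 (by omega), rfl⟩
      have hlt : N \ O ⊂ N := by
        refine Finset.ssubset_iff_subset_ne.2 ⟨Finset.sdiff_subset, fun h => ?_⟩
        rw [← h] at hx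
        exact (Finset.mem_sdiff.1 hx).2 hxO
      obtain ⟨y, hy⟩ := ih (N \ O) hlt (by
        intro z hz
        obtain ⟨hz1, hz2⟩ := Finset.mem_sdiff.1 hz
        exact Finset.mem_sdiff.2 ⟨hinv z hz1, fun h => hz2 (hback z h)⟩) (by
        intro z hz
        exact hper z (Finset.mem_sdiff.1 hz).1)
      refine ⟨y + k • F x, ?_⟩
      rw [← Finset.sum_sdiff hON, hy, hsumO, hk, nsmul_add, mul_nsmul']

theorem card_orbits_congr {X : Type*} [Fintype X] [DecidableEq X] {M : Type*} [AddCommGroup M]
    (p : ℕ) [Fact p.Prime] (m K : ℕ) (hK : K ≤ m) (ρ : Equiv.Perm X) (hρ : ρ ^ (p ^ m) = 1)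
    (F : X → M) (hF : ∀ x, F (ρ x) = F x) :
    ∃ y : M, ∑ x, F x = ∑ x ∈ Finset.univ.filter (fun x => (ρ ^ (p ^ K)) x = x), F x +
      (p ^ (K + 1)) • y := by
  have hp : p.Prime := Fact.out
  have hpow : ∀ (k : ℕ) (x : X), (ρ ^ k) x = ρ^[k] x := fun k x => by
    rw [Equiv.Perm.iterate_eq_pow]
  have hper : ∀ x, Function.IsPeriodicPt ρ (p ^ m) x := by
    intro x
    change ρ^[p ^ m] x = x
    rw [← hpow, hρ]; rfl
  obtain ⟨y, hy⟩ := Words_orbit_sum (p ^ (K + 1)) ρ F hF
    (Finset.univ.filter (fun x => ¬ (ρ ^ (p ^ K)) x = x)) (by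
      intro x hx
      rw [Finset.mem_filter] at hx ⊢
      refine ⟨Finset.mem_univ _, fun h => hx.2 ?_⟩
      have h1 : ρ ((ρ ^ (p ^ K)) x) = ρ x := by
        rw [← Equiv.Perm.mul_apply, ← pow_succ', pow_succ, Equiv.Perm.mul_apply]
        exact h
      exact ρ.injective h1) (by
      intro x hx
      have hx2 := (Finset.mem_filter.1 hx).2
      have hd := (hper x).minimalPeriod_dvd
      obtain ⟨j, hj, hj2⟩ := (Nat.dvd_prime_pow hp).1 hd
      have hjK : K + 1 ≤ j := by
        by_contra hlt
        apply hx2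
        rw [hpow]
        have hdvd : Function.minimalPeriod ρ x ∣ p ^ K := by
          rw [hj2]
          exact pow_dvd_pow p (by omega)
        exact (Function.isPeriodicPt_iff_minimalPeriod_dvd.2 hdvd)
      refine ⟨?_, ?_⟩
      · rw [hj2]
        exact pow_dvd_pow p hjK
      · rw [hj2]
        exact pow_pos hp.pos j)
  refine ⟨y, ?_⟩
  rw [← hy]
  exact (Finset.sum_filter_add_sum_filter_not Finset.univ (fun x => (ρ ^ (p ^ K)) x = x) F).symm

/-- expansion of a power of a sum -/
private theorem Words_expand {R : Type*} [Ring R] {S : Type*} [Fintype S] (x : S → R) :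
    ∀ n : ℕ, (∑ s, x s) ^ n = ∑ w : Fin n → S, (List.ofFn (fun i => x (w i))).prod := by
  intro n
  induction n with
  | zero => simp
  | succ n ih =>
    rw [pow_succ', ih, Finset.sum_mul_sum, ← Finset.sum_product', Finset.univ_product_univ]
    refine Fintype.sum_equiv (Fin.consEquiv (fun _ : Fin (n + 1) => S)) _ _ ?_
    rintro ⟨a, v⟩
    rw [List.ofFn_succ, List.prod_cons]
    rfl

/-- cyclic shift of positions -/
private def Words_sh (N : ℕ) (hN : 0 < N) (k : ℕ) (i : Fin N) : Fin N :=
  ⟨((i : ℕ) + k) % N, Nat.mod_lt _ hN⟩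

private theorem Words_sh_sh {N : ℕ} (hN : 0 < N) (k l : ℕ) (i : Fin N) :
    Words_sh N hN k (Words_sh N hN l i) = Words_sh N hN (l + k) i := by
  apply Fin.ext
  change (((i : ℕ) + l) % N + k) % N = ((i : ℕ) + (l + k)) % N
  rw [Nat.mod_add_mod, Nat.add_assoc]

private theorem Words_sh_zero {N : ℕ} (hN : 0 < N) (i : Fin N) : Words_sh N hN 0 i = i := by
  apply Fin.ext
  change ((i : ℕ) + 0) % N = (i : ℕ)
  rw [Nat.add_zero, Nat.mod_eq_of_lt i.2]

private theorem Words_sh_self {N : ℕ} (hN : 0 < N) (i : Fin N) : Words_sh N hN N i = i := by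
  apply Fin.ext
  change ((i : ℕ) + N) % N = (i : ℕ)
  rw [Nat.add_mod_right, Nat.mod_eq_of_lt i.2]

/-- rotation of words -/
private def Words_rot (N : ℕ) (hN : 0 < N) (S : Type*) : Equiv.Perm (Fin N → S) where
  toFun w i := w (Words_sh N hN 1 i)
  invFun w i := w (Words_sh N hN (N - 1) i)
  left_inv w := by
    funext i
    change w (Words_sh N hN 1 (Words_sh N hN (N - 1) i)) = w i
    rw [Words_sh_sh, Nat.sub_add_cancel hN, Words_sh_self]
  right_inv w := by
    funext i
    change w (Words_sh N hN (N - 1) (Words_sh N hN 1 i)) = w i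
    rw [Words_sh_sh, Nat.add_sub_cancel' hN, Words_sh_self]

private theorem Words_rot_apply {N : ℕ} (hN : 0 < N) {S : Type*} (w : Fin N → S) (i : Fin N) :
    Words_rot N hN S w i = w (Words_sh N hN 1 i) := rfl

private theorem Words_rot_pow {N : ℕ} (hN : 0 < N) {S : Type*} (k : ℕ) (w : Fin N → S) (i : Fin N) :
    ((Words_rot N hN S) ^ k) w i = w (Words_sh N hN k i) := by
  induction k generalizing i with
  | zero => rw [Words_sh_zero, pow_zero]; rfl
  | succ k ih =>
    rw [pow_succ', Equiv.Perm.mul_apply, Words_rot_apply, ih, Words_sh_sh, Nat.add_comm 1 k]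

private theorem Words_trace {R : Type*} [Ring R] {M : Type*} [AddCommGroup M] (τ : R →+ M)
    (hτ : ∀ a b, τ (a * b) = τ (b * a)) {S : Type*} (x : S → R) {N : ℕ} (hN : 0 < N)
    (w : Fin N → S) :
    τ (List.ofFn (fun i => x (Words_rot N hN S w i))).prod = τ (List.ofFn (fun i => x (w i))).prod := by
  obtain ⟨n, rfl⟩ : ∃ n, N = n + 1 := ⟨N - 1, by omega⟩
  have h1 : Words_sh (n + 1) hN 1 (Fin.last n) = 0 := by
    apply Fin.ext
    change (n + 1) % (n + 1) = 0
    exact Nat.mod_self _
  have h2 : ∀ i : Fin n, Words_sh (n + 1) hN 1 i.castSucc = i.succ := by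
    intro i
    apply Fin.ext
    change ((i : ℕ) + 1) % (n + 1) = (i : ℕ) + 1
    exact Nat.mod_eq_of_lt (by omega)
  rw [List.ofFn_succ', List.ofFn_succ, List.prod_concat, List.prod_cons, hτ]
  simp only [Words_rot_apply, h1, h2]

/-- the fixed words -/
private theorem Words_fixed {R : Type*} [Ring R] {M : Type*} [AddCommGroup M] (τ : R →+ M)
    {S : Type*} [Fintype S] [DecidableEq S] (x : S → R) (a b N : ℕ) (hN0 : 0 < N)
    (hN : N = a * b) :
    ∑ w ∈ Finset.univ.filter (fun w : Fin N → S => ((Words_rot N hN0 S) ^ b) w = w),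
        τ (List.ofFn (fun i => x (w i))).prod
      = ∑ ω : Fin b → S, τ ((List.ofFn (fun i => x (ω i))).prod ^ a) := by
  have hb0 : 0 < b := by
    rcases Nat.eq_zero_or_pos b with h | h
    · rw [h, mul_zero] at hN; omega
    · exact h
  have ha0 : 0 < a := by
    rcases Nat.eq_zero_or_pos a with h | h
    · rw [h, zero_mul] at hN; omega
    · exact h
  have hbN : b ∣ N := ⟨a, by rw [hN, mul_comm]⟩
  have hbleN : b ≤ N := Nat.le_of_dvd hN0 hbN
  have hperk : ∀ w : Fin N → S, ((Words_rot N hN0 S) ^ b) w = w →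
      ∀ (k : ℕ) (i : Fin N), w (Words_sh N hN0 (k * b) i) = w i := by
    intro w hw k
    have hper : ∀ i : Fin N, w (Words_sh N hN0 b i) = w i := by
      intro i
      have := congrFun hw i
      rwa [Words_rot_pow] at this
    induction k with
    | zero => intro i; rw [Nat.zero_mul, Words_sh_zero]
    | succ k ih =>
      intro i
      have : Words_sh N hN0 ((k + 1) * b) i = Words_sh N hN0 (k * b) (Words_sh N hN0 b i) := by
        rw [Words_sh_sh]; congr 1; ring
      rw [this, ih, hper]
  refine Finset.sum_bij' (fun w _ => fun j : Fin b => w ⟨(j : ℕ), lt_of_lt_of_le j.2 hbleN⟩)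
    (fun ω _ => fun i : Fin N => ω ⟨(i : ℕ) % b, Nat.mod_lt _ hb0⟩) ?_ ?_ ?_ ?_ ?_
  · intro w _
    exact Finset.mem_univ _
  · intro ω _
    refine Finset.mem_filter.2 ⟨Finset.mem_univ _, ?_⟩
    funext i
    rw [Words_rot_pow]
    congr 1
    apply Fin.ext
    change (((i : ℕ) + b) % N) % b = (i : ℕ) % b
    rw [Nat.mod_mod_of_dvd _ hbN, Nat.add_mod_right]
  · intro w hw
    have hw2 := (Finset.mem_filter.1 hw).2
    funext i
    change w ⟨(i : ℕ) % b, _⟩ = w i
    have h2 := hperk w hw2 ((i : ℕ) / b) ⟨(i : ℕ) % b, lt_of_lt_of_le (Nat.mod_lt _ hb0) hbleN⟩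
    have h1 : Words_sh N hN0 ((i : ℕ) / b * b) ⟨(i : ℕ) % b, lt_of_lt_of_le (Nat.mod_lt _ hb0) hbleN⟩
        = i := by
      apply Fin.ext
      change ((i : ℕ) % b + (i : ℕ) / b * b) % N = (i : ℕ)
      rw [Nat.mod_add_div', Nat.mod_eq_of_lt i.2]
    rw [h1] at h2
    exact h2.symm
  · intro ω _
    funext j
    change ω ⟨(j : ℕ) % b, _⟩ = ω j
    congr 1
    apply Fin.ext
    exact Nat.mod_eq_of_lt j.2
  · intro w hw
    have hw2 := (Finset.mem_filter.1 hw).2
    congr 1
    have key : ∀ (N' : ℕ) (_ : N' = a * b) (f : Fin N' → R) (g : Fin b → R),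
        (∀ (k : ℕ) (j : Fin b) (h : k * b + j < N'), f ⟨k * b + j, h⟩ = g j) →
        (List.ofFn f).prod = (List.ofFn g).prod ^ a := by
      rintro N' rfl f g hfg
      rw [List.ofFn_mul, List.prod_flatten, List.map_ofFn]
      have : (List.prod ∘ fun i : Fin a => List.ofFn fun j : Fin b => f ⟨i * b + j, by
          calc (i : ℕ) * b + j < (i : ℕ) * b + b := Nat.add_lt_add_left j.2 _
            _ = (i + 1) * b := by ring
            _ ≤ a * b := Nat.mul_le_mul_right _ i.2⟩) = fun _ => (List.ofFn g).prod := by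
        funext i
        simp only [Function.comp_apply]
        congr 1
        congr 1
        funext j
        exact hfg i j _
      rw [this, List.ofFn_const, List.prod_replicate]
    refine key N hN _ _ ?_
    intro k j h
    congr 1
    have h1 : (⟨k * b + j, h⟩ : Fin N)
        = Words_sh N hN0 (k * b) ⟨(j : ℕ), lt_of_lt_of_le j.2 hbleN⟩ := by
      apply Fin.ext
      change k * b + (j : ℕ) = ((j : ℕ) + k * b) % N
      rw [Nat.mod_eq_of_lt (by omega)]
      ring
    rw [h1, hperk w hw2]

theorem words {R : Type*} [Ring R] {M : Type*} [AddCommGroup M] (τ : R →+ M)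
    (hτ : ∀ a b, τ (a * b) = τ (b * a)) (p : ℕ) [Fact p.Prime] {S : Type*} [Fintype S]
    [DecidableEq S] (x : S → R) (K m : ℕ) (hK : K ≤ m) :
    ∃ y : M, τ ((∑ s, x s) ^ (p ^ m)) =
      ∑ ω : Fin (p ^ K) → S, τ ((List.ofFn (fun i => x (ω i))).prod ^ (p ^ (m - K))) +
        (p ^ (K + 1)) • y := by
  have hp : p.Prime := Fact.out
  have hN : 0 < p ^ m := pow_pos hp.pos m
  rw [Words_expand, map_sum]
  obtain ⟨y, hy⟩ := card_orbits_congr p m K hK (Words_rot (p ^ m) hN S) (by
    apply Equiv.ext
    intro w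
    funext i
    rw [Words_rot_pow, Words_sh_self]
    rfl) (fun w => τ (List.ofFn (fun i => x (w i))).prod)
    (fun w => Words_trace τ hτ x hN w)
  refine ⟨y, ?_⟩
  rw [hy, Words_fixed τ x (p ^ (m - K)) (p ^ K) (p ^ m) hN (by rw [← pow_add]; congr 1; omega)]

end Pool.Agent.H95.KM
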